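import Pool.Agent.Lib_helper74.Hit.Defs2

/-! Module COUNT for the hit problem: monotone words and multiplicity functions. -/

namespace Pool.Agent.Lib_helper74.Hit

namespace Count

/-- The multiset of values of a word. -/
def ms {n : ℕ} (e : Fin n → ℕ) : Multiset ℕ := (Finset.univ : Finset (Fin n)).val.map e

theorem ms_eq {n : ℕ} (e : Fin n → ℕ) : ms e = (List.ofFn e : Multiset ℕ) := by
  unfold ms
  exact Fin.univ_val_map e

theorem ms_card {n : ℕ} (e : Fin n → ℕ) : Multiset.card (ms e) = n := by
  rw [ms_eq, Multiset.coe_card, List.length_ofFn]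

theorem ms_inj {n : ℕ} {e e' : Fin n → ℕ} (he : Monotone e) (he' : Monotone e')
    (h : ms e = ms e') : e = e' := by
  rw [ms_eq, ms_eq, Multiset.coe_eq_coe] at h
  have h1 : (List.ofFn e).SortedLE := he.sortedLE_ofFn
  have h2 : (List.ofFn e').SortedLE := he'.sortedLE_ofFn
  exact List.ofFn_injective (h.eq_of_sortedLE h1 h2)

theorem w_ge (a : ℕ) : a ≤ 2 ^ a - 1 := by
  have := Nat.lt_two_pow_self (n := a)
  omega

theorem sum_ms {n : ℕ} (e : Fin n → ℕ) (w : ℕ → ℕ) :
    ∑ i, w (e i) = ((ms e).map w).sum := by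
  unfold ms
  rw [Multiset.map_map]
  rfl

theorem sum_count (s : Multiset ℕ) (k : ℕ) (w : ℕ → ℕ) (h0 : w 0 = 0)
    (hs : ∀ a ∈ s, a ≤ k + 1) :
    (s.map w).sum = ∑ v : Fin (k + 1), s.count ((v : ℕ) + 1) * w ((v : ℕ) + 1) := by
  rw [Finset.sum_multiset_map_count]
  have h1 : ∑ m ∈ s.toFinset, s.count m • w m = ∑ m ∈ Finset.range (k + 2), s.count m • w m := by
    apply Finset.sum_subset
    · intro a ha
      rw [Multiset.mem_toFinset] at ha
      have := hs a ha
      rw [Finset.mem_range]
      omega
    · intro a _ ha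
      rw [Multiset.mem_toFinset] at ha
      rw [Multiset.count_eq_zero_of_notMem ha, zero_smul]
  rw [h1, Finset.sum_range_succ', h0, smul_zero, add_zero, Finset.sum_range]
  rfl

theorem ms_ext (s s' : Multiset ℕ) (hc : Multiset.card s = Multiset.card s')
    (h : ∀ a, 1 ≤ a → s.count a = s'.count a) : s = s' := by
  have hf : s.filter (fun a => ¬ a = 0) = s'.filter (fun a => ¬ a = 0) := by
    ext a
    by_cases ha : a = 0
    · rw [Multiset.count_filter, Multiset.count_filter, if_neg (not_not.2 ha),
        if_neg (not_not.2 ha)]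
    · rw [Multiset.count_filter, Multiset.count_filter, if_pos ha, if_pos ha]
      exact h a (Nat.one_le_iff_ne_zero.2 ha)
  have e1 := congrArg Multiset.card (Multiset.filter_add_not (fun a => a = 0) s)
  have e2 := congrArg Multiset.card (Multiset.filter_add_not (fun a => a = 0) s')
  rw [Multiset.card_add] at e1 e2
  have e3 : ∀ t : Multiset ℕ, t.count 0 = Multiset.card (t.filter (fun a => a = 0)) := by
    intro t
    rw [Multiset.count_eq_card_filter_eq]
    congr 1
    apply Multiset.filter_congr
    intro x _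
    exact eq_comm
  ext a
  by_cases ha : a = 0
  · subst ha
    rw [e3, e3]
    have := congrArg Multiset.card hf
    omega
  · exact h a (Nat.one_le_iff_ne_zero.2 ha)

theorem exists_word (n : ℕ) (s : Multiset ℕ) (hs : Multiset.card s = n) :
    ∃ e : Fin n → ℕ, Monotone e ∧ ms e = s := by
  have hl : (s.sort (· ≤ ·)).length = n := by rw [Multiset.length_sort, hs]
  subst hl
  refine ⟨(s.sort (· ≤ ·)).get, ?_, ?_⟩
  · have h1 : (s.sort (· ≤ ·)).SortedLE := (s.pairwise_sort (· ≤ ·)).sortedLE
    exact h1.monotone_get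
  · rw [ms_eq, List.ofFn_get, Multiset.sort_eq]

/-- The weight condition bounds the letters. -/
theorem letter_le {n k : ℕ} (e : Fin n → ℕ) (he : ∑ i, (2 ^ (e i) - 1) = k) (a : ℕ)
    (ha : a ∈ ms e) : a ≤ k := by
  unfold ms at ha
  rw [Multiset.mem_map] at ha
  obtain ⟨i, _, rfl⟩ := ha
  calc e i ≤ 2 ^ (e i) - 1 := w_ge _
    _ ≤ ∑ i, (2 ^ (e i) - 1) :=
        Finset.single_le_sum (f := fun i => 2 ^ (e i) - 1) (fun _ _ => Nat.zero_le _)
          (Finset.mem_univ i)
    _ = k := he

/-- The multiplicity function of a word. -/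
def mult {n k : ℕ} (e : Words n k) :
    {r : Fin (k + 1) → ℕ // ∑ i, r i * (2 ^ ((i : ℕ) + 1) - 1) = k} :=
  ⟨fun v => (ms e.1).count ((v : ℕ) + 1), by
    have h1 := sum_count (ms e.1) k (fun a => 2 ^ a - 1) (by simp)
      (fun a ha => (letter_le e.1 e.2.2 a ha).trans (Nat.le_succ k))
    rw [← sum_ms] at h1
    exact h1.symm.trans e.2.2⟩

theorem mult_inj {n k : ℕ} : Function.Injective (mult : Words n k → _) := by
  intro e e' h
  apply Subtype.ext
  apply ms_inj e.2.1 e'.2.1
  apply ms_ext
  · rw [ms_card, ms_card]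
  · intro a ha
    by_cases hk : a ≤ k
    · have h1 := congrFun (congrArg Subtype.val h) ⟨a - 1, by omega⟩
      have h2 : (ms e.1).count (a - 1 + 1) = (ms e'.1).count (a - 1 + 1) := h1
      rwa [Nat.sub_add_cancel ha] at h2
    · rw [Multiset.count_eq_zero_of_notMem, Multiset.count_eq_zero_of_notMem]
      · intro hm
        exact hk (letter_le e'.1 e'.2.2 a hm)
      · intro hm
        exact hk (letter_le e.1 e.2.2 a hm)

theorem mult_surj {n k : ℕ} (hkn : k ≤ n) : Function.Surjective (mult : Words n k → _) := by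
  intro r
  obtain ⟨r, hr⟩ := r
  set s0 : Multiset ℕ := ∑ v : Fin (k + 1), Multiset.replicate (r v) ((v : ℕ) + 1) with hs0
  have hcard : Multiset.card s0 ≤ k := by
    rw [hs0, Multiset.card_sum]
    refine le_trans ?_ hr.le
    apply Finset.sum_le_sum
    intro v _
    rw [Multiset.card_replicate]
    have : 1 ≤ 2 ^ ((v : ℕ) + 1) - 1 := by
      have := w_ge ((v : ℕ) + 1)
      omega
    exact Nat.le_mul_of_pos_right _ this
  have hcount : ∀ v : Fin (k + 1), s0.count ((v : ℕ) + 1) = r v := by
    intro v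
    rw [hs0, Multiset.count_sum']
    rw [Finset.sum_eq_single v]
    · rw [Multiset.count_replicate_self]
    · intro b _ hb
      rw [Multiset.count_replicate, if_neg]
      intro h
      apply hb
      apply Fin.ext
      omega
    · intro h
      exact absurd (Finset.mem_univ v) h
  have hmem : ∀ a ∈ s0, a ≤ k + 1 := by
    intro a ha
    rw [hs0, Multiset.mem_sum] at ha
    obtain ⟨v, _, hv⟩ := ha
    rw [Multiset.eq_of_mem_replicate hv]
    have := v.2
    omega
  set s : Multiset ℕ := s0 + Multiset.replicate (n - Multiset.card s0) 0 with hs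
  have hsc : Multiset.card s = n := by
    rw [hs, Multiset.card_add, Multiset.card_replicate]
    omega
  have hcount' : ∀ v : Fin (k + 1), s.count ((v : ℕ) + 1) = r v := by
    intro v
    rw [hs, Multiset.count_add, hcount, Multiset.count_replicate, if_neg (by omega), add_zero]
  obtain ⟨e, he, hes⟩ := exists_word n s hsc
  have hw : ∑ i, (2 ^ (e i) - 1) = k := by
    have h1 := sum_ms e (fun a => 2 ^ a - 1)
    have h2 := sum_count s k (fun a => 2 ^ a - 1) (by simp) (by
      intro a ha
      rw [hs, Multiset.mem_add] at ha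
      rcases ha with ha | ha
      · exact hmem a ha
      · rw [Multiset.eq_of_mem_replicate ha]
        omega)
    rw [hes, h2] at h1
    refine h1.trans (Eq.trans ?_ hr)
    apply Finset.sum_congr rfl
    intro v _
    rw [hcount']
  refine ⟨⟨e, he, hw⟩, ?_⟩
  apply Subtype.ext
  funext v
  show (ms e).count ((v : ℕ) + 1) = r v
  rw [hes, hcount']

instance finite_mult (k : ℕ) :
    Finite {r : Fin (k + 1) → ℕ // ∑ i, r i * (2 ^ ((i : ℕ) + 1) - 1) = k} := by
  have hinj : Function.Injective
      (fun (r : {r : Fin (k + 1) → ℕ // ∑ i, r i * (2 ^ ((i : ℕ) + 1) - 1) = k})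
        (v : Fin (k + 1)) => (⟨r.1 v, by
          have h1 : r.1 v * (2 ^ ((v : ℕ) + 1) - 1) ≤ k := by
            refine le_trans ?_ r.2.le
            exact Finset.single_le_sum
              (f := fun i : Fin (k + 1) => r.1 i * (2 ^ ((i : ℕ) + 1) - 1))
              (fun _ _ => Nat.zero_le _) (Finset.mem_univ v)
          have h2 : 1 ≤ 2 ^ ((v : ℕ) + 1) - 1 := by
            have := w_ge ((v : ℕ) + 1)
            omega
          have h3 := Nat.le_mul_of_pos_right (r.1 v) h2
          omega⟩ : Fin (k + 1))) := by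
    intro r r' h
    apply Subtype.ext
    funext v
    have h1 := congrFun h v
    exact congrArg Fin.val h1
  exact Finite.of_injective _ hinj

end Count

/-- Module COUNT. -/
theorem count : CountStmt := by
  intro n k
  have hf : Finite (Words n k) := Finite.of_injective _ (Count.mult_inj (n := n) (k := k))
  refine ⟨hf, ?_, ?_⟩
  · exact Nat.card_le_card_of_injective _ (Count.mult_inj (n := n) (k := k))
  · intro hkn
    exact Nat.card_eq_of_bijective _ ⟨Count.mult_inj, Count.mult_surj hkn⟩

end Pool.Agent.Lib_helper74.Hit
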