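import Pool.Agent.Lib_helper74.Hit.Dim

/-! One variable: `x ^ i` is hit unless `i + 1` is a power of two. -/

namespace Pool.Agent.Lib_helper74.Hit

open MvPolynomial

variable {σ τ : Type}

theorem Sq_X_pow (i : σ) (m k : ℕ) (hk : k ≤ m) :
    Sq k (X i ^ m) = (m.choose k : MvPolynomial σ (ZMod 2)) * X i ^ (m + k) := by
  classical
  have h : totalSq σ (X i ^ m) = ∑ j ∈ Finset.range (m + 1),
      Polynomial.C ((m.choose j : MvPolynomial σ (ZMod 2)) * X i ^ (m + j)) *
        Polynomial.X ^ j := by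
    rw [map_pow, totalSq_X, add_comm, add_pow]
    apply Finset.sum_congr rfl
    intro j hj
    rw [Finset.mem_range] at hj
    have h1 : (X i : MvPolynomial σ (ZMod 2)) ^ (m + j) = (X i ^ 2) ^ j * X i ^ (m - j) := by
      rw [← pow_mul, ← pow_add]
      congr 1
      omega
    rw [h1]
    simp only [mul_pow, map_mul, map_pow, map_natCast]
    ring
  rw [Sq, h, Polynomial.finsetSum_coeff]
  rw [Finset.sum_eq_single k]
  · rw [Polynomial.coeff_C_mul, Polynomial.coeff_X_pow, if_pos rfl, mul_one]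
  · intro j _ hj
    rw [Polynomial.coeff_C_mul, Polynomial.coeff_X_pow, if_neg (Ne.symm hj), mul_zero]
  · intro h
    rw [Finset.mem_range] at h
    omega

theorem choose_odd : ∀ a b : ℕ, 1 ≤ b → (2 ^ (a + 1) * b - 1).choose (2 ^ a) % 2 = 1 := by
  intro a
  induction a with
  | zero =>
    intro b hb
    rw [pow_zero, Nat.choose_one_right]
    omega
  | succ a ih =>
    intro b hb
    have h := Choose.choose_modEq_choose_mod_mul_choose_div_nat (p := 2)
      (n := 2 ^ (a + 1 + 1) * b - 1) (k := 2 ^ (a + 1))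
    have h1 : 1 ≤ 2 ^ (a + 1) * b := Nat.mul_pos (by positivity) hb
    have e0 : 2 ^ (a + 1 + 1) * b = 2 * (2 ^ (a + 1) * b) := by ring
    have e1 : (2 ^ (a + 1 + 1) * b - 1) % 2 = 1 := by omega
    have e2 : (2 ^ (a + 1 + 1) * b - 1) / 2 = 2 ^ (a + 1) * b - 1 := by omega
    have e3 : 2 ^ (a + 1) % 2 = 0 := by rw [pow_succ]; omega
    have e4 : 2 ^ (a + 1) / 2 = 2 ^ a := by rw [pow_succ]; omega
    rw [e1, e2, e3, e4, Nat.choose_zero_right, one_mul] at h
    rw [Nat.ModEq] at h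
    rw [h]
    exact ih b hb

theorem X_pow_mem_hits (x : σ) (i : ℕ) (h : ∀ e, i + 1 ≠ 2 ^ e) : X x ^ i ∈ hits σ := by
  obtain ⟨a, c, hc, hi⟩ := Nat.exists_eq_two_pow_mul_odd (n := i + 1) (by omega)
  obtain ⟨b, rfl⟩ := hc
  have hb : 1 ≤ b := by
    by_contra hb
    have : b = 0 := by omega
    subst this
    apply h a
    simpa using hi
  have hpos : 1 ≤ 2 ^ a := Nat.one_le_two_pow
  have e0 : 2 ^ a * (2 * b + 1) = 2 ^ (a + 1) * b + 2 ^ a := by ring
  have hm : i = (2 ^ (a + 1) * b - 1) + 2 ^ a := by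
    have : 1 ≤ 2 ^ (a + 1) * b := Nat.mul_pos (by positivity) hb
    omega
  have hle : 2 ^ a ≤ 2 ^ (a + 1) * b - 1 := by
    have : 2 ^ (a + 1) * 1 ≤ 2 ^ (a + 1) * b := Nat.mul_le_mul_left _ hb
    rw [pow_succ] at this ⊢
    omega
  have h1 := Sq_X_pow x (2 ^ (a + 1) * b - 1) (2 ^ a) hle
  have h2 : (((2 ^ (a + 1) * b - 1).choose (2 ^ a) : ℕ) : MvPolynomial σ (ZMod 2)) = 1 := by
    have h3 := choose_odd a b hb
    have h4 : (((2 ^ (a + 1) * b - 1).choose (2 ^ a) : ℕ) : ZMod 2) = 1 := by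
      have h5 := (ZMod.natCast_eq_natCast_iff' ((2 ^ (a + 1) * b - 1).choose (2 ^ a)) 1 2).2
        (by rw [h3])
      simpa using h5
    have h6 := congrArg (C : ZMod 2 → MvPolynomial σ (ZMod 2)) h4
    simpa using h6
  rw [h2, one_mul, ← hm] at h1
  rw [← h1]
  apply Submodule.subset_span
  exact ⟨2 ^ a, _, hpos, rfl⟩

theorem qd_one (i : ℕ) (h : qd (Fin 1) i ≠ 0) : ∃ e, i + 1 = 2 ^ e := by
  classical
  by_contra hne
  push Not at hne
  apply h
  have h1 : homogeneousSubmodule (Fin 1) (ZMod 2) i ≤ hits (Fin 1) ⊔ ⊥ := by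
    rw [sup_bot_eq]
    intro f hf
    rw [f.as_sum]
    apply Submodule.sum_mem
    intro m hm
    have hd : m.degree = i := by
      have := IsHomogeneous.degree_eq_sum_deg_support hf hm
      simpa [Finsupp.degree] using this.symm
    have hm0 : m = Finsupp.single 0 i := by
      ext
      rw [← hd, Finsupp.degree_eq_sum]
      simp
    have h2 : monomial m (coeff m f) = coeff m f • (X 0 : MvPolynomial (Fin 1) (ZMod 2)) ^ i := by
      rw [X_pow_eq_monomial, smul_monomial, ← hm0, smul_eq_mul, mul_one]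
    rw [h2]
    exact Submodule.smul_mem _ _ (X_pow_mem_hits 0 i hne)
  have := qd_le_of_le i ⊥ h1
  rw [finrank_bot] at this
  omega

end Pool.Agent.Lib_helper74.Hit
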