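import Pool.Agent.Lib_helper74.Hit.WdLow
import Pool.Agent.Lib_helper74.Hit.OneVar
import Pool.Agent.Lib_helper74.Hit.Count

/-! The algebra of operations generated by the squares, as families of linear maps. -/

namespace Pool.Agent.Lib_helper74.Hit

open MvPolynomial

/-- Polynomials in `n` variables. -/
abbrev PP (n : ℕ) : Type := MvPolynomial (Fin n) (ZMod 2)

/-- Families of linear maps on the polynomial algebras. -/
abbrev Op : Type := ∀ n : ℕ, PP n →ₗ[ZMod 2] PP n

/-- Compose with a square. -/
noncomputable def sqOp (j : ℕ) : Op →ₗ[ZMod 2] Op where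
  toFun θ := fun n => (SqL (Fin n) j).comp (θ n)
  map_add' θ η := by
    funext n
    exact LinearMap.comp_add _ _ _
  map_smul' c θ := by
    funext n
    exact LinearMap.comp_smul _ _ _

theorem sqOp_apply (j : ℕ) (θ : Op) (n : ℕ) (f : PP n) : sqOp j θ n f = Sq j (θ n f) := rfl

/-- The identity family. -/
noncomputable def idOp : Op := fun _ => LinearMap.id

/-- Compositions of squares of positive degree with total degree `k`. -/
inductive IsAW : ℕ → Op → Prop
  | one : IsAW 0 idOp
  | step {k : ℕ} {θ : Op} (j : ℕ) (hj : 1 ≤ j) (h : IsAW k θ) : IsAW (k + j) (sqOp j θ)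

/-- Degree `k` part of the algebra of operations. -/
noncomputable def AA (k : ℕ) : Submodule (ZMod 2) Op := Submodule.span (ZMod 2) {θ | IsAW k θ}

/-- Degree `k - d` part, zero if `d > k`. -/
noncomputable def AAs (k d : ℕ) : Submodule (ZMod 2) Op := if d ≤ k then AA (k - d) else ⊥

theorem sqOp_zero (θ : Op) : sqOp 0 θ = θ := by
  funext n
  refine LinearMap.ext fun f => ?_
  exact Sq_zero _

theorem IsAW.sq {k : ℕ} {θ : Op} (h : IsAW k θ) (j : ℕ) : IsAW (k + j) (sqOp j θ) := by
  rcases j with _ | j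
  · rw [sqOp_zero]; exact h
  · exact IsAW.step (j + 1) (by omega) h

theorem sqOp_mem {k : ℕ} {θ : Op} (h : θ ∈ AA k) (j : ℕ) : sqOp j θ ∈ AA (k + j) := by
  have h1 : (AA k).map (sqOp j) ≤ AA (k + j) := by
    rw [AA, Submodule.map_span, Submodule.span_le]
    rintro _ ⟨η, hη, rfl⟩
    exact Submodule.subset_span (IsAW.sq hη j)
  exact h1 ⟨θ, h, rfl⟩

theorem idOp_mem : idOp ∈ AA 0 := Submodule.subset_span IsAW.one

/-- Evaluate a family at a polynomial. -/
noncomputable def evOp {n : ℕ} (f : PP n) : Op →ₗ[ZMod 2] PP n where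
  toFun θ := θ n f
  map_add' _ _ := rfl
  map_smul' _ _ := rfl

theorem evOp_apply {n : ℕ} (f : PP n) (θ : Op) : evOp f θ = θ n f := rfl

/-- Induction principle for linear statements. -/
theorem AA_le {k : ℕ} (W : Submodule (ZMod 2) Op) (h : ∀ θ, IsAW k θ → θ ∈ W) : AA k ≤ W := by
  rw [AA, Submodule.span_le]
  exact h

theorem orb_eq_map {n : ℕ} (f : PP n) (k : ℕ) : orb f k = (AA k).map (evOp f) := by
  apply le_antisymm
  · apply orb_le_of f (fun k => (AA k).map (evOp f))
    · exact ⟨idOp, idOp_mem, rfl⟩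
    · rintro k j _ ⟨θ, hθ, rfl⟩
      exact ⟨sqOp j θ, sqOp_mem hθ j, rfl⟩
  · rw [Submodule.map_le_iff_le_comap]
    apply AA_le
    intro θ hθ
    rw [Submodule.mem_comap]
    induction hθ with
    | one => exact mem_orb_zero f
    | step j _ _ ih => exact Sq_mem_orb ih j

theorem apply_mem_orb {k n : ℕ} {θ : Op} (h : θ ∈ AA k) (f : PP n) : θ n f ∈ orb f k := by
  rw [orb_eq_map]
  exact ⟨θ, h, rfl⟩

theorem isAW_rename {k m n : ℕ} {θ : Op} (h : IsAW k θ) (ρ : Fin m → Fin n) (f : PP m) :
    θ n (rename ρ f) = rename ρ (θ m f) := by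
  induction h with
  | one => rfl
  | step j _ _ ih =>
    rw [sqOp_apply, sqOp_apply, ih, Sq_rename]

theorem op_rename {k m n : ℕ} {θ : Op} (h : θ ∈ AA k) (ρ : Fin m → Fin n) (f : PP m) :
    θ n (rename ρ f) = rename ρ (θ m f) := by
  have h1 : AA k ≤ LinearMap.ker (evOp (rename ρ f) - (rename ρ).toLinearMap.comp (evOp f)) := by
    apply AA_le
    intro η hη
    rw [LinearMap.mem_ker, LinearMap.sub_apply, sub_eq_zero]
    exact isAW_rename hη ρ f
  have h2 := h1 h
  rw [LinearMap.mem_ker, LinearMap.sub_apply, sub_eq_zero] at h2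
  exact h2

theorem apply_mem_hits {k n : ℕ} {θ : Op} (h : θ ∈ AA k) (hk : 1 ≤ k) (f : PP n) :
    θ n f ∈ hits (Fin n) := by
  have h1 : AA k ≤ (hits (Fin n)).comap (evOp f) := by
    apply AA_le
    intro θ hθ
    rw [Submodule.mem_comap]
    cases hθ with
    | one => omega
    | step j hj _ => exact Submodule.subset_span ⟨j, _, hj, rfl⟩
  exact h1 h

theorem op_zero_of_U {k : ℕ} {θ : Op} (h : θ ∈ AA k) (hU : ∀ n, θ n (U n) = 0) : θ = 0 := by
  classical
  funext n
  refine LinearMap.ext fun f => ?_
  rw [Pi.zero_apply, LinearMap.zero_apply]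
  rw [f.as_sum, map_sum]
  apply Finset.sum_eq_zero
  intro m _
  obtain ⟨ρ, hρ⟩ := exists_fun_of_degree m m.degree rfl
  have h1 : monomial m (coeff m f) = coeff m f • rename ρ (U m.degree) := by
    rw [U, map_prod]
    simp only [rename_X]
    rw [hρ, smul_monomial, smul_eq_mul, mul_one]
  rw [h1, map_smul, op_rename h, hU, map_zero, smul_zero]

/-- Inclusion omitting the variable `0`. -/
noncomputable def up (n : ℕ) : PP n →ₐ[ZMod 2] PP (n + 1) := rename Fin.succ

/-- Coefficient of the power `m` of the variable `0`. -/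
noncomputable def cf {n : ℕ} (m : ℕ) : PP (n + 1) →ₗ[ZMod 2] PP n :=
  ((Polynomial.lcoeff (PP n) m).restrictScalars (ZMod 2)).comp
    (finSuccEquiv (ZMod 2) n).toLinearMap

theorem cf_apply {n : ℕ} (m : ℕ) (F : PP (n + 1)) :
    cf m F = (finSuccEquiv (ZMod 2) n F).coeff m := rfl

theorem fse_up {n : ℕ} (f : PP n) : finSuccEquiv (ZMod 2) n (up n f) = Polynomial.C f := by
  have h : ((finSuccEquiv (ZMod 2) n).toAlgHom.comp (up n)) =
      (Polynomial.CAlgHom (R := ZMod 2) (A := PP n)) := by
    apply MvPolynomial.algHom_ext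
    intro i
    simp [up, finSuccEquiv_X_succ]
  have := congrArg (fun F => F f) h
  simpa using this

theorem cf_up {n : ℕ} (f : PP n) (a m : ℕ) : cf m (up n f * X 0 ^ a) = if m = a then f else 0 := by
  rw [cf_apply, map_mul, fse_up, map_pow, finSuccEquiv_X_zero, Polynomial.coeff_C_mul,
    Polynomial.coeff_X_pow]
  split_ifs <;> simp

theorem sum_cf {n : ℕ} (F : PP (n + 1)) : ∃ N, F = ∑ m ∈ Finset.range N,
    up n (cf m F) * X 0 ^ m := by
  refine ⟨(finSuccEquiv (ZMod 2) n F).natDegree + 1, ?_⟩
  apply (finSuccEquiv (ZMod 2) n).injective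
  rw [map_sum]
  conv_lhs => rw [Polynomial.as_sum_range_C_mul_X_pow (finSuccEquiv (ZMod 2) n F)]
  apply Finset.sum_congr rfl
  intro m _
  rw [map_mul, fse_up, map_pow, finSuccEquiv_X_zero, cf_apply]

theorem Sq_X_pow_gt {σ : Type} (i : σ) (m k : ℕ) (hk : m < k) :
    Sq k (X i ^ m : MvPolynomial σ (ZMod 2)) = 0 := by
  have h : Hm m (totalSq σ (X i ^ m)) := by
    rw [map_pow]
    simpa using (Hm_X i).pow m
  rw [Sq, map_pow, totalSq_X]
  apply Polynomial.coeff_eq_zero_of_natDegree_lt
  refine lt_of_le_of_lt ?_ hk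
  refine Polynomial.natDegree_pow_le.trans ?_
  have h1 : (Polynomial.C (X i : MvPolynomial σ (ZMod 2)) +
      Polynomial.C (X i ^ 2) * Polynomial.X).natDegree ≤ 1 := by
    refine (Polynomial.natDegree_add_le _ _).trans ?_
    rw [Polynomial.natDegree_C]
    have h2 := Polynomial.natDegree_C_mul_le (X i ^ 2 : MvPolynomial σ (ZMod 2))
      (Polynomial.X : Polynomial (MvPolynomial σ (ZMod 2)))
    have h3 := Polynomial.natDegree_X_le (R := MvPolynomial σ (ZMod 2))
    omega
  calc m * _ ≤ m * 1 := Nat.mul_le_mul_left _ h1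
    _ = m := mul_one m

theorem Sq_X_pow' {σ : Type} (i : σ) (m k : ℕ) :
    Sq k (X i ^ m : MvPolynomial σ (ZMod 2)) = (m.choose k : ZMod 2) • X i ^ (m + k) := by
  by_cases hk : k ≤ m
  · rw [Sq_X_pow i m k hk, Nat.cast_smul_eq_nsmul, nsmul_eq_mul]
  · rw [Sq_X_pow_gt i m k (by omega), Nat.choose_eq_zero_of_lt (by omega)]
    simp

theorem cf_Sq {n : ℕ} (j m : ℕ) (F : PP (n + 1)) : cf m (Sq j F) =
    ∑ b ∈ Finset.range (m + 1), if m - b ≤ j then
      (b.choose (m - b) : ZMod 2) • Sq (j - (m - b)) (cf b F) else 0 := by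
  classical
  obtain ⟨N, hN⟩ := sum_cf F
  have h1 : ∀ (a : ℕ) (f : PP n), cf m (Sq j (up n f * X 0 ^ a)) =
      if a ≤ m ∧ m - a ≤ j then (a.choose (m - a) : ZMod 2) • Sq (j - (m - a)) f else 0 := by
    intro a f
    rw [Sq_mul, map_sum]
    have h2 : ∀ p ∈ Finset.HasAntidiagonal.antidiagonal j,
        cf m (Sq p.1 (up n f) * Sq p.2 (X 0 ^ a)) =
        if m = a + p.2 then (a.choose p.2 : ZMod 2) • Sq p.1 f else 0 := by
      intro p _
      rw [up, Sq_rename, Sq_X_pow', mul_smul_comm, map_smul]
      have := cf_up (Sq p.1 f) (a + p.2) m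
      rw [up] at this
      rw [this]
      split_ifs <;> simp
    rw [Finset.sum_congr rfl h2]
    split_ifs with h
    · rw [Finset.sum_eq_single (j - (m - a), m - a)]
      · rw [if_pos (by omega)]
      · rintro ⟨p, q⟩ hp hne
        rw [Finset.HasAntidiagonal.mem_antidiagonal] at hp
        rw [if_neg]
        intro h3
        apply hne
        simp only at hp h3 ⊢
        rw [Prod.mk.injEq]
        omega
      · intro h3
        exfalso
        apply h3
        rw [Finset.HasAntidiagonal.mem_antidiagonal]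
        simp only
        omega
    · apply Finset.sum_eq_zero
      rintro ⟨p, q⟩ hp
      rw [Finset.HasAntidiagonal.mem_antidiagonal] at hp
      simp only at hp ⊢
      rw [if_neg]
      intro h3
      apply h
      omega
  have hcfN : ∀ b, N ≤ b → cf b F = 0 := by
    intro b hb
    rw [hN, map_sum]
    apply Finset.sum_eq_zero
    intro m hm
    rw [Finset.mem_range] at hm
    rw [cf_up, if_neg (by omega)]
  calc cf m (Sq j F) = ∑ b ∈ Finset.range N, cf m (Sq j (up n (cf b F) * X 0 ^ b)) := by
        conv_lhs => rw [hN]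
        rw [Sq_sum, map_sum]
    _ = ∑ b ∈ Finset.range N, (if b ≤ m ∧ m - b ≤ j then
          (b.choose (m - b) : ZMod 2) • Sq (j - (m - b)) (cf b F) else 0) :=
        Finset.sum_congr rfl fun b _ => h1 b _
    _ = ∑ b ∈ Finset.range (N + (m + 1)), (if b ≤ m ∧ m - b ≤ j then
          (b.choose (m - b) : ZMod 2) • Sq (j - (m - b)) (cf b F) else 0) := by
        apply Finset.sum_subset
        · intro b hb
          rw [Finset.mem_range] at hb ⊢
          omega
        · intro b _ hb
          rw [Finset.mem_range, not_lt] at hb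
          rw [hcfN b hb, Sq_zero_right, smul_zero]
          split_ifs <;> rfl
    _ = ∑ b ∈ Finset.range (m + 1), (if b ≤ m ∧ m - b ≤ j then
          (b.choose (m - b) : ZMod 2) • Sq (j - (m - b)) (cf b F) else 0) := by
        symm
        apply Finset.sum_subset
        · intro b hb
          rw [Finset.mem_range] at hb ⊢
          omega
        · intro b _ hb
          rw [Finset.mem_range, not_lt] at hb
          rw [if_neg (by omega)]
    _ = _ := by
        apply Finset.sum_congr rfl
        intro b hb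
        rw [Finset.mem_range] at hb
        by_cases h : m - b ≤ j
        · rw [if_pos ⟨by omega, h⟩, if_pos h]
        · rw [if_neg (fun h' => h h'.2), if_neg h]

/-- Contraction: the coefficient of the power `b` in the value at `f` times the power `a`. -/
noncomputable def con (a b : ℕ) : Op →ₗ[ZMod 2] Op where
  toFun θ := fun n => (cf b).comp ((θ (n + 1)).comp
    ((LinearMap.mulRight (ZMod 2) (X 0 ^ a)).comp (up n).toLinearMap))
  map_add' θ η := by
    funext n
    refine LinearMap.ext fun f => ?_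
    simp
  map_smul' c θ := by
    funext n
    refine LinearMap.ext fun f => ?_
    simp

theorem con_apply (a b : ℕ) (θ : Op) (n : ℕ) (f : PP n) :
    con a b θ n f = cf b (θ (n + 1) (up n f * X 0 ^ a)) := rfl

theorem idOp_apply (n : ℕ) (f : PP n) : idOp n f = f := rfl

theorem con_id (a b : ℕ) : con a b idOp = if b = a then idOp else 0 := by
  funext n
  refine LinearMap.ext fun f => ?_
  rw [con_apply, idOp_apply, cf_up]
  by_cases h : b = a
  · rw [if_pos h, if_pos h, idOp_apply]
  · rw [if_neg h, if_neg h, Pi.zero_apply, LinearMap.zero_apply]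

theorem con_sq (a b j : ℕ) (θ : Op) : con a b (sqOp j θ) =
    ∑ m ∈ Finset.range (b + 1), if b - m ≤ j then
      (m.choose (b - m) : ZMod 2) • sqOp (j - (b - m)) (con a m θ) else 0 := by
  funext n
  refine LinearMap.ext fun f => ?_
  rw [con_apply, sqOp_apply, cf_Sq, Finset.sum_apply, LinearMap.sum_apply]
  apply Finset.sum_congr rfl
  intro m _
  by_cases h : b - m ≤ j
  · rw [if_pos h, if_pos h]
    rfl
  · rw [if_neg h, if_neg h]
    rfl

theorem con_key {k : ℕ} {θ : Op} (h : IsAW k θ) (a : ℕ) : ∀ b,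
    (b < a → con a b θ = 0) ∧ (b = a → con a b θ = θ) ∧
      (a ≤ b → con a b θ ∈ AAs k (b - a)) := by
  induction h with
  | one =>
    intro b
    refine ⟨?_, ?_, ?_⟩
    · intro hb
      rw [con_id, if_neg (by omega)]
    · intro hb
      rw [con_id, if_pos hb]
    · intro hb
      rw [con_id]
      split_ifs with h
      · rw [AAs, if_pos (by omega)]
        have : 0 - (b - a) = 0 := by omega
        rw [this]
        exact idOp_mem
      · exact Submodule.zero_mem _
  | @step k η j hj _ ih =>
    intro b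
    refine ⟨?_, ?_, ?_⟩
    · intro hb
      rw [con_sq]
      apply Finset.sum_eq_zero
      intro m hm
      rw [Finset.mem_range] at hm
      rw [(ih m).1 (by omega), map_zero, smul_zero]
      split_ifs <;> rfl
    · intro hb
      subst hb
      rw [con_sq, Finset.sum_eq_single b]
      · rw [if_pos (by omega), Nat.sub_self, Nat.choose_zero_right, Nat.cast_one, one_smul,
          Nat.sub_zero, (ih b).2.1 rfl]
      · intro m hm hne
        rw [Finset.mem_range] at hm
        rw [(ih m).1 (by omega), map_zero, smul_zero]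
        split_ifs <;> rfl
      · intro h
        rw [Finset.mem_range] at h
        omega
    · intro hb
      rw [con_sq]
      apply Submodule.sum_mem
      intro m hm
      rw [Finset.mem_range] at hm
      split_ifs with h
      · apply Submodule.smul_mem
        by_cases hm2 : m < a
        · rw [(ih m).1 hm2, map_zero]
          exact Submodule.zero_mem _
        · have h1 := (ih m).2.2 (by omega)
          rw [AAs] at h1
          split_ifs at h1 with h2
          · have h3 := sqOp_mem h1 (j - (b - m))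
            rw [AAs, if_pos (by omega)]
            have h4 : k - (m - a) + (j - (b - m)) = k + j - (b - a) := by omega
            rwa [h4] at h3
          · rw [Submodule.mem_bot] at h1
            rw [h1, map_zero]
            exact Submodule.zero_mem _
      · exact Submodule.zero_mem _

theorem con_lt {k : ℕ} {θ : Op} (h : θ ∈ AA k) {a b : ℕ} (hb : b < a) : con a b θ = 0 := by
  have h1 : AA k ≤ LinearMap.ker (con a b) :=
    AA_le _ fun θ hθ => LinearMap.mem_ker.2 ((con_key hθ a b).1 hb)
  exact LinearMap.mem_ker.1 (h1 h)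

theorem con_self {k : ℕ} {θ : Op} (h : θ ∈ AA k) (a : ℕ) : con a a θ = θ := by
  have h1 : AA k ≤ LinearMap.ker (con a a - LinearMap.id) :=
    AA_le _ fun θ hθ => by
      rw [LinearMap.mem_ker, LinearMap.sub_apply, LinearMap.id_apply, (con_key hθ a a).2.1 rfl,
        sub_self]
  have h2 := LinearMap.mem_ker.1 (h1 h)
  rw [LinearMap.sub_apply, LinearMap.id_apply, sub_eq_zero] at h2
  exact h2

theorem con_mem {k : ℕ} {θ : Op} (h : θ ∈ AA k) {a b : ℕ} (hb : a ≤ b) :
    con a b θ ∈ AAs k (b - a) := by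
  have h1 : AA k ≤ (AAs k (b - a)).comap (con a b) :=
    AA_le _ fun θ hθ => (con_key hθ a b).2.2 hb
  exact h1 h

theorem U_succ (n : ℕ) : U (n + 1) = up n (U n) * X 0 ^ 1 := by
  rw [U, U, Fin.prod_univ_succ, up, map_prod, pow_one, mul_comm]
  congr 1
  apply Finset.prod_congr rfl
  intro i _
  rw [rename_X]

theorem cf_one_U {k : ℕ} {θ : Op} (h : θ ∈ AA k) (n : ℕ) :
    cf 1 (θ (n + 1) (U (n + 1))) = θ n (U n) := by
  rw [U_succ, ← con_apply, con_self h]

theorem coeff_ex_succ {n : ℕ} (e : Fin (n + 1) → ℕ) (F : PP (n + 1)) :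
    coeff (ex e) F = coeff (ex (fun i => e i.succ)) (cf (2 ^ e 0) F) := by
  rw [cf_apply, finSuccEquiv_coeff_coeff]
  congr 1
  ext i
  refine Fin.cases ?_ (fun i => ?_) i
  · rw [Finsupp.cons_zero, ex_apply]
  · rw [Finsupp.cons_succ, ex_apply, ex_apply]

/-- A positive degree operation whose contractions all vanish is zero. -/
theorem op_zero_of_con {k : ℕ} {θ : Op} (h : θ ∈ AA k) (hk : 1 ≤ k)
    (hc : ∀ b, 2 ≤ b → con 1 b θ = 0) : θ = 0 := by
  classical
  apply op_zero_of_U h
  intro n
  have ho := apply_mem_orb h (U n)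
  apply WS_eq_zero (orb_U_le_WS n k ho)
  intro e he
  have hex : ∃ i, e i ≠ 0 := by
    by_contra hne
    push Not at hne
    have : wt e = 0 := by
      rw [wt]
      apply Finset.sum_eq_zero
      intro i _
      rw [hne i]
      rfl
    omega
  obtain ⟨i, hi⟩ := hex
  rcases n with _ | n
  · exact Fin.elim0 i
  · rw [← coeff_comp_perm ho e (Equiv.swap 0 i), coeff_ex_succ, U_succ, ← con_apply, hc]
    · rw [Pi.zero_apply, LinearMap.zero_apply, coeff_zero]
    · have h1 : (e ∘ Equiv.swap 0 i) 0 = e i := by simp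
      rw [h1]
      calc 2 = 2 ^ 1 := by norm_num
        _ ≤ 2 ^ e i := Nat.pow_le_pow_right (by norm_num) (by omega)

theorem op_zero_of_U_ge {k : ℕ} {θ : Op} (h : θ ∈ AA k) (n : ℕ) (hn : k ≤ n)
    (hU : θ n (U n) = 0) : θ = 0 := by
  classical
  apply op_zero_of_U h
  have hdown : ∀ m, m ≤ n → θ (n - m) (U (n - m)) = 0 := by
    intro m
    induction m with
    | zero => intro _; exact hU
    | succ m ih =>
      intro hm
      have h1 := ih (by omega)
      have h2 : n - m = (n - (m + 1)) + 1 := by omega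
      rw [h2] at h1
      rw [← cf_one_U h, h1, map_zero]
  have hstep : ∀ N, k ≤ N → θ N (U N) = 0 → θ (N + 1) (U (N + 1)) = 0 := by
    intro N hN ih
    have ho := apply_mem_orb h (U (N + 1))
    apply WS_eq_zero (orb_U_le_WS _ k ho)
    intro e he
    have hex : ∃ i, e i = 0 := by
      by_contra hne
      push Not at hne
      have h1 : ∑ _i : Fin (N + 1), 1 ≤ wt e := by
        rw [wt]
        apply Finset.sum_le_sum
        intro i _
        have : 2 ^ 1 ≤ 2 ^ e i := Nat.pow_le_pow_right (by norm_num)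
          (Nat.one_le_iff_ne_zero.2 (hne i))
        omega
      rw [Finset.sum_const, Finset.card_univ, Fintype.card_fin, smul_eq_mul, mul_one] at h1
      omega
    obtain ⟨i, hi⟩ := hex
    rw [← coeff_comp_perm ho e (Equiv.swap 0 i), coeff_ex_succ]
    have h1 : (e ∘ Equiv.swap 0 i) 0 = 0 := by simp [hi]
    rw [h1, pow_zero, cf_one_U h, ih, coeff_zero]
  have hup : ∀ m, θ (n + m) (U (n + m)) = 0 := by
    intro m
    induction m with
    | zero => exact hU
    | succ m ih => exact hstep (n + m) (by omega) ih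
  intro m
  by_cases hm : m ≤ n
  · have := hdown (n - m) (by omega)
    have h1 : n - (n - m) = m := by omega
    rwa [h1] at this
  · have := hup (m - n)
    have h1 : n + (m - n) = m := by omega
    rwa [h1] at this

/-- Evaluation at the product of `k` variables. -/
noncomputable def evU (k : ℕ) : AA k →ₗ[ZMod 2] orb (U k) k :=
  LinearMap.codRestrict _ ((evOp (U k)).comp (AA k).subtype) (fun θ => apply_mem_orb θ.2 (U k))

theorem evU_injective (k : ℕ) : Function.Injective (evU k) := by
  rw [← LinearMap.ker_eq_bot, LinearMap.ker_eq_bot']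
  intro θ hθ
  apply Subtype.ext
  exact op_zero_of_U_ge θ.2 k le_rfl (congrArg Subtype.val hθ)

theorem evU_surjective (k : ℕ) : Function.Surjective (evU k) := by
  rintro ⟨f, hf⟩
  have hf' := hf
  rw [orb_eq_map] at hf'
  obtain ⟨θ, hθ, rfl⟩ := hf'
  exact ⟨⟨θ, hθ⟩, rfl⟩

instance AA_fd (k : ℕ) : FiniteDimensional (ZMod 2) (AA k) := by
  have : FiniteDimensional (ZMod 2) (orb (U k) k) := fd_of_le (orb_homog (U_homog k) k)
  exact Module.Finite.of_injective (evU k) (evU_injective k)

theorem finrank_AA (k : ℕ) : Module.finrank (ZMod 2) (AA k) = pcount k := by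
  have h1 : Module.finrank (ZMod 2) (AA k) = Module.finrank (ZMod 2) (orb (U k) k) :=
    LinearEquiv.finrank_eq (LinearEquiv.ofBijective (evU k) ⟨evU_injective k, evU_surjective k⟩)
  have := (count k k).1
  rw [h1, ← (count k k).2.2 le_rfl]
  exact le_antisymm (finrank_orb_U_le k k) (finrank_orb_U_ge k k)

end Pool.Agent.Lib_helper74.Hit
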