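import Pool.Agent.Lib_helper74.Hit.Defs

/-! Auxiliary definitions for the proof. -/

namespace Pool.Agent.Lib_helper74.Hit

/-- The number `C(n+d-1, n)` of monomials of degree `n` in `d` variables. -/
def pdim (d n : ℕ) : ℕ := (n + d - 1).choose n

/-- `φ(x) = ∏_{i ≥ 1} (1 - x ^ (2 ^ i - 1))`. -/
noncomputable def phi (x : ℝ) : ℝ := ∏' i : ℕ, (1 - x ^ (2 ^ (i + 1) - 1))

/-- The number of partitions of `k` into parts of the form `2 ^ i - 1`, `i ≥ 1`. -/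
noncomputable def pcount (k : ℕ) : ℕ :=
  Nat.card {r : Fin (k + 1) → ℕ // ∑ i, r i * (2 ^ ((i : ℕ) + 1) - 1) = k}

/-- The weakly increasing words `e` of length `n` with `∑ (2 ^ (e i) - 1) = k`. -/
def Words (n k : ℕ) : Type :=
  {e : Fin n → ℕ // Monotone e ∧ ∑ i, (2 ^ (e i) - 1) = k}

/-- Module GEN. -/
def GenStmt : Prop :=
  ∀ x : ℝ, 0 ≤ x → x < 1 → 0 < phi x ∧ HasSum (fun k => (pcount k : ℝ) * x ^ k) (phi x)⁻¹

/-- Module COUNT. -/
def CountStmt : Prop :=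
  ∀ n k : ℕ, Finite (Words n k) ∧ Nat.card (Words n k) ≤ pcount k ∧
    (k ≤ n → Nat.card (Words n k) = pcount k)

end Pool.Agent.Lib_helper74.Hit
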