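import Pool.Agent.Lib_helper74.Hit.Basic
import Pool.Agent.Lib_helper74.Hit.Defs2

/-! Dimension bookkeeping for the hit problem. -/

namespace Pool.Agent.Lib_helper74.Hit

open MvPolynomial

variable {σ τ : Type}

instance homog_fd [Finite σ] (n : ℕ) :
    FiniteDimensional (ZMod 2) (homogeneousSubmodule σ (ZMod 2) n) :=
  Module.Finite.iff_fg.2 (homogeneousSubmodule_fg σ (ZMod 2) n)

theorem fd_of_le {A : Type*} [AddCommGroup A] [Module (ZMod 2) A]
    {V W : Submodule (ZMod 2) A} [FiniteDimensional (ZMod 2) W] (h : V ≤ W) :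
    FiniteDimensional (ZMod 2) V :=
  Submodule.finiteDimensional_of_le h

theorem finrank_homog [Fintype σ] (n : ℕ) :
    Module.finrank (ZMod 2) (homogeneousSubmodule σ (ZMod 2) n) = pdim (Fintype.card σ) n := by
  classical
  have h1 : homogeneousSubmodule σ (ZMod 2) n =
      restrictSupport (ZMod 2) {d : σ →₀ ℕ | d.degree = n} :=
    homogeneousSubmodule_eq_finsupp_supported σ (ZMod 2) n
  rw [h1, Module.finrank_eq_nat_card_basis (basisRestrictSupport (ZMod 2) _)]
  have h2 : ({d : σ →₀ ℕ | d.degree = n}) =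
      ((Finset.univ : Finset σ).finsuppAntidiag n : Set (σ →₀ ℕ)) := by
    ext d
    simp [Finset.mem_finsuppAntidiag, Finsupp.degree_eq_sum]
  rw [h2, Nat.card_eq_fintype_card]
  simp only [Finset.coe_sort_coe, Fintype.card_coe]
  rw [Finset.card_finsuppAntidiag_nat_eq_choose, pdim, Finset.card_univ, add_comm]

theorem finrank_mul_le {A : Type*} [CommRing A] [Algebra (ZMod 2) A]
    (V W : Submodule (ZMod 2) A) [FiniteDimensional (ZMod 2) V] [FiniteDimensional (ZMod 2) W] :
    Module.finrank (ZMod 2) (V * W : Submodule (ZMod 2) A) ≤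
      Module.finrank (ZMod 2) V * Module.finrank (ZMod 2) W := by
  rw [← Submodule.mulMap_range, ← Module.finrank_tensorProduct]
  exact LinearMap.finrank_range_le _

theorem fd_mul {A : Type*} [CommRing A] [Algebra (ZMod 2) A]
    (V W : Submodule (ZMod 2) A) [FiniteDimensional (ZMod 2) V] [FiniteDimensional (ZMod 2) W] :
    FiniteDimensional (ZMod 2) (V * W : Submodule (ZMod 2) A) := by
  rw [← Submodule.mulMap_range]
  infer_instance

theorem finrank_finset_sup_le {A ι : Type*} [AddCommGroup A] [Module (ZMod 2) A]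
    (s : Finset ι) (V : ι → Submodule (ZMod 2) A) (hV : ∀ i ∈ s, FiniteDimensional (ZMod 2) (V i)) :
    FiniteDimensional (ZMod 2) (s.sup V : Submodule (ZMod 2) A) ∧
    Module.finrank (ZMod 2) (s.sup V : Submodule (ZMod 2) A) ≤
      ∑ i ∈ s, Module.finrank (ZMod 2) (V i) := by
  classical
  induction s using Finset.induction_on with
  | empty =>
    constructor
    · rw [Finset.sup_empty]; infer_instance
    · rw [Finset.sup_empty]; simp
  | insert a s ha ih =>
    obtain ⟨h1, h2⟩ := ih fun i hi => hV i (by simp [hi])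
    have h3 := hV a (by simp)
    rw [Finset.sup_insert, Finset.sum_insert ha]
    constructor
    · infer_instance
    · exact (Submodule.finrank_add_le_finrank_add_finrank _ _).trans (by gcongr)

theorem exists_compl {A : Type*} [AddCommGroup A] [Module (ZMod 2) A]
    (O H : Submodule (ZMod 2) A) [FiniteDimensional (ZMod 2) H] (h : O ≤ H) :
    ∃ E : Submodule (ZMod 2) A, E ≤ H ∧ E ⊔ O = H ∧
      Module.finrank (ZMod 2) E + Module.finrank (ZMod 2) O = Module.finrank (ZMod 2) H := by
  obtain ⟨E, hE⟩ := Submodule.exists_isCompl (O.comap H.subtype)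
  refine ⟨E.map H.subtype, Submodule.map_subtype_le _ _, ?_, ?_⟩
  · have h1 : O = (O.comap H.subtype).map H.subtype := by
      rw [Submodule.map_comap_subtype, inf_eq_right.2 h]
    rw [h1, ← Submodule.map_sup, sup_comm, hE.sup_eq_top, Submodule.map_top,
      Submodule.range_subtype]
  · have h1 : Module.finrank (ZMod 2) (E.map H.subtype) = Module.finrank (ZMod 2) E :=
      Submodule.finrank_map_subtype_eq H E
    have h2 : Module.finrank (ZMod 2) O = Module.finrank (ZMod 2) (O.comap H.subtype) :=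
      (Submodule.comapSubtypeEquivOfLe h).finrank_eq.symm
    rw [h1, h2, add_comm]
    exact Submodule.finrank_add_eq_of_isCompl hE

theorem qd_add [Finite σ] (n : ℕ) : qd σ n + Module.finrank (ZMod 2) (hitsDeg σ n) =
    Module.finrank (ZMod 2) (homogeneousSubmodule σ (ZMod 2) n) := by
  have h := LinearMap.finrank_range_add_finrank_ker
    ((hits σ).mkQ.domRestrict (homogeneousSubmodule σ (ZMod 2) n))
  rw [← h]
  congr 1
  · rw [qd, LinearMap.range_domRestrict]
  · have h1 : LinearMap.ker ((hits σ).mkQ.domRestrict (homogeneousSubmodule σ (ZMod 2) n)) =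
        (hitsDeg σ n).comap (homogeneousSubmodule σ (ZMod 2) n).subtype := by
      ext x
      simp only [LinearMap.mem_ker, LinearMap.domRestrict_apply, Submodule.mkQ_apply,
        Submodule.Quotient.mk_eq_zero, Submodule.mem_comap, Submodule.subtype_apply]
      exact ⟨fun hx => mem_hitsDeg hx x.2, fun hx => hitsDeg_le_hits n hx⟩
    rw [h1]
    exact (Submodule.comapSubtypeEquivOfLe (hitsDeg_homog n)).finrank_eq.symm

theorem qd_le_pdim [Fintype σ] (n : ℕ) : qd σ n ≤ pdim (Fintype.card σ) n := by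
  rw [← finrank_homog, ← qd_add]
  exact Nat.le_add_right _ _

theorem exists_lift [Finite σ] (n : ℕ) : ∃ L : Submodule (ZMod 2) (MvPolynomial σ (ZMod 2)),
    L ≤ homogeneousSubmodule σ (ZMod 2) n ∧
    L ⊔ hitsDeg σ n = homogeneousSubmodule σ (ZMod 2) n ∧
    Module.finrank (ZMod 2) L = qd σ n := by
  obtain ⟨E, h1, h2, h3⟩ := exists_compl (hitsDeg σ n) (homogeneousSubmodule σ (ZMod 2) n)
    (hitsDeg_homog n)
  refine ⟨E, h1, h2, ?_⟩
  have := qd_add (σ := σ) n
  omega

theorem qd_le_of_le (n : ℕ) (V : Submodule (ZMod 2) (MvPolynomial σ (ZMod 2)))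
    [FiniteDimensional (ZMod 2) V] (h : homogeneousSubmodule σ (ZMod 2) n ≤ hits σ ⊔ V) :
    qd σ n ≤ Module.finrank (ZMod 2) V := by
  have h1 : (homogeneousSubmodule σ (ZMod 2) n).map (hits σ).mkQ ≤ V.map (hits σ).mkQ := by
    refine (Submodule.map_mono h).trans ?_
    rw [Submodule.map_sup]
    simp
  exact (Submodule.finrank_mono h1).trans (Submodule.finrank_map_le _ _)

theorem map_rename_homog (θ : σ → τ) (n : ℕ) :
    (homogeneousSubmodule σ (ZMod 2) n).map (rename θ).toLinearMap ≤
      homogeneousSubmodule τ (ZMod 2) n := by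
  rintro _ ⟨f, hf, rfl⟩
  exact IsHomogeneous.rename_isHomogeneous hf

theorem map_rename_hitsDeg (θ : σ → τ) (n : ℕ) :
    (hitsDeg σ n).map (rename θ).toLinearMap ≤ hitsDeg τ n := by
  rw [hitsDeg, Submodule.map_span, Submodule.span_le]
  rintro _ ⟨_, ⟨k, f, hk, hkn, hf, rfl⟩, rfl⟩
  apply Submodule.subset_span
  refine ⟨k, rename θ f, hk, hkn, IsHomogeneous.rename_isHomogeneous hf, ?_⟩
  rw [Sq_rename]
  rfl

theorem finrank_hitsDeg_le [Finite τ] (e : σ ≃ τ) (n : ℕ) :
    Module.finrank (ZMod 2) (hitsDeg σ n) ≤ Module.finrank (ZMod 2) (hitsDeg τ n) := by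
  have : FiniteDimensional (ZMod 2) (hitsDeg τ n) := fd_of_le (hitsDeg_homog n)
  rw [LinearEquiv.finrank_eq (Submodule.equivMapOfInjective
    (rename e).toLinearMap (rename_injective e e.injective) (hitsDeg σ n))]
  exact Submodule.finrank_mono (map_rename_hitsDeg e n)

theorem qd_congr [Fintype σ] [Fintype τ] (e : σ ≃ τ) (n : ℕ) : qd σ n = qd τ n := by
  have h1 := qd_add (σ := σ) n
  have h2 := qd_add (σ := τ) n
  rw [finrank_homog] at h1 h2
  rw [Fintype.card_congr e] at h1
  have h3 := finrank_hitsDeg_le e n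
  have h4 := finrank_hitsDeg_le e.symm n
  omega

end Pool.Agent.Lib_helper74.Hit
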