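import Pool.Agent.Lib_helper74.Hit.Defs

/-! Basic facts on the Steenrod squares on polynomial algebras. -/

namespace Pool.Agent.Lib_helper74.Hit

open MvPolynomial

variable {σ τ : Type}

theorem totalSq_X (i : σ) : totalSq σ (X i) =
    Polynomial.C (X i) + Polynomial.C (X i ^ 2) * Polynomial.X := by
  simp [totalSq]

/-- The square as a linear map. -/
noncomputable def SqL (σ : Type) (k : ℕ) :
    MvPolynomial σ (ZMod 2) →ₗ[ZMod 2] MvPolynomial σ (ZMod 2) where
  toFun := Sq k
  map_add' f g := by simp [Sq]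
  map_smul' c f := by simp [Sq]

@[simp] theorem SqL_apply (k : ℕ) (f : MvPolynomial σ (ZMod 2)) : SqL σ k f = Sq k f := rfl

theorem Sq_add (k : ℕ) (f g : MvPolynomial σ (ZMod 2)) : Sq k (f + g) = Sq k f + Sq k g :=
  (SqL σ k).map_add f g

theorem Sq_zero_right (k : ℕ) : Sq k (0 : MvPolynomial σ (ZMod 2)) = 0 :=
  (SqL σ k).map_zero

theorem Sq_smul (k : ℕ) (c : ZMod 2) (f : MvPolynomial σ (ZMod 2)) :
    Sq k (c • f) = c • Sq k f :=
  (SqL σ k).map_smul c f

theorem Sq_sum {ι : Type*} (k : ℕ) (s : Finset ι) (f : ι → MvPolynomial σ (ZMod 2)) :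
    Sq k (∑ i ∈ s, f i) = ∑ i ∈ s, Sq k (f i) :=
  map_sum (SqL σ k) f s

theorem Sq_mul (k : ℕ) (f g : MvPolynomial σ (ZMod 2)) :
    Sq k (f * g) = ∑ p ∈ Finset.HasAntidiagonal.antidiagonal k, Sq p.1 f * Sq p.2 g := by
  simp [Sq, Polynomial.coeff_mul]

theorem Sq_zero (f : MvPolynomial σ (ZMod 2)) : Sq 0 f = f := by
  have h : (Polynomial.constantCoeff.comp (totalSq σ).toRingHom) =
      RingHom.id (MvPolynomial σ (ZMod 2)) := by
    apply MvPolynomial.ringHom_ext
    · intro r
      simp [totalSq]
    · intro i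
      simp [totalSq]
  have := congrArg (fun F => F f) h
  simpa [Sq] using this

/-- Degree predicate for polynomials in `T`. -/
def Hm (n : ℕ) (F : Polynomial (MvPolynomial σ (ZMod 2))) : Prop :=
  ∀ k, (F.coeff k).IsHomogeneous (n + k)

theorem Hm.mul {m n : ℕ} {F G : Polynomial (MvPolynomial σ (ZMod 2))} (hF : Hm m F)
    (hG : Hm n G) : Hm (m + n) (F * G) := by
  intro k
  rw [Polynomial.coeff_mul]
  apply IsHomogeneous.sum
  intro p hp
  rw [Finset.HasAntidiagonal.mem_antidiagonal] at hp
  have := (hF p.1).mul (hG p.2)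
  convert this using 1
  omega

theorem Hm.one : Hm 0 (1 : Polynomial (MvPolynomial σ (ZMod 2))) := by
  intro k
  rw [Polynomial.coeff_one]
  split_ifs with h
  · subst h
    simpa using isHomogeneous_one σ (ZMod 2)
  · exact isHomogeneous_zero _ _ _

theorem Hm.pow {m : ℕ} {F : Polynomial (MvPolynomial σ (ZMod 2))} (hF : Hm m F) (e : ℕ) :
    Hm (m * e) (F ^ e) := by
  induction e with
  | zero => simpa using Hm.one
  | succ e ih =>
    rw [pow_succ, Nat.mul_succ]
    exact ih.mul hF

theorem Hm.prod {ι : Type*} (s : Finset ι) (m : ι → ℕ)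
    (F : ι → Polynomial (MvPolynomial σ (ZMod 2))) (h : ∀ i ∈ s, Hm (m i) (F i)) :
    Hm (∑ i ∈ s, m i) (∏ i ∈ s, F i) := by
  classical
  induction s using Finset.induction_on with
  | empty => simpa using Hm.one
  | insert a s ha ih =>
    rw [Finset.sum_insert ha, Finset.prod_insert ha]
    exact (h a (by simp)).mul (ih fun i hi => h i (by simp [hi]))

theorem Hm_X (i : σ) : Hm 1 (totalSq σ (X i)) := by
  rw [totalSq_X]
  intro k
  rcases k with _ | _ | k
  · simpa using isHomogeneous_X (ZMod 2) i
  · simp only [zero_add, Polynomial.coeff_add, Polynomial.coeff_C_mul, Polynomial.coeff_X_one,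
      mul_one]
    have : (Polynomial.C (X i : MvPolynomial σ (ZMod 2))).coeff 1 = 0 := by
      simp
    rw [this, zero_add]
    simpa using (isHomogeneous_X (ZMod 2) i).pow 2
  · have : ((Polynomial.C (X i : MvPolynomial σ (ZMod 2)) +
      Polynomial.C (X i ^ 2) * Polynomial.X).coeff (k + 1 + 1)) = 0 := by
      rw [Polynomial.coeff_add, Polynomial.coeff_C_mul_X, Polynomial.coeff_C_succ]
      simp
    rw [this]
    exact isHomogeneous_zero _ _ _

theorem Sq_monomial_homog (m : σ →₀ ℕ) (c : ZMod 2) (k : ℕ) :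
    (Sq k (monomial m c)).IsHomogeneous (m.degree + k) := by
  have h1 : Hm (m.degree) (totalSq σ (monomial m c)) := by
    rw [MvPolynomial.monomial_eq, map_mul]
    have h2 : Hm 0 (totalSq σ (C c)) := by
      have : totalSq σ (C c) = Polynomial.C (C c) := by
        simp [totalSq]
      rw [this]
      intro k
      rw [Polynomial.coeff_C]
      split_ifs with h
      · subst h
        simpa using isHomogeneous_C σ c
      · exact isHomogeneous_zero _ _ _
    have h3 : Hm (m.degree) (totalSq σ (m.prod fun n e => X n ^ e)) := by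
      rw [Finsupp.prod, map_prod, Finsupp.degree]
      apply Hm.prod
      intro i _
      rw [map_pow]
      simpa using (Hm_X i).pow (m i)
    simpa using h2.mul h3
  exact h1 k

theorem Sq_homog {n : ℕ} {f : MvPolynomial σ (ZMod 2)} (hf : f.IsHomogeneous n) (k : ℕ) :
    (Sq k f).IsHomogeneous (n + k) := by
  classical
  rw [f.as_sum, Sq_sum]
  apply IsHomogeneous.sum
  intro m hm
  have h := Sq_monomial_homog m (coeff m f) k
  have hd : m.degree = n := by
    have := hf.degree_eq_sum_deg_support hm
    simpa [Finsupp.degree] using this.symm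
  rwa [hd] at h

theorem Sq_rename (θ : σ → τ) (k : ℕ) (f : MvPolynomial σ (ZMod 2)) :
    Sq k (rename θ f) = rename θ (Sq k f) := by
  have h : (totalSq τ).comp (rename θ) =
      (Polynomial.mapAlgHom (rename θ)).comp (totalSq σ) := by
    apply MvPolynomial.algHom_ext
    intro i
    simp [totalSq]
  have := congrArg (fun F => (F f).coeff k) h
  simpa [Sq] using this

theorem homogeneousComponent_Sq (n k : ℕ) (f : MvPolynomial σ (ZMod 2)) :
    homogeneousComponent n (Sq k f) =
      if k ≤ n then Sq k (homogeneousComponent (n - k) f) else 0 := by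
  classical
  have h1 : Sq k f = ∑ i ∈ Finset.range (f.totalDegree + 1), Sq k (homogeneousComponent i f) := by
    conv_lhs => rw [← sum_homogeneousComponent f]
    rw [Sq_sum]
  rw [h1, map_sum]
  have h2 : ∀ i, homogeneousComponent n (Sq k (homogeneousComponent i f)) =
      if i + k = n then Sq k (homogeneousComponent i f) else 0 := by
    intro i
    have := homogeneousComponent_of_mem (m := n) ((mem_homogeneousSubmodule _ _).2
      (Sq_homog (homogeneousComponent_isHomogeneous i f) k))
    rw [this]
    by_cases h : i + k = n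
    · simp [h]
    · simp [h, Ne.symm h]
  simp only [h2]
  split_ifs with hk
  · rw [Finset.sum_eq_single (n - k)]
    · rw [if_pos (by omega)]
    · intro i _ hi
      rw [if_neg (by omega)]
    · intro hi
      rw [Finset.mem_range, not_lt] at hi
      rw [if_pos (by omega), homogeneousComponent_eq_zero _ _ (by omega), Sq_zero_right]
  · apply Finset.sum_eq_zero
    intro i _
    rw [if_neg (by omega)]

/-- The degree `n` hits. -/
noncomputable def hitsDeg (σ : Type) (n : ℕ) : Submodule (ZMod 2) (MvPolynomial σ (ZMod 2)) :=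
  Submodule.span (ZMod 2) {g | ∃ (k : ℕ) (f : MvPolynomial σ (ZMod 2)), 1 ≤ k ∧ k ≤ n ∧
    f.IsHomogeneous (n - k) ∧ g = Sq k f}

theorem hitsDeg_le_hits (n : ℕ) : hitsDeg σ n ≤ hits σ := by
  apply Submodule.span_mono
  rintro g ⟨k, f, hk, _, _, rfl⟩
  exact ⟨k, f, hk, rfl⟩

theorem hitsDeg_homog (n : ℕ) : hitsDeg σ n ≤ homogeneousSubmodule σ (ZMod 2) n := by
  rw [hitsDeg, Submodule.span_le]
  rintro g ⟨k, f, hk, hkn, hf, rfl⟩
  have := Sq_homog hf k
  rw [Nat.sub_add_cancel hkn] at this
  exact this

theorem mem_hitsDeg {n : ℕ} {f : MvPolynomial σ (ZMod 2)} (hf : f ∈ hits σ)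
    (hh : f.IsHomogeneous n) : f ∈ hitsDeg σ n := by
  have key : ∀ g ∈ hits σ, homogeneousComponent n g ∈ hitsDeg σ n := by
    intro g hg
    induction hg using Submodule.span_induction with
    | mem x hx =>
      obtain ⟨k, f, hk, rfl⟩ := hx
      rw [homogeneousComponent_Sq]
      split_ifs with hkn
      · apply Submodule.subset_span
        exact ⟨k, _, hk, hkn, homogeneousComponent_isHomogeneous _ _, rfl⟩
      · exact Submodule.zero_mem _
    | zero => rw [map_zero]; exact Submodule.zero_mem _
    | add x y _ _ hx hy => rw [map_add]; exact Submodule.add_mem _ hx hy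
    | smul c x _ hx => rw [map_smul]; exact Submodule.smul_mem _ _ hx
  have := key f hf
  rwa [homogeneousComponent_eq_self hh] at this

end Pool.Agent.Lib_helper74.Hit
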