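import Mathlib

/-! Definitions for the Peterson hit problem over the field with two elements. -/

namespace Pool.Agent.Lib_helper74.Hit

open MvPolynomial

/-- The total Steenrod square on the polynomial algebra over `ZMod 2` in the variables `σ`: the
algebra homomorphism to polynomials in one further variable `T` sending a variable `x` to
`x + x ^ 2 * T`. -/
noncomputable def totalSq (σ : Type) :
    MvPolynomial σ (ZMod 2) →ₐ[ZMod 2] Polynomial (MvPolynomial σ (ZMod 2)) :=
  aeval (fun i => Polynomial.C (X i) + Polynomial.C (X i ^ 2) * Polynomial.X)

/-- The Steenrod square `Sq k`: the coefficient of `T ^ k` in the total square. So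
`Sq 0 x = x`, `Sq 1 x = x ^ 2`, `Sq k x = 0` for `k > 1` on the variables, and the Cartan
formula holds. -/
noncomputable def Sq {σ : Type} (k : ℕ) (f : MvPolynomial σ (ZMod 2)) :
    MvPolynomial σ (ZMod 2) :=
  (totalSq σ f).coeff k

/-- The subspace of hit polynomials: the span of all `Sq k f` with `k ≥ 1`. -/
noncomputable def hits (σ : Type) : Submodule (ZMod 2) (MvPolynomial σ (ZMod 2)) :=
  Submodule.span (ZMod 2) {g | ∃ (k : ℕ) (f : MvPolynomial σ (ZMod 2)), 1 ≤ k ∧ g = Sq k f}

/-- The dimension of the degree `n` part of `Q P` where `P` is the polynomial algebra in the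
variables `σ`: the dimension of the image of the homogeneous polynomials of degree `n` in the
quotient of the polynomial algebra by the hit polynomials. -/
noncomputable def qd (σ : Type) (n : ℕ) : ℕ :=
  Module.finrank (ZMod 2) ((homogeneousSubmodule σ (ZMod 2) n).map (hits σ).mkQ)

end Pool.Agent.Lib_helper74.Hit
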