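import Pool.Agent.Lib_helper74.Hit.Plus

/-! Families which generate freely in a range. -/

namespace Pool.Agent.Lib_helper74.Hit

open MvPolynomial

theorem AAs_zero {k d : ℕ} (h : k < d) {θ : Op} (hθ : θ ∈ AAs k d) : θ = 0 := by
  rw [AAs, if_neg (by omega)] at hθ
  exact hθ

theorem AAs_of_le {k d : ℕ} (h : d ≤ k) : AAs k d = AA (k - d) := by
  rw [AAs, if_pos h]

theorem con_AAs {k d a b : ℕ} (hab : a ≤ b) {θ : Op} (hθ : θ ∈ AAs k (d + a)) :
    con (a + 1) (b + 1) θ ∈ AAs (k - b) d ∧ (k < b → con (a + 1) (b + 1) θ = 0) := by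
  by_cases h : d + a ≤ k
  · rw [AAs_of_le h] at hθ
    have h1 := con_mem hθ (show a + 1 ≤ b + 1 by omega)
    have h2 : b + 1 - (a + 1) = b - a := by omega
    rw [h2] at h1
    by_cases h3 : b - a ≤ k - (d + a)
    · rw [AAs_of_le h3] at h1
      rw [AAs_of_le (show d ≤ k - b by omega)]
      have h4 : k - (d + a) - (b - a) = k - b - d := by omega
      rw [h4] at h1
      exact ⟨h1, fun h => by omega⟩
    · have h4 := AAs_zero (by omega) h1
      rw [h4]
      exact ⟨Submodule.zero_mem _, fun _ => rfl⟩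
  · rw [AAs_zero (by omega) hθ, map_zero]
    exact ⟨Submodule.zero_mem _, fun _ => rfl⟩

/-- The independence part of the inductive statement. -/
def Ind (j : ℕ) {ι : Type} [Fintype ι] (l : ι → PP j) (d : ι → ℕ) (g k : ℕ) : Prop :=
  ∀ θ : ι → Op, (∀ a, θ a ∈ AAs k (d a)) → (∀ a, g < d a → θ a = 0) →
    ∑ a, θ a j (l a) = 0 → ∀ a, θ a = 0

/-- The generated part in degree `i`. -/
noncomputable def ZZ {j : ℕ} {ι : Type} [Fintype ι] (l : ι → PP j) (d : ι → ℕ) (i : ℕ) :
    Submodule (ZMod 2) (PP j) :=
  ⨆ a, (AAs i (d a)).map (evOp (l a))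

theorem mem_ZZ {j : ℕ} {ι : Type} [Fintype ι] {l : ι → PP j} {d : ι → ℕ} {i : ℕ} {y : PP j} :
    y ∈ ZZ l d i ↔ ∃ θ : ι → Op, (∀ a, θ a ∈ AAs i (d a)) ∧ y = ∑ a, θ a j (l a) := by
  classical
  rw [ZZ, Submodule.mem_iSup_iff_exists_finsupp]
  constructor
  · rintro ⟨f, hf, rfl⟩
    choose θ hθ hθ2 using hf
    refine ⟨θ, hθ, ?_⟩
    rw [Finsupp.sum_fintype _ _ (fun _ => rfl)]
    apply Finset.sum_congr rfl
    intro a _
    rw [← hθ2 a]
    rfl
  · rintro ⟨θ, hθ, rfl⟩
    refine ⟨Finsupp.equivFunOnFinite.symm (fun a => θ a j (l a)), ?_, ?_⟩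
    · intro a
      exact ⟨θ a, hθ a, rfl⟩
    · rw [Finsupp.sum_fintype _ _ (fun _ => rfl)]
      rfl

/-- The inductive statement. -/
def HH (j : ℕ) : Prop :=
  ∃ (ι : Type) (_ : Fintype ι) (l : ι → PP j) (d : ι → ℕ),
    (∀ a, l a ∈ NN j (d a)) ∧ (∀ a, d a ≤ j / 2) ∧
    (∀ i, i ≤ j / 2 → NN j i ≤ ZZ l d i) ∧ (∀ g k, k + g ≤ j → Ind j l d g k)

theorem ZZ_le_NN {j : ℕ} {ι : Type} [Fintype ι] {l : ι → PP j} {d : ι → ℕ}
    (hl : ∀ a, l a ∈ NN j (d a)) (i : ℕ) : ZZ l d i ≤ NN j i := by
  rw [ZZ]
  apply iSup_le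
  intro a
  rintro _ ⟨θ, hθ, rfl⟩
  exact AAs_NN (hl a) hθ

theorem HH_zero : HH 0 := by
  refine ⟨Unit, inferInstance, fun _ => U 0, fun _ => 0, fun _ => U_mem_NN 0, fun _ => by simp,
    ?_, ?_⟩
  · intro i hi
    have hi0 : i = 0 := by omega
    subst hi0
    rw [NN_eq_map]
    rintro _ ⟨f, hf, rfl⟩
    rw [mem_ZZ]
    have h1 := (totalDegree_zero_iff_isHomogeneous (Fin 0)).2 hf
    rw [totalDegree_eq_zero_iff_eq_C] at h1
    refine ⟨fun _ => coeff 0 f • idOp, fun _ => ?_, ?_⟩
    · rw [AAs_of_le le_rfl]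
      exact Submodule.smul_mem _ _ idOp_mem
    · rw [LinearMap.mulLeft_apply]
      simp only [Finset.univ_unique, Finset.sum_const, Finset.card_singleton, one_smul]
      change _ = coeff 0 f • U 0
      conv_lhs => rw [h1]
      rw [mul_comm, C_mul']
  · intro g k hgk θ h1 _ h3 a
    have hk : k = 0 := by omega
    subst hk
    rw [Fintype.sum_unique] at h3
    have h4 := h1 a
    rw [AAs_of_le le_rfl] at h4
    exact op_zero_of_U_ge h4 0 le_rfl h3

/-- The independence step. -/
theorem ind_step {j : ℕ} {ι : Type} [Fintype ι] (l : ι → PP j) (d : ι → ℕ)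
    (hI : ∀ g k, k + g ≤ j → Ind j l d g k) (g k : ℕ) (hgk : k + g ≤ j + 1) (hg : 2 * g ≤ j)
    (M : ℕ) (Θ : ι → ℕ → Op) (h1 : ∀ a m, Θ a m ∈ AAs k (d a + m))
    (h2 : ∀ a m, g < d a + m → Θ a m = 0)
    (h3 : ∑ m ∈ Finset.range M, ∑ a, Θ a m (j + 1) (up j (l a) * X 0 ^ (m + 1)) = 0)
    (hM : ∀ a m, M ≤ m → Θ a m = 0) :
    ∀ a m, Θ a m = 0 := by
  classical
  -- the relation obtained from the coefficient of the power `b + 1`
  let η : ι → ℕ → Op := fun a b => ∑ m ∈ Finset.range (b + 1), con (m + 1) (b + 1) (Θ a m)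
  have hηmem : ∀ a b, η a b ∈ AAs (k - b) (d a) ∧ (k < b → η a b = 0) := by
    intro a b
    constructor
    · apply Submodule.sum_mem
      intro m hm
      rw [Finset.mem_range] at hm
      exact (con_AAs (by omega) (h1 a m)).1
    · intro hb
      apply Finset.sum_eq_zero
      intro m hm
      rw [Finset.mem_range] at hm
      exact (con_AAs (by omega) (h1 a m)).2 hb
  have hrel : ∀ b, ∑ a, η a b j (l a) = 0 := by
    intro b
    have h4 : cf (b + 1) (∑ m ∈ Finset.range (M + (b + 1)),
        ∑ a, Θ a m (j + 1) (up j (l a) * X 0 ^ (m + 1))) = 0 := by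
      rw [← Finset.sum_subset (Finset.range_mono (Nat.le_add_right M (b + 1))), h3, map_zero]
      intro m _ hm
      rw [Finset.mem_range, not_lt] at hm
      apply Finset.sum_eq_zero
      intro a _
      rw [hM a m hm]
      rfl
    rw [map_sum] at h4
    have h5 : ∀ m, cf (b + 1) (∑ a, Θ a m (j + 1) (up j (l a) * X 0 ^ (m + 1))) =
        ∑ a, con (m + 1) (b + 1) (Θ a m) j (l a) := by
      intro m
      rw [map_sum]
      rfl
    simp only [h5] at h4
    rw [← h4, Finset.sum_comm]
    apply Finset.sum_congr rfl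
    intro a _
    change (∑ m ∈ Finset.range (b + 1), con (m + 1) (b + 1) (Θ a m)) j (l a) = _
    rw [Finset.sum_apply, LinearMap.sum_apply]
    apply Finset.sum_subset (Finset.range_mono (by omega))
    intro m _ hm
    rw [Finset.mem_range, not_lt] at hm
    have h6 : con (m + 1) (b + 1) (Θ a m) = 0 := by
      by_cases h : d a + m ≤ k
      · have := h1 a m
        rw [AAs_of_le h] at this
        exact con_lt this (by omega)
      · rw [AAs_zero (by omega) (h1 a m), map_zero]
    rw [h6]
    rfl
  have hself : ∀ a m, con (m + 1) (m + 1) (Θ a m) = Θ a m := by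
    intro a m
    by_cases h : d a + m ≤ k
    · have := h1 a m
      rw [AAs_of_le h] at this
      exact con_self this _
    · rw [AAs_zero (by omega) (h1 a m), map_zero]
  have hη0 : ∀ b, (∀ a m, m < b → Θ a m = 0) → ∀ a, η a b = Θ a b := by
    intro b hb a
    change ∑ m ∈ Finset.range (b + 1), con (m + 1) (b + 1) (Θ a m) = _
    rw [Finset.sum_range_succ, hself, Finset.sum_eq_zero, zero_add]
    intro m hm
    rw [Finset.mem_range] at hm
    rw [hb a m hm, map_zero]
  -- the first coefficient
  have hzero : ∀ a, Θ a 0 = 0 := by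
    by_cases hcase : k + g ≤ j
    · have h4 := hI g k hcase (fun a => Θ a 0) (fun a => by simpa using h1 a 0)
        (fun a ha => h2 a 0 (by omega)) (by
          have h5 := hrel 0
          simp only [hη0 0 (fun a m hm => absurd hm (Nat.not_lt_zero m))] at h5
          exact h5)
      exact h4
    · have hk : k + g = j + 1 := by omega
      -- vanishing of the higher coefficients
      have hη1 : ∀ b, 1 ≤ b → ∀ a, η a b = 0 := by
        intro b hb a
        by_cases hkb : b ≤ k
        · apply hI g (k - b) (by omega) (fun a => η a b) (fun a => (hηmem a b).1) _ (hrel b) a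
          intro a ha
          apply Finset.sum_eq_zero
          intro m _
          rw [h2 a m (by omega), map_zero]
        · exact (hηmem a b).2 (by omega)
      have htop : ∀ a, g ≤ d a → Θ a 0 = 0 := by
        intro a ha
        by_cases ha2 : g < d a
        · exact h2 a 0 (by omega)
        · have hda : d a = g := by omega
          have h4 := h1 a 0
          rw [AAs_of_le (by omega)] at h4
          apply op_zero_of_con h4 (by omega)
          intro b hb
          have h5 := hη1 (b - 1) (by omega) a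
          change ∑ m ∈ Finset.range (b - 1 + 1), con (m + 1) (b - 1 + 1) (Θ a m) = 0 at h5
          rw [Nat.sub_add_cancel (by omega), Finset.sum_eq_single 0] at h5
          · exact h5
          · intro m _ hm
            rw [h2 a m (by omega), map_zero]
          · intro h
            rw [Finset.mem_range] at h
            omega
      by_cases hg0 : g = 0
      · intro a
        exact htop a (by omega)
      · have h4 := hI (g - 1) k (by omega) (fun a => Θ a 0) (fun a => by simpa using h1 a 0)
          (fun a ha => htop a (by omega)) (by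
            have h5 := hrel 0
            simp only [hη0 0 (fun a m hm => absurd hm (Nat.not_lt_zero m))] at h5
            exact h5)
        exact h4
  intro a m
  induction m using Nat.strong_induction_on generalizing a with
  | _ m ih =>
    rcases Nat.eq_zero_or_pos m with hm | hm
    · subst hm; exact hzero a
    · by_cases hkm : m ≤ k
      · by_cases hgm : m ≤ g
        · have h4 := hI (g - m) (k - m) (by omega) (fun a => Θ a m)
            (fun a => by
              have h5 := (hηmem a m).1
              rwa [hη0 m (fun a m' hm' => ih m' hm' a)] at h5)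
            (fun a ha => h2 a m (by omega)) (by
              have h5 := hrel m
              simp only [hη0 m (fun a m' hm' => ih m' hm' a)] at h5
              exact h5)
          exact h4 a
        · exact h2 a m (by omega)
      · exact AAs_zero (by omega) (h1 a m)

end Pool.Agent.Lib_helper74.Hit
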