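import Pool.Agent.Lib_helper74.Hit.Fam

/-! The inductive step for the families. -/

namespace Pool.Agent.Lib_helper74.Hit

open MvPolynomial

/-- Index type of the product family. -/
def TT {ι : Type} (d : ι → ℕ) (G : ℕ) : Type :=
  {p : ι × Fin (G + 1) // d p.1 + p.2 ≤ G}

noncomputable instance {ι : Type} [Fintype ι] (d : ι → ℕ) (G : ℕ) : Fintype (TT d G) := by
  classical
  unfold TT
  infer_instance

/-- The product family. -/
noncomputable def lT {j : ℕ} {ι : Type} (l : ι → PP j) (d : ι → ℕ) (G : ℕ) (p : TT d G) :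
    PP (j + 1) := up j (l p.1.1) * X 0 ^ ((p.1.2 : ℕ) + 1)

/-- Degrees in the product family. -/
def dT {ι : Type} (d : ι → ℕ) (G : ℕ) (p : TT d G) : ℕ := d p.1.1 + (p.1.2 : ℕ)

theorem lT_mem {j : ℕ} {ι : Type} {l : ι → PP j} {d : ι → ℕ} (hl : ∀ a, l a ∈ NN j (d a))
    (G : ℕ) (p : TT d G) : lT l d G p ∈ NN (j + 1) (dT d G p) :=
  up_mul_NN (hl _) _

theorem ind_T {j : ℕ} {ι : Type} [Fintype ι] (l : ι → PP j) (d : ι → ℕ)
    (hI : ∀ g k, k + g ≤ j → Ind j l d g k) (G g k : ℕ) (hgk : k + g ≤ j + 1)
    (hG : 2 * G ≤ j) : Ind (j + 1) (lT l d G) (dT d G) g k := by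
  classical
  intro θ h1 h2 h3
  let Θ : ι → ℕ → Op := fun a m =>
    if h : ∃ hm : m < G + 1, d a + m ≤ G then θ ⟨(a, ⟨m, h.1⟩), h.2⟩ else 0
  have hΘ : ∀ p : TT d G, Θ p.1.1 p.1.2 = θ p := by
    intro p
    have hp : ∃ hm : (p.1.2 : ℕ) < G + 1, d p.1.1 + (p.1.2 : ℕ) ≤ G := ⟨p.1.2.2, p.2⟩
    change (if h : ∃ hm : (p.1.2 : ℕ) < G + 1, d p.1.1 + (p.1.2 : ℕ) ≤ G then _ else _) = _
    rw [dif_pos hp]
    rfl
  have hz : ∀ a m, G < d a + m → Θ a m = 0 := by
    intro a m h
    change (if h : ∃ hm : m < G + 1, d a + m ≤ G then _ else _) = _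
    rw [dif_neg]
    rintro ⟨_, h'⟩
    omega
  have hgen : ∀ a m, d a + m ≤ G → ∃ p : TT d G, p.1.1 = a ∧ (p.1.2 : ℕ) = m := by
    intro a m h
    exact ⟨⟨(a, ⟨m, by omega⟩), h⟩, rfl, rfl⟩
  have key : ∀ a m, Θ a m = 0 := by
    apply ind_step l d hI (min g G) k (by omega) (by omega) (G + 1) Θ
    · intro a m
      by_cases h : d a + m ≤ G
      · obtain ⟨p, rfl, rfl⟩ := hgen a m h
        rw [hΘ]
        exact h1 p
      · rw [hz a m (by omega)]
        exact Submodule.zero_mem _
    · intro a m h
      by_cases h' : d a + m ≤ G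
      · obtain ⟨p, rfl, rfl⟩ := hgen a m h'
        rw [hΘ]
        apply h2
        change g < d p.1.1 + (p.1.2 : ℕ)
        omega
      · exact hz a m (by omega)
    · rw [← h3]
      have e1 : ∑ p : TT d G, θ p (j + 1) (lT l d G p) =
          ∑ p ∈ (Finset.univ : Finset (ι × Fin (G + 1))).filter
            (fun p => d p.1 + (p.2 : ℕ) ≤ G),
            Θ p.1 p.2 (j + 1) (up j (l p.1) * X 0 ^ ((p.2 : ℕ) + 1)) := by
        rw [Finset.sum_subtype ((Finset.univ : Finset (ι × Fin (G + 1))).filter
            (fun p => d p.1 + (p.2 : ℕ) ≤ G)) (p := fun p => d p.1 + (p.2 : ℕ) ≤ G)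
            (by intro x; simp)]
        apply Finset.sum_congr rfl
        intro p _
        have := hΘ p
        rw [← this]
        rfl
      rw [e1, Finset.sum_filter_of_ne, Finset.sum_comm, Finset.univ_product_univ.symm,
        Finset.sum_product]
      · apply Finset.sum_congr rfl
        intro a _
        rw [Finset.sum_range]
      · intro p _ hp
        by_contra hne
        apply hp
        rw [hz p.1 p.2 (by omega)]
        rfl
    · intro a m hm
      exact hz a m (by omega)
  intro p
  rw [← hΘ p]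
  exact key _ _

theorem gen_T {j : ℕ} {ι : Type} [Fintype ι] (l : ι → PP j) (d : ι → ℕ)
    (hl : ∀ a, l a ∈ NN j (d a)) (G : ℕ)
    (hgen : ∀ i, i ≤ G → NN j i ≤ ZZ l d i) (i : ℕ) (hi : i ≤ G) :
    NN (j + 1) i ≤ ZZ (lT l d G) (dT d G) i := by
  classical
  have claim : ∀ e, e ≤ i → ∀ z ∈ NN j e,
      up j z * X 0 ^ (i - e + 1) ∈ ZZ (lT l d G) (dT d G) i := by
    intro e
    induction e using Nat.strong_induction_on with
    | _ e ih =>
      intro he z hz
      obtain ⟨θ, hθ, rfl⟩ := mem_ZZ.1 (hgen e (by omega) hz)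
      rw [map_sum, Finset.sum_mul]
      apply Submodule.sum_mem
      intro a _
      by_cases hda : d a ≤ e
      · have hθa := hθ a
        rw [AAs_of_le hda] at hθa
        let p : TT d G := ⟨(a, ⟨i - e, by omega⟩), by change d a + (i - e) ≤ G; omega⟩
        have hF : θ a (j + 1) (lT l d G p) ∈ ZZ (lT l d G) (dT d G) i := by
          apply Submodule.mem_iSup_of_mem p
          refine ⟨θ a, ?_, rfl⟩
          have h1 : dT d G p = d a + (i - e) := rfl
          rw [h1, AAs_of_le (by omega)]
          have h2 : i - (d a + (i - e)) = e - d a := by omega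
          rwa [h2]
        have hFN : θ a (j + 1) (lT l d G p) ∈ NN (j + 1) i := ZZ_le_NN (lT_mem hl G) i hF
        have hcf : ∀ b, cf b (θ a (j + 1) (lT l d G p)) = con (i - e + 1) b (θ a) j (l a) :=
          fun b => rfl
        obtain ⟨N, hN⟩ := sum_cf (θ a (j + 1) (lT l d G p))
        have hself : cf (i - e + 1) (θ a (j + 1) (lT l d G p)) = θ a j (l a) := by
          rw [hcf, con_self hθa]
        rw [← hself]
        by_cases hNe : i - e + 1 < N
        · have h3 : up j (cf (i - e + 1) (θ a (j + 1) (lT l d G p))) * X 0 ^ (i - e + 1) =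
              θ a (j + 1) (lT l d G p) - ∑ b ∈ (Finset.range N).erase (i - e + 1),
                up j (cf b (θ a (j + 1) (lT l d G p))) * X 0 ^ b := by
            rw [eq_sub_iff_add_eq]
            exact (Finset.add_sum_erase (Finset.range N)
              (fun b => up j (cf b (θ a (j + 1) (lT l d G p))) * X 0 ^ b)
              (Finset.mem_range.2 hNe)).trans hN.symm
          rw [h3]
          apply Submodule.sub_mem _ hF
          apply Submodule.sum_mem
          intro b hb
          rw [Finset.mem_erase] at hb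
          by_cases hb1 : b < i - e + 1
          · rw [hcf, con_lt hθa hb1, Pi.zero_apply, LinearMap.zero_apply, map_zero, zero_mul]
            exact Submodule.zero_mem _
          · by_cases hb2 : b ≤ i + 1
            · have h4 := ih (i + 1 - b) (by omega) (by omega) _ (cf_NN hFN hb2)
              have h5 : i - (i + 1 - b) + 1 = b := by omega
              rwa [h5] at h4
            · rw [cf_NN_gt hFN (by omega), map_zero, zero_mul]
              exact Submodule.zero_mem _
        · have h3 : cf (i - e + 1) (θ a (j + 1) (lT l d G p)) = 0 := by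
            rw [hN, map_sum]
            apply Finset.sum_eq_zero
            intro m hm
            rw [Finset.mem_range] at hm
            rw [cf_up, if_neg (by omega)]
          rw [h3, map_zero, zero_mul]
          exact Submodule.zero_mem _
      · rw [AAs_zero (by omega) (hθ a), Pi.zero_apply, LinearMap.zero_apply, map_zero, zero_mul]
        exact Submodule.zero_mem _
  intro y hy
  obtain ⟨N, hN⟩ := sum_cf y
  rw [hN]
  apply Submodule.sum_mem
  intro b _
  rcases Nat.eq_zero_or_pos b with hb | hb
  · subst hb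
    rw [cf_zero_NN hy, map_zero, zero_mul]
    exact Submodule.zero_mem _
  · by_cases hb2 : b ≤ i + 1
    · have h4 := claim (i + 1 - b) (by omega) _ (cf_NN hy hb2)
      have h5 : i - (i + 1 - b) + 1 = b := by omega
      rwa [h5] at h4
    · rw [cf_NN_gt hy (by omega), map_zero, zero_mul]
      exact Submodule.zero_mem _

theorem HH_succ_even {j : ℕ} (hj : j % 2 = 0) (h : HH j) : HH (j + 1) := by
  obtain ⟨ι, hι, l, d, h1, h2, h3, h4⟩ := h
  refine ⟨TT d (j / 2), inferInstance, lT l d (j / 2), dT d (j / 2), lT_mem h1 _, ?_, ?_, ?_⟩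
  · intro p
    have h5 : dT d (j / 2) p ≤ j / 2 := p.2
    omega
  · intro i hi
    exact gen_T l d h1 (j / 2) h3 i (by omega)
  · intro g k hgk
    exact ind_T l d h4 (j / 2) g k hgk (by omega)

theorem HH_succ_odd {j : ℕ} (hj : j % 2 = 1) (h : HH j) : HH (j + 1) := by
  classical
  obtain ⟨ι, hι, l, d, h1, h2, h3, h4⟩ := h
  let G := j / 2
  have hjG : j = 2 * G + 1 := by
    have : j / 2 = G := rfl
    omega
  let l' := lT l d G
  let d' := dT d G
  have hl' : ∀ p, l' p ∈ NN (j + 1) (d' p) := lT_mem h1 G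
  have hd' : ∀ p, d' p ≤ G := fun p => p.2
  have hI' : ∀ g k, k + g ≤ j + 1 → Ind (j + 1) l' d' g k := fun g k hgk =>
    ind_T l d h4 G g k hgk (by omega)
  obtain ⟨E, hE1, hE2, hE3⟩ := exists_compl (ZZ l' d' (G + 1)) (NN (j + 1) (G + 1))
    (ZZ_le_NN hl' (G + 1))
  have hEfd : FiniteDimensional (ZMod 2) E := fd_of_le hE1
  have hZfd : FiniteDimensional (ZMod 2) (ZZ l' d' (G + 1)) := fd_of_le (ZZ_le_NN hl' (G + 1))
  have hdisj : E ⊓ ZZ l' d' (G + 1) = ⊥ := by
    have h5 := Submodule.finrank_sup_add_finrank_inf_eq E (ZZ l' d' (G + 1))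
    rw [hE2, hE3] at h5
    have h6 : Module.finrank (ZMod 2) (E ⊓ ZZ l' d' (G + 1) : Submodule (ZMod 2) _) = 0 := by
      omega
    exact Submodule.finrank_eq_zero.1 h6
  let r := Module.finrank (ZMod 2) E
  let B := Module.finBasis (ZMod 2) E
  let l'' : TT d G ⊕ Fin r → PP (j + 1) := Sum.elim l' (fun s => (B s : PP (j + 1)))
  let d'' : TT d G ⊕ Fin r → ℕ := Sum.elim d' (fun _ => G + 1)
  refine ⟨TT d G ⊕ Fin r, inferInstance, l'', d'', ?_, ?_, ?_, ?_⟩
  · rintro (p | s)
    · exact hl' p
    · exact hE1 (B s).2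
  · rintro (p | s)
    · have : d'' (Sum.inl p) = d' p := rfl
      rw [this]
      have := hd' p
      omega
    · have : d'' (Sum.inr s) = G + 1 := rfl
      rw [this]
      omega
  · intro i hi
    have hZ : ZZ l' d' i ≤ ZZ l'' d'' i := by
      apply iSup_le
      intro p
      exact le_iSup (fun a => (AAs i (d'' a)).map (evOp (l'' a))) (Sum.inl p)
    by_cases hiG : i ≤ G
    · exact (gen_T l d h1 G h3 i hiG).trans hZ
    · have hi2 : i = G + 1 := by omega
      subst hi2
      rw [← hE2]
      apply sup_le _ hZ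
      intro x hx
      have h5 := B.sum_repr ⟨x, hx⟩
      have h6 := congrArg Subtype.val h5
      simp only [AddSubmonoidClass.coe_finsetSum, Submodule.coe_smul] at h6
      rw [← h6]
      apply Submodule.sum_mem
      intro s _
      apply Submodule.smul_mem
      apply Submodule.mem_iSup_of_mem (Sum.inr s)
      refine ⟨idOp, ?_, rfl⟩
      change idOp ∈ AAs (G + 1) (G + 1)
      rw [AAs_of_le le_rfl, Nat.sub_self]
      exact idOp_mem
  · intro g k hgk θ ht1 ht2 ht3
    rw [Fintype.sum_sum_type] at ht3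
    have hold : (∀ s, θ (Sum.inr s) = 0) → ∀ a, θ a = 0 := by
      intro hs
      have h5 : ∀ p, θ (Sum.inl p) = 0 := by
        apply hI' g k hgk (fun p => θ (Sum.inl p)) (fun p => ht1 (Sum.inl p))
          (fun p hp => ht2 (Sum.inl p) hp)
        rw [Finset.sum_eq_zero (s := (Finset.univ : Finset (Fin r)))
          (f := fun s => θ (Sum.inr s) (j + 1) (l'' (Sum.inr s)))
          (fun s _ => by rw [hs s]; rfl), add_zero] at ht3
        exact ht3
      rintro (p | s)
      · exact h5 p
      · exact hs s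
    by_cases hg : g < G + 1
    · exact hold fun s => ht2 (Sum.inr s) hg
    · by_cases hk : k < G + 1
      · exact hold fun s => AAs_zero hk (ht1 (Sum.inr s))
      · have hkG : k = G + 1 := by omega
        subst hkG
        -- the new coefficients are scalars
        have hsc : ∀ s, θ (Sum.inr s) ∈ AA 0 := by
          intro s
          have h5 : θ (Sum.inr s) ∈ AAs (G + 1) (G + 1) := ht1 (Sum.inr s)
          rwa [AAs_of_le le_rfl, Nat.sub_self] at h5
        have hsc2 : ∀ s, ∃ c : ZMod 2, θ (Sum.inr s) = c • idOp := by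
          intro s
          have h5 : AA 0 ≤ Submodule.span (ZMod 2) {idOp} := by
            apply AA_le
            intro η hη
            generalize hz : (0 : ℕ) = z at hη
            cases hη with
            | one => exact Submodule.mem_span_singleton_self _
            | step b hb _ => omega
          obtain ⟨c, hc⟩ := Submodule.mem_span_singleton.1 (h5 (hsc s))
          exact ⟨c, hc.symm⟩
        choose c hc using hsc2
        have hx : (∑ s, θ (Sum.inr s) (j + 1) (l'' (Sum.inr s))) = ∑ s, c s • (B s : PP (j + 1)) := by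
          apply Finset.sum_congr rfl
          intro s _
          rw [hc s]
          rfl
        have hxE : (∑ s, c s • (B s : PP (j + 1))) ∈ E :=
          Submodule.sum_mem _ fun s _ => Submodule.smul_mem _ _ (B s).2
        have hxZ : (∑ s, c s • (B s : PP (j + 1))) ∈ ZZ l' d' (G + 1) := by
          have h6 : (∑ p, θ (Sum.inl p) (j + 1) (l'' (Sum.inl p))) ∈ ZZ l' d' (G + 1) := by
            rw [mem_ZZ]
            exact ⟨fun p => θ (Sum.inl p), fun p => ht1 (Sum.inl p), rfl⟩
          rw [hx] at ht3
          have h7 : (∑ s, c s • (B s : PP (j + 1))) =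
              - (∑ p, θ (Sum.inl p) (j + 1) (l'' (Sum.inl p))) := by
            rw [eq_neg_iff_add_eq_zero]
            exact (add_comm _ _).trans ht3
          rw [h7]
          exact Submodule.neg_mem _ h6
        have hx0 : (∑ s, c s • (B s : PP (j + 1))) = 0 := by
          have h6 : (∑ s, c s • (B s : PP (j + 1))) ∈ E ⊓ ZZ l' d' (G + 1) := ⟨hxE, hxZ⟩
          rw [hdisj] at h6
          exact (Submodule.mem_bot _).1 h6
        apply hold
        intro s
        have h6 : ∑ s, c s • B s = 0 := by
          apply Subtype.ext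
          simp only [AddSubmonoidClass.coe_finsetSum, Submodule.coe_smul]
          exact hx0
        have h7 := (Fintype.linearIndependent_iff.1 B.linearIndependent) c h6 s
        rw [hc s, h7, zero_smul]

theorem HH_all (j : ℕ) : HH j := by
  induction j with
  | zero => exact HH_zero
  | succ j ih =>
    rcases Nat.mod_two_eq_zero_or_one j with h | h
    · exact HH_succ_even h ih
    · exact HH_succ_odd h ih

end Pool.Agent.Lib_helper74.Hit
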