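import Pool.Agent.Lib_helper74.Hit.Stmts

/-! Assembly: uniformity of the asymptotics by compactness. -/

namespace Pool.Agent.Lib_helper74.Hit

open Filter Topology

theorem finalStmt (hp : PhiStmt) (_hd : DimStmt) (hu : UpperStmt) (hl : LowerStmt)
    (ho : OneStmt) : FinalStmt := by
  intro b h A hsys ε hε
  by_contra hcon
  push Not at hcon
  choose d hdge n hn using hcon
  obtain ⟨hpc, hp1, hp0, hpb⟩ := hp
  have hmem : ∀ k, ((n k : ℝ) / (n k + d k)) ∈ Set.Icc (0 : ℝ) 1 := by
    intro k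
    refine ⟨by positivity, ?_⟩
    apply div_le_one_of_le₀
    · have : (0 : ℝ) ≤ d k := by positivity
      linarith
    · positivity
  obtain ⟨t, ht, φ, hφ, hlim⟩ := isCompact_Icc.tendsto_subseq hmem
  have hlim' : Tendsto (fun k => (n (φ k) : ℝ) / (n (φ k) + d (φ k))) atTop (𝓝 t) := hlim
  have hdt : Tendsto (fun k => d (φ k)) atTop atTop := by
    apply tendsto_atTop_mono _ hφ.tendsto_atTop
    intro k
    exact hdge (φ k)
  have hphi : Tendsto (fun k => phi ((n (φ k) : ℝ) / (n (φ k) + d (φ k)))) atTop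
      (𝓝 (phi t)) := by
    have hc := hpc t ht
    have hw : Tendsto (fun k => (n (φ k) : ℝ) / (n (φ k) + d (φ k))) atTop
        (𝓝[Set.Icc 0 1] t) := by
      apply tendsto_nhdsWithin_iff.2 ⟨hlim', Eventually.of_forall fun k => hmem (φ k)⟩
    exact hc.tendsto.comp hw
  have hpnn : ∀ k, (0 : ℝ) ≤ (pdim (d (φ k)) (n (φ k)) : ℝ) := fun k => by positivity
  rcases lt_or_eq_of_le ht.2 with htl | hte
  · have e1 := hu b h A hsys ℕ atTop (fun k => d (φ k)) (fun k => n (φ k)) t hdt hlim' ht.1 htl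
      (ε / 2) (half_pos hε)
    have e2 := hl b h A hsys ℕ atTop (fun k => d (φ k)) (fun k => n (φ k)) t hdt hlim' ht.1 htl
      (ε / 2) (half_pos hε)
    have e3 : ∀ᶠ k in atTop, |phi ((n (φ k) : ℝ) / (n (φ k) + d (φ k))) - phi t| < ε / 2 := by
      have := Metric.tendsto_nhds.1 hphi (ε / 2) (half_pos hε)
      simpa [Real.dist_eq] using this
    obtain ⟨k, h1, h2, h3⟩ := (e1.and (e2.and e3)).exists
    have hk := hn (φ k)
    apply absurd hk
    rw [not_lt]
    have hP := hpnn k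
    rw [abs_lt] at h3
    rw [abs_le]
    constructor
    · nlinarith [h3.1, h3.2]
    · nlinarith [h3.1, h3.2]
  · subst hte
    obtain ⟨C, hC⟩ := ho b h A hsys ε hε
    have e1 : ∀ᶠ k in atTop, ((C : ℝ) / (C + 1)) <
        (n (φ k) : ℝ) / (n (φ k) + d (φ k)) := by
      apply hlim'.eventually_const_lt
      rw [div_lt_one (by positivity)]
      linarith
    have e2 : ∀ᶠ k in atTop, 2 ≤ d (φ k) := hdt.eventually_ge_atTop 2
    have e3 : ∀ᶠ k in atTop, phi ((n (φ k) : ℝ) / (n (φ k) + d (φ k))) < ε := by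
      apply hphi.eventually_lt_const
      rw [hp1]
      exact hε
    obtain ⟨k, h1, h2, h3⟩ := (e1.and (e2.and e3)).exists
    have hk := hn (φ k)
    apply absurd hk
    rw [not_lt]
    have hP := hpnn k
    have hdpos : (0 : ℝ) < d (φ k) := by
      have : 0 < d (φ k) := by omega
      exact_mod_cast this
    have hCd : C * d (φ k) ≤ n (φ k) := by
      rw [div_lt_div_iff₀ (by positivity) (by positivity)] at h1
      have : (C : ℝ) * d (φ k) ≤ n (φ k) := by nlinarith
      exact_mod_cast this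
    have hb := hC (d (φ k)) (n (φ k)) h2 hCd
    have hpb' := hpb _ (hmem (φ k))
    have hbn : (0 : ℝ) ≤ (b (d (φ k)) (n (φ k)) : ℝ) := by positivity
    have hq : 0 ≤ phi ((n (φ k) : ℝ) / (n (φ k) + d (φ k))) *
        (pdim (d (φ k)) (n (φ k)) : ℝ) := mul_nonneg hpb'.1 hP
    have hq2 : phi ((n (φ k) : ℝ) / (n (φ k) + d (φ k))) *
        (pdim (d (φ k)) (n (φ k)) : ℝ) ≤ ε * (pdim (d (φ k)) (n (φ k)) : ℝ) :=
      mul_le_mul_of_nonneg_right h3.le hP
    rw [abs_le]
    constructor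
    · linarith
    · linarith

end Pool.Agent.Lib_helper74.Hit
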