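import Pool.Agent.Lib_helper74.Hit.Gen

/-! The formal generating function of the partitions into parts `2 ^ i - 1`. -/

namespace Pool.Agent.Lib_helper74.Hit

/-- The weight of a multiplicity vector. -/
def wv {N : ℕ} (r : Fin N → ℕ) : ℕ := ∑ i, r i * (2 ^ ((i : ℕ) + 1) - 1)

theorem wv_snoc {N : ℕ} (r : Fin N → ℕ) (c : ℕ) :
    wv (Fin.snoc (α := fun _ => ℕ) r c : Fin (N + 1) → ℕ) = wv r + c * (2 ^ (N + 1) - 1) := by
  rw [wv, Fin.sum_univ_castSucc]
  simp only [Fin.snoc_castSucc, Fin.snoc_last, Fin.val_castSucc, Fin.val_last]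
  rfl

theorem wv_succ {N : ℕ} (r : Fin (N + 1) → ℕ) :
    wv r = wv (fun i => r (Fin.castSucc i)) + r (Fin.last N) * (2 ^ (N + 1) - 1) := by
  rw [wv, Fin.sum_univ_castSucc]
  simp only [Fin.val_castSucc, Fin.val_last]
  rfl

/-- Functions with last value zero. -/
def eqvZero (N k : ℕ) : {r : {r : Fin (N + 1) → ℕ // wv r = k} // r.1 (Fin.last N) = 0} ≃
    {r : Fin N → ℕ // wv r = k} where
  toFun r := ⟨fun i => r.1.1 (Fin.castSucc i), by
    have h := r.1.2
    rw [wv_succ, r.2, zero_mul, add_zero] at h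
    exact h⟩
  invFun r := ⟨⟨Fin.snoc (α := fun _ => ℕ) r.1 0, by rw [wv_snoc, zero_mul, add_zero]; exact r.2⟩,
    by simp⟩
  left_inv r := by
    apply Subtype.ext
    apply Subtype.ext
    funext i
    refine Fin.lastCases ?_ (fun j => ?_) i
    · simp [r.2]
    · simp
  right_inv r := by
    apply Subtype.ext
    funext i
    simp

/-- Functions with positive last value. -/
def eqvPos (N k : ℕ) (hk : 2 ^ (N + 1) - 1 ≤ k) :
    {r : {r : Fin (N + 1) → ℕ // wv r = k} // ¬ r.1 (Fin.last N) = 0} ≃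
    {r : Fin (N + 1) → ℕ // wv r = k - (2 ^ (N + 1) - 1)} where
  toFun r := ⟨Fin.snoc (α := fun _ => ℕ) (fun i => r.1.1 (Fin.castSucc i))
      (r.1.1 (Fin.last N) - 1), by
    have h := r.1.2
    have h2 := r.2
    obtain ⟨c, hc⟩ := Nat.exists_eq_succ_of_ne_zero h2
    rw [wv_succ, hc, Nat.succ_mul] at h
    rw [wv_snoc, hc, Nat.succ_sub_one]
    omega⟩
  invFun r := ⟨⟨Fin.snoc (α := fun _ => ℕ) (fun i => r.1 (Fin.castSucc i))
      (r.1 (Fin.last N) + 1), by
    have h := r.2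
    rw [wv_succ] at h
    rw [wv_snoc, Nat.succ_mul]
    omega⟩, by simp⟩
  left_inv r := by
    apply Subtype.ext
    apply Subtype.ext
    funext i
    have h2 := r.2
    refine Fin.lastCases ?_ (fun j => ?_) i
    · simp only [Fin.snoc_last]
      omega
    · simp
  right_inv r := by
    apply Subtype.ext
    funext i
    refine Fin.lastCases ?_ (fun j => ?_) i
    · simp
    · simp

theorem Gen_a_wv (N k : ℕ) : Gen_a N k = Nat.card {r : Fin N → ℕ // wv r = k} := rfl

theorem Gen_a_rec (N k : ℕ) : Gen_a (N + 1) k = Gen_a N k +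
    if 2 ^ (N + 1) - 1 ≤ k then Gen_a (N + 1) (k - (2 ^ (N + 1) - 1)) else 0 := by
  classical
  have f1 : Finite {r : Fin (N + 1) → ℕ // wv r = k} := Gen_finite (N + 1) k
  rw [Gen_a_wv, Gen_a_wv, Gen_a_wv,
    ← Nat.card_congr (Equiv.sumCompl (fun r : {r : Fin (N + 1) → ℕ // wv r = k} =>
      r.1 (Fin.last N) = 0)), Nat.card_sum, Nat.card_congr (eqvZero N k)]
  congr 1
  split_ifs with h
  · exact Nat.card_congr (eqvPos N k h)
  · rw [Nat.card_eq_zero]
    left
    constructor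
    rintro ⟨r, hr⟩
    have h1 := r.2
    obtain ⟨c, hc⟩ := Nat.exists_eq_succ_of_ne_zero hr
    rw [wv_succ, hc, Nat.succ_mul] at h1
    omega

theorem Gen_a_zero (k : ℕ) : Gen_a 0 k = if k = 0 then 1 else 0 := by
  rw [Gen_a_wv]
  split_ifs with h
  · subst h
    rw [Nat.card_eq_one_iff_unique]
    refine ⟨⟨fun a b => Subtype.ext (funext fun i => Fin.elim0 i)⟩, ⟨⟨fun i => 0, ?_⟩⟩⟩
    simp [wv]
  · rw [Nat.card_eq_zero]
    left
    constructor
    rintro ⟨r, hr⟩
    apply h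
    rw [← hr]
    simp [wv]

/-- The polynomial `∏_{1 ≤ i ≤ N} (1 - X ^ (2 ^ i - 1))` as a power series. -/
noncomputable def Phi (N : ℕ) : PowerSeries ℤ :=
  ∏ i ∈ Finset.range N, (1 - PowerSeries.X ^ (2 ^ (i + 1) - 1))

theorem Gen_mul_Phi (N : ℕ) : PowerSeries.mk (fun k => (Gen_a N k : ℤ)) * Phi N = 1 := by
  induction N with
  | zero =>
    rw [Phi, Finset.range_zero, Finset.prod_empty, mul_one]
    ext k
    rw [PowerSeries.coeff_mk, Gen_a_zero, PowerSeries.coeff_one]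
    split_ifs <;> simp
  | succ N ih =>
    rw [Phi, Finset.prod_range_succ, mul_comm (∏ i ∈ Finset.range N, _), ← mul_assoc]
    have h : PowerSeries.mk (fun k => (Gen_a (N + 1) k : ℤ)) *
        (1 - PowerSeries.X ^ (2 ^ (N + 1) - 1)) = PowerSeries.mk (fun k => (Gen_a N k : ℤ)) := by
      ext k
      rw [mul_sub, mul_one, map_sub, PowerSeries.coeff_mk, PowerSeries.coeff_mk,
        PowerSeries.coeff_mul_X_pow', Gen_a_rec N k]
      split_ifs with h
      · rw [PowerSeries.coeff_mk]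
        push_cast
        ring
      · simp
    rw [h]
    exact ih

theorem X_pow_dvd_mk_Phi (k N : ℕ) (h : k < N) :
    PowerSeries.X ^ (k + 1) ∣ PowerSeries.mk (fun k => (pcount k : ℤ)) * Phi N - 1 := by
  rw [← Gen_mul_Phi N, ← sub_mul]
  apply dvd_mul_of_dvd_left
  rw [PowerSeries.X_pow_dvd_iff]
  intro m hm
  rw [map_sub, PowerSeries.coeff_mk, PowerSeries.coeff_mk, Gen_a_eq (by omega), sub_self]

end Pool.Agent.Lib_helper74.Hit
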