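import Pool.Agent.Lib_helper74.Hit.Defs2

/-! The generating function of the partitions into parts `2 ^ i - 1` (helper81). -/

set_option autoImplicit false

namespace Pool.Agent.Lib_helper74.Hit

open Filter Topology

/-- the number of solutions with the first `N` parts -/
noncomputable def Gen_a (N k : ℕ) : ℕ :=
  Nat.card {r : Fin N → ℕ // ∑ i, r i * (2 ^ ((i : ℕ) + 1) - 1) = k}

lemma Gen_w_pos (i : ℕ) : i + 1 ≤ 2 ^ (i + 1) - 1 := by
  have h : i + 1 < 2 ^ (i + 1) := Nat.lt_two_pow_self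
  omega

lemma Gen_finite (N k : ℕ) :
    Finite {r : Fin N → ℕ // ∑ i, r i * (2 ^ ((i : ℕ) + 1) - 1) = k} := by
  have h : {r : Fin N → ℕ | ∑ i, r i * (2 ^ ((i : ℕ) + 1) - 1) = k} ⊆
      Set.Icc 0 (fun _ => k) := by
    intro r hr
    refine ⟨fun i => Nat.zero_le _, fun i => ?_⟩
    have h1 : r i * (2 ^ ((i : ℕ) + 1) - 1) ≤ ∑ i, r i * (2 ^ ((i : ℕ) + 1) - 1) :=
      Finset.single_le_sum (f := fun i : Fin N => r i * (2 ^ ((i : ℕ) + 1) - 1))
        (fun _ _ => Nat.zero_le _) (Finset.mem_univ i)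
    have h2 : ∑ i, r i * (2 ^ ((i : ℕ) + 1) - 1) = k := hr
    rw [h2] at h1
    have h3 := Gen_w_pos i
    exact (Nat.le_mul_of_pos_right _ (by omega)).trans h1
  exact ((Set.finite_Icc _ _).subset h).to_subtype

lemma Gen_succ_ge (N k : ℕ) : Gen_a N k ≤ Gen_a (N + 1) k := by
  have := Gen_finite (N + 1) k
  refine Nat.card_le_card_of_injective
    (fun r => (⟨Fin.snoc (α := fun _ => ℕ) r.1 0, ?_⟩ :
      {r : Fin (N + 1) → ℕ // ∑ i, r i * (2 ^ ((i : ℕ) + 1) - 1) = k})) ?_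
  · rw [Fin.sum_univ_castSucc]
    simp only [Fin.snoc_castSucc, Fin.snoc_last, zero_mul, add_zero, Fin.val_castSucc]
    exact r.2
  · intro r s h
    have h1 := congrArg Subtype.val h
    apply Subtype.ext
    funext i
    have h2 := congrFun h1 i.castSucc
    simpa only [Fin.snoc_castSucc] using h2

lemma Gen_succ_le {N k : ℕ} (hk : k ≤ N) : Gen_a (N + 1) k ≤ Gen_a N k := by
  have := Gen_finite N k
  have hlast : ∀ r : Fin (N + 1) → ℕ, ∑ i, r i * (2 ^ ((i : ℕ) + 1) - 1) = k →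
      r (Fin.last N) = 0 := by
    intro r hr
    have h1 : r (Fin.last N) * (2 ^ (((Fin.last N : Fin (N + 1)) : ℕ) + 1) - 1) ≤
        ∑ i, r i * (2 ^ ((i : ℕ) + 1) - 1) :=
      Finset.single_le_sum (f := fun i : Fin (N + 1) => r i * (2 ^ ((i : ℕ) + 1) - 1))
        (fun _ _ => Nat.zero_le _) (Finset.mem_univ _)
    rw [hr, Fin.val_last] at h1
    have h3 := Gen_w_pos N
    by_contra h4
    have h5 : 1 ≤ r (Fin.last N) := Nat.one_le_iff_ne_zero.2 h4
    have h6 : 1 * (2 ^ (N + 1) - 1) ≤ r (Fin.last N) * (2 ^ (N + 1) - 1) :=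
      Nat.mul_le_mul_right _ h5
    omega
  refine Nat.card_le_card_of_injective
    (fun r => (⟨fun i => r.1 i.castSucc, ?_⟩ :
      {r : Fin N → ℕ // ∑ i, r i * (2 ^ ((i : ℕ) + 1) - 1) = k})) ?_
  · have h1 := r.2
    rw [Fin.sum_univ_castSucc, hlast r.1 r.2, zero_mul, add_zero] at h1
    simpa only [Fin.val_castSucc] using h1
  · intro r s h
    have h1 := congrArg Subtype.val h
    apply Subtype.ext
    funext i
    refine Fin.lastCases ?_ (fun j => ?_) i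
    · rw [hlast r.1 r.2, hlast s.1 s.2]
    · exact congrFun h1 j

lemma Gen_a_eq {N k : ℕ} (hk : k < N) : Gen_a N k = pcount k := by
  have h : pcount k = Gen_a (k + 1) k := rfl
  rw [h]
  induction N, hk using Nat.le_induction with
  | base => rfl
  | succ n hn ih =>
    rw [← ih]
    exact le_antisymm (Gen_succ_le (by omega)) (Gen_succ_ge n k)

lemma Gen_a_le (N k : ℕ) : Gen_a N k ≤ pcount k := by
  rcases lt_or_ge k N with h | h
  · exact (Gen_a_eq h).le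
  · have h1 : Monotone (fun N => Gen_a N k) := monotone_nat_of_le_succ fun n => Gen_succ_ge n k
    have h2 : Gen_a N k ≤ Gen_a (k + 1) k := h1 (by omega)
    exact h2

lemma Gen_hasSum_fun {x : ℝ} (hx0 : 0 ≤ x) (hx1 : x < 1) (N : ℕ) :
    HasSum (fun r : Fin N → ℕ => x ^ (∑ i, r i * (2 ^ ((i : ℕ) + 1) - 1)))
      (∏ i ∈ Finset.range N, (1 - x ^ (2 ^ (i + 1) - 1)))⁻¹ := by
  induction N with
  | zero =>
    have := hasSum_unique (fun r : Fin 0 → ℕ => x ^ (∑ i, r i * (2 ^ ((i : ℕ) + 1) - 1)))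
    simp
  | succ N ih =>
    have hw : x ^ (2 ^ (N + 1) - 1) < 1 := by
      have := Gen_w_pos N
      exact pow_lt_one₀ hx0 hx1 (by omega)
    have hg : HasSum (fun m : ℕ => (x ^ (2 ^ (N + 1) - 1)) ^ m) (1 - x ^ (2 ^ (N + 1) - 1))⁻¹ :=
      hasSum_geometric_of_lt_one (pow_nonneg hx0 _) hw
    have hs : Summable (fun p : ℕ × (Fin N → ℕ) => (x ^ (2 ^ (N + 1) - 1)) ^ p.1 *
        x ^ (∑ i, p.2 i * (2 ^ ((i : ℕ) + 1) - 1))) :=
      hg.summable.mul_of_nonneg ih.summable (fun m => pow_nonneg (pow_nonneg hx0 _) _)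
        (fun r => pow_nonneg hx0 _)
    have hm := hg.mul ih hs
    rw [← (Fin.snocEquiv (fun _ : Fin (N + 1) => ℕ)).hasSum_iff]
    rw [Finset.prod_range_succ, mul_inv_rev]
    have he : ((fun r : Fin (N + 1) → ℕ => x ^ (∑ i, r i * (2 ^ ((i : ℕ) + 1) - 1))) ∘
        (Fin.snocEquiv (fun _ : Fin (N + 1) => ℕ))) = fun p : ℕ × (Fin N → ℕ) =>
        (x ^ (2 ^ (N + 1) - 1)) ^ p.1 * x ^ (∑ i, p.2 i * (2 ^ ((i : ℕ) + 1) - 1)) := by
      funext p
      simp only [Function.comp, Fin.snocEquiv, Equiv.coe_fn_mk]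
      rw [Fin.sum_univ_castSucc]
      simp only [Fin.snoc_castSucc, Fin.snoc_last, Fin.val_castSucc, Fin.val_last]
      rw [pow_add, mul_comm, ← pow_mul, mul_comm p.1]
    rw [he]
    exact hm

lemma Gen_hasSum_a {x : ℝ} (hx0 : 0 ≤ x) (hx1 : x < 1) (N : ℕ) :
    HasSum (fun k => (Gen_a N k : ℝ) * x ^ k)
      (∏ i ∈ Finset.range N, (1 - x ^ (2 ^ (i + 1) - 1)))⁻¹ := by
  have h := (Gen_hasSum_fun hx0 hx1 N).tsum_fiberwise
    (fun r : Fin N → ℕ => ∑ i, r i * (2 ^ ((i : ℕ) + 1) - 1))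
  refine h.congr_fun ?_
  intro k
  have h1 : ∀ b : ((fun r : Fin N → ℕ => ∑ i, r i * (2 ^ ((i : ℕ) + 1) - 1)) ⁻¹' {k} :
      Set (Fin N → ℕ)), x ^ (∑ i, (b : Fin N → ℕ) i * (2 ^ ((i : ℕ) + 1) - 1)) = x ^ k := by
    intro b
    have : ∑ i, (b : Fin N → ℕ) i * (2 ^ ((i : ℕ) + 1) - 1) = k := b.2
    rw [this]
  rw [tsum_congr h1, tsum_const, nsmul_eq_mul]
  rfl

theorem gen : GenStmt := by
  intro x hx0 hx1
  have hxw : ∀ i : ℕ, x ^ (2 ^ (i + 1) - 1) ≤ x ^ i := by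
    intro i
    have := Gen_w_pos i
    exact pow_le_pow_of_le_one hx0 hx1.le (by omega)
  have hxw1 : ∀ i : ℕ, x ^ (2 ^ (i + 1) - 1) < 1 := by
    intro i
    have := Gen_w_pos i
    exact pow_lt_one₀ hx0 hx1 (by omega)
  have hsum : Summable (fun i : ℕ => -x ^ (2 ^ (i + 1) - 1)) :=
    (Summable.of_nonneg_of_le (fun i => pow_nonneg hx0 _) hxw
      (summable_geometric_of_lt_one hx0 hx1)).neg
  have hlog : Summable (fun i : ℕ => Real.log (1 - x ^ (2 ^ (i + 1) - 1))) := by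
    have := Real.summable_log_one_add_of_summable hsum
    simpa [sub_eq_add_neg] using this
  have hpos : ∀ i : ℕ, 0 < 1 - x ^ (2 ^ (i + 1) - 1) := fun i => sub_pos.2 (hxw1 i)
  have hphi : 0 < phi x := by
    rw [phi, ← Real.rexp_tsum_eq_tprod hpos hlog]
    exact Real.exp_pos _
  refine ⟨hphi, ?_⟩
  have hmul : Multipliable (fun i : ℕ => 1 - x ^ (2 ^ (i + 1) - 1)) :=
    Real.multipliable_of_summable_log hpos hlog
  have hlim : Tendsto (fun N => (∏ i ∈ Finset.range N, (1 - x ^ (2 ^ (i + 1) - 1)))⁻¹) atTop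
      (𝓝 (phi x)⁻¹) := (hmul.hasProd.tendsto_prod_nat).inv₀ hphi.ne'
  have hnn : ∀ k, 0 ≤ (pcount k : ℝ) * x ^ k := fun k => mul_nonneg (Nat.cast_nonneg _)
    (pow_nonneg hx0 _)
  have hpart : ∀ N, ∑ k ∈ Finset.range N, (pcount k : ℝ) * x ^ k ≤
      (∏ i ∈ Finset.range N, (1 - x ^ (2 ^ (i + 1) - 1)))⁻¹ := by
    intro N
    have h1 : ∑ k ∈ Finset.range N, (pcount k : ℝ) * x ^ k =
        ∑ k ∈ Finset.range N, (Gen_a N k : ℝ) * x ^ k := by
      refine Finset.sum_congr rfl fun k hk => ?_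
      rw [Gen_a_eq (Finset.mem_range.1 hk)]
    rw [h1]
    exact sum_le_hasSum _ (fun k _ => mul_nonneg (Nat.cast_nonneg _) (pow_nonneg hx0 _))
      (Gen_hasSum_a hx0 hx1 N)
  obtain ⟨B, hB⟩ := hlim.bddAbove_range
  have hsummable : Summable (fun k => (pcount k : ℝ) * x ^ k) := by
    refine summable_of_sum_range_le (c := B) hnn fun N => ?_
    exact (hpart N).trans (hB ⟨N, rfl⟩)
  have h1 : ∑' k, (pcount k : ℝ) * x ^ k ≤ (phi x)⁻¹ :=
    le_of_tendsto_of_tendsto' hsummable.hasSum.tendsto_sum_nat hlim hpart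
  have h2 : (phi x)⁻¹ ≤ ∑' k, (pcount k : ℝ) * x ^ k := by
    refine le_of_tendsto' hlim fun N => ?_
    refine hasSum_le (fun k => ?_) (Gen_hasSum_a hx0 hx1 N) hsummable.hasSum
    exact mul_le_mul_of_nonneg_right (by exact_mod_cast Gen_a_le N k) (pow_nonneg hx0 _)
  rw [← le_antisymm h1 h2]
  exact hsummable.hasSum

end Pool.Agent.Lib_helper74.Hit
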