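import Pool.Agent.Lib_helper74.Hit.Stmts

/-! Module INF: the normalised Poincare series get below `phi + delta`. -/

namespace Pool.Agent.Lib_helper74.Hit

open Filter Topology

namespace InfAux

variable {b h : ℕ → ℕ → ℕ} {A : ℕ → ℕ}

theorem summable_b (hs : Sys b h A) (hd : DimStmt) {t : ℝ} (ht0 : 0 ≤ t) (ht1 : t < 1) (s : ℕ) :
    Summable (fun i => (b s i : ℝ) * t ^ i) := by
  refine Summable.of_nonneg_of_le (fun i => by positivity) (fun i => ?_)
    (hd.2.1 s t ht0 ht1).summable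
  have := hs.le s i
  gcongr

/-- The shifted coefficient. -/
def g (h : ℕ → ℕ → ℕ) (a i : ℕ) : ℕ := if a ≤ i then h a (i - a) else 0

theorem g_le (hs : Sys b h A) (a i : ℕ) : g h a i ≤ pdim a i := by
  unfold g
  split_ifs with hh
  · exact hs.hle a i hh
  · exact Nat.zero_le _

theorem summable_g (hs : Sys b h A) (hd : DimStmt) {t : ℝ} (ht0 : 0 ≤ t) (ht1 : t < 1) (a : ℕ) :
    Summable (fun i => (g h a i : ℝ) * t ^ i) := by
  refine Summable.of_nonneg_of_le (fun i => by positivity) (fun i => ?_)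
    (hd.2.1 a t ht0 ht1).summable
  have := g_le hs a i
  gcongr

theorem cauchy {u v : ℕ → ℕ} {t : ℝ} (ht0 : 0 ≤ t)
    (hu : Summable (fun i => (u i : ℝ) * t ^ i)) (hv : Summable (fun i => (v i : ℝ) * t ^ i)) :
    HasSum (fun n => ((∑ i ∈ Finset.range (n + 1), u i * v (n - i) : ℕ) : ℝ) * t ^ n)
      ((∑' i, (u i : ℝ) * t ^ i) * ∑' i, (v i : ℝ) * t ^ i) := by
  have hu' : Summable (fun i => ‖(u i : ℝ) * t ^ i‖) := by
    refine hu.congr (fun i => ?_)
    rw [Real.norm_of_nonneg (by positivity)]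
  have hv' : Summable (fun i => ‖(v i : ℝ) * t ^ i‖) := by
    refine hv.congr (fun i => ?_)
    rw [Real.norm_of_nonneg (by positivity)]
  have h1 := summable_norm_sum_mul_range_of_summable_norm hu' hv'
  have h2 := tsum_mul_tsum_eq_tsum_sum_range_of_summable_norm hu' hv'
  have h3 : (fun n => ((∑ i ∈ Finset.range (n + 1), u i * v (n - i) : ℕ) : ℝ) * t ^ n) =
      fun n => ∑ k ∈ Finset.range (n + 1), ((u k : ℝ) * t ^ k) * ((v (n - k) : ℝ) * t ^ (n - k)) := by
    funext n
    push_cast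
    rw [Finset.sum_mul]
    refine Finset.sum_congr rfl (fun i hi => ?_)
    have hi' : i ≤ n := Nat.lt_succ_iff.mp (Finset.mem_range.mp hi)
    have : t ^ n = t ^ i * t ^ (n - i) := by rw [← pow_add]; congr 1; omega
    rw [this]; ring
  rw [h3, h2]
  exact h1.of_norm.hasSum

theorem shift {u : ℕ → ℝ} {a : ℕ} {S : ℝ} (hS : HasSum (fun n => u (n + a)) S)
    (h0 : ∀ n, n < a → u n = 0) : HasSum u S := by
  have := (hasSum_nat_add_iff a).mp hS
  rwa [Finset.sum_eq_zero (fun i hi => h0 i (Finset.mem_range.mp hi)), add_zero] at this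

/-- The key inequality of generating functions. -/
theorem key (hs : Sys b h A) (hd : DimStmt) {t : ℝ} (ht0 : 0 ≤ t) (ht1 : t < 1) (a l : ℕ) :
    (∑' i, (b (a + l) i : ℝ) * t ^ i) +
      (∑' i, (g h a i : ℝ) * t ^ i) * (∑' i, (b l i : ℝ) * t ^ i) ≤
      t ^ a * ((1 - t) ^ l)⁻¹ + ((1 - t) ^ a)⁻¹ * (∑' i, (b l i : ℝ) * t ^ i) := by
  have e1 := (summable_b hs hd ht0 ht1 (a + l)).hasSum
  have e2 := cauchy ht0 (summable_g hs hd ht0 ht1 a) (summable_b hs hd ht0 ht1 l)
  have e3 := cauchy ht0 (hd.2.1 a t ht0 ht1).summable (summable_b hs hd ht0 ht1 l)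
  rw [(hd.2.1 a t ht0 ht1).tsum_eq] at e3
  have e4 : HasSum (fun n => ((if a ≤ n then pdim l (n - a) else 0 : ℕ) : ℝ) * t ^ n)
      (t ^ a * ((1 - t) ^ l)⁻¹) := by
    apply shift (a := a)
    · have h5 := (hd.2.1 l t ht0 ht1).mul_left (t ^ a)
      have h6 : (fun n => ((if a ≤ n + a then pdim l (n + a - a) else 0 : ℕ) : ℝ) * t ^ (n + a)) =
          fun n => t ^ a * ((pdim l n : ℝ) * t ^ n) := by
        funext n
        rw [if_pos (by omega), Nat.add_sub_cancel, pow_add]
        ring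
      rw [h6]
      exact h5
    · intro n hn
      rw [if_neg (by omega)]
      simp
  have e5 := e1.add e2
  have e6 := e4.add e3
  refine hasSum_le (fun n => ?_) e5 e6
  have := hs.diamond a l n
  have h' : ((b (a + l) n +
        ∑ i ∈ Finset.range (n + 1), g h a i * b l (n - i) : ℕ) : ℝ) ≤
        (((if a ≤ n then pdim l (n - a) else 0) +
          ∑ i ∈ Finset.range (n + 1), pdim a i * b l (n - i) : ℕ) : ℝ) := by
    exact_mod_cast this
  have h'' := mul_le_mul_of_nonneg_right h' (pow_nonneg ht0 n)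
  push_cast at h'' ⊢
  linarith [h'']

/-- `t ^ a * H_a(t)` with `H_a` at least the partial sum of the series of `A`. -/
theorem g_ge (hs : Sys b h A) (hd : DimStmt) {t : ℝ} (ht0 : 0 ≤ t) (ht1 : t < 1) (a N : ℕ)
    (hN : N ≤ a) :
    t ^ a * ∑ k ∈ Finset.range N, (A k : ℝ) * t ^ k ≤ ∑' i, (g h a i : ℝ) * t ^ i := by
  have hsum := summable_g hs hd ht0 ht1 a
  have h1 : ∑ i ∈ (Finset.range N).image (fun k => k + a), (g h a i : ℝ) * t ^ i ≤
      ∑' i, (g h a i : ℝ) * t ^ i :=
    hsum.sum_le_tsum _ (fun i _ => by positivity)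
  refine le_trans ?_ h1
  rw [Finset.sum_image (fun x _ y _ hxy => by simpa using hxy), Finset.mul_sum]
  refine Finset.sum_le_sum (fun k hk => ?_)
  have hk' : k ≤ a := (Finset.mem_range.mp hk).le.trans hN
  have hge := hs.ge a k hk'
  have hg : g h a (k + a) = h a k := by
    unfold g
    rw [if_pos (by omega), Nat.add_sub_cancel]
  rw [hg, pow_add]
  have hc : (A k : ℝ) ≤ (h a k : ℝ) := by exact_mod_cast hge
  have hp : 0 ≤ t ^ k * t ^ a := by positivity
  calc t ^ a * ((A k : ℝ) * t ^ k) = (A k : ℝ) * (t ^ k * t ^ a) := by ring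
    _ ≤ (h a k : ℝ) * (t ^ k * t ^ a) := mul_le_mul_of_nonneg_right hc hp

theorem g_le' (hs : Sys b h A) (hd : DimStmt) {t : ℝ} (ht0 : 0 ≤ t) (ht1 : t < 1) (a : ℕ) :
    ∑' i, (g h a i : ℝ) * t ^ i ≤ ((1 - t) ^ a)⁻¹ := by
  refine hasSum_le (fun i => ?_) (summable_g hs hd ht0 ht1 a).hasSum (hd.2.1 a t ht0 ht1)
  have := g_le hs a i
  gcongr

end InfAux

open InfAux in
theorem infStmt (hd : DimStmt) : InfStmt := by
  intro b h A hs t ht0 ht1 δ hδ
  obtain ⟨hphi, hgen⟩ := hs.gen t ht0 ht1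
  -- a partial sum of the series of `A` above `1 / (phi t + δ / 2)`
  have hlt : (phi t + δ / 2)⁻¹ < (phi t)⁻¹ := by
    apply inv_strictAnti₀ hphi
    linarith
  obtain ⟨N, hN⟩ := ((hgen.tendsto_sum_nat).eventually (lt_mem_nhds hlt)).exists
  rcases eq_or_lt_of_le ht0 with h0 | hpos
  · -- the case `t = 0`
    subst h0
    refine ⟨0, ?_⟩
    have h1 : ∑' i, (b 0 i : ℝ) * (0 : ℝ) ^ i = b 0 0 := by
      rw [tsum_eq_single 0]
      · simp
      · intro i hi
        simp [hi]
    have h2 : b 0 0 ≤ 1 := by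
      have := hs.le 0 0
      simpa [pdim] using this
    have h3 : phi 0 = 1 := by
      unfold phi
      have : ∀ i : ℕ, (1 : ℝ) - 0 ^ (2 ^ (i + 1) - 1) = 1 := by
        intro i
        have h4 : 2 ^ (i + 1) - 1 ≠ 0 := by
          have : 2 ≤ 2 ^ (i + 1) := by
            rw [pow_succ]
            have := Nat.one_le_two_pow (n := i)
            omega
          omega
        rw [zero_pow h4, sub_zero]
      simp [this]
    rw [h1, h3]
    have : (b 0 0 : ℝ) ≤ 1 := by exact_mod_cast h2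
    simp only [pow_zero, one_mul]
    linarith
  · -- the case `0 < t`
    set a := N with ha
    set G : ℝ := ∑' i, (g h a i : ℝ) * t ^ i with hG
    have hG1 : t ^ a * (phi t + δ / 2)⁻¹ ≤ G := by
      refine le_trans ?_ (g_ge hs hd ht0 ht1 a N le_rfl)
      exact mul_le_mul_of_nonneg_left hN.le (by positivity)
    have hG2 : G ≤ ((1 - t) ^ a)⁻¹ := g_le' hs hd ht0 ht1 a
    have h1t : 0 < 1 - t := by linarith
    have hphi2 : 0 < phi t + δ / 2 := by linarith
    have hGpos : 0 < G := lt_of_lt_of_le (by positivity) hG1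
    -- `F l = (1 - t) ^ l * B_l`
    set F : ℕ → ℝ := fun l => (1 - t) ^ l * ∑' i, (b l i : ℝ) * t ^ i with hF
    have hrec : ∀ l, F (a + l) ≤ (1 - t) ^ a * t ^ a + (1 - (1 - t) ^ a * G) * F l := by
      intro l
      have hk := key hs hd ht0 ht1 a l
      have hm := mul_le_mul_of_nonneg_left hk (pow_nonneg h1t.le (a + l))
      have hne : (1 - t) ≠ 0 := h1t.ne'
      have r1 : (1 - t) ^ (a + l) * (t ^ a * ((1 - t) ^ l)⁻¹ +
          ((1 - t) ^ a)⁻¹ * (∑' i, (b l i : ℝ) * t ^ i)) =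
          (1 - t) ^ a * t ^ a + (1 - t) ^ l * (∑' i, (b l i : ℝ) * t ^ i) := by
        rw [pow_add]
        field_simp
      rw [r1] at hm
      have r2 : (1 - t) ^ (a + l) * ((∑' i, (b (a + l) i : ℝ) * t ^ i) +
          (∑' i, (g h a i : ℝ) * t ^ i) * (∑' i, (b l i : ℝ) * t ^ i)) =
          F (a + l) + (1 - t) ^ a * G * F l := by
        simp only [hF, hG]
        rw [pow_add]
        ring
      rw [r2] at hm
      have : F l = (1 - t) ^ l * (∑' i, (b l i : ℝ) * t ^ i) := rfl
      rw [← this] at hm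
      linarith
    set c : ℝ := (1 - t) ^ a * G with hc
    have hc0 : 0 < c := by positivity
    have hc1 : c ≤ 1 := by
      have := mul_le_mul_of_nonneg_left hG2 (pow_nonneg h1t.le a)
      rwa [mul_inv_cancel₀ (by positivity)] at this
    -- fixed point
    set x₀ : ℝ := t ^ a / G with hx0
    have hx1 : x₀ ≤ phi t + δ / 2 := by
      rw [hx0, div_le_iff₀ hGpos]
      have := mul_le_mul_of_nonneg_left hG1 hphi2.le
      have e : (phi t + δ / 2) * (t ^ a * (phi t + δ / 2)⁻¹) = t ^ a := by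
        field_simp
      linarith [this, e.symm.le, e.le]
    have hfix : (1 - t) ^ a * t ^ a = c * x₀ := by
      rw [hc, hx0]
      field_simp
    have hiter : ∀ m : ℕ, F (m * a) - x₀ ≤ (1 - c) ^ m * (F 0 - x₀) := by
      intro m
      induction m with
      | zero => simp
      | succ m ih =>
        have e1 : (m + 1) * a = a + m * a := by ring
        have h2 := hrec (m * a)
        rw [hfix] at h2
        have h3 : F ((m + 1) * a) - x₀ ≤ (1 - c) * (F (m * a) - x₀) := by
          rw [e1]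
          linarith
        refine h3.trans ?_
        rw [pow_succ']
        rw [mul_assoc]
        exact mul_le_mul_of_nonneg_left ih (by linarith)
    have hlim : Tendsto (fun m : ℕ => (1 - c) ^ m * (F 0 - x₀)) atTop (𝓝 0) := by
      have := (tendsto_pow_atTop_nhds_zero_of_lt_one (r := 1 - c) (by linarith)
        (by linarith)).mul_const (F 0 - x₀)
      simpa using this
    obtain ⟨m, hm⟩ := (hlim.eventually (gt_mem_nhds (show (0 : ℝ) < δ / 2 by linarith))).exists
    refine ⟨m * a, ?_⟩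
    have h4 := hiter m
    show F (m * a) ≤ phi t + δ
    linarith

end Pool.Agent.Lib_helper74.Hit
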