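import Pool.Agent.Lib_helper74.Hit.Stmts

/-! Module LOWER of the hit problem. -/

namespace Pool.Agent.Lib_helper74.Hit

open Filter Topology Finset

theorem lower_shift_tendsto {ι : Type} {F : Filter ι} {d n : ι → ℕ} {t : ℝ}
    (hd : Tendsto d F atTop) (ht : Tendsto (fun x => (n x : ℝ) / (n x + d x)) F (𝓝 t)) (i : ℕ) :
    Tendsto (fun x => ((n x - i : ℕ) : ℝ) / (((n x - i : ℕ) : ℝ) + d x)) F (𝓝 t) := by
  have h1 : Tendsto (fun x => (i : ℝ) / (d x : ℝ)) F (𝓝 0) :=
    Tendsto.div_atTop tendsto_const_nhds (tendsto_natCast_atTop_atTop.comp hd)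
  have h2 : Tendsto (fun x => ((n x - i : ℕ) : ℝ) / (((n x - i : ℕ) : ℝ) + d x) -
      (n x : ℝ) / (n x + d x)) F (𝓝 0) := by
    refine squeeze_zero_norm' ?_ h1
    filter_upwards [hd.eventually_ge_atTop 1] with x hx
    have hdx : (1 : ℝ) ≤ d x := by exact_mod_cast hx
    have hm : ((n x - i : ℕ) : ℝ) ≤ n x := by exact_mod_cast Nat.sub_le _ _
    have hm2 : (n x : ℝ) ≤ ((n x - i : ℕ) : ℝ) + i := by
      have : n x ≤ (n x - i) + i := by omega
      exact_mod_cast this
    set m : ℝ := ((n x - i : ℕ) : ℝ) with hmdef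
    have hm0 : 0 ≤ m := by rw [hmdef]; positivity
    have hn0 : (0 : ℝ) ≤ n x := by positivity
    have hi0 : (0 : ℝ) ≤ i := by positivity
    have e1 : m / (m + d x) - (n x : ℝ) / (n x + d x) =
        -(((n x : ℝ) - m) * d x) / ((m + d x) * (n x + d x)) := by
      field_simp
      ring
    rw [e1, Real.norm_eq_abs, abs_div, abs_neg, abs_of_nonneg (by nlinarith),
      abs_of_pos (by positivity), div_le_div_iff₀ (by positivity) (by positivity)]
    have h3 : ((n x : ℝ) - m) * d x ≤ i * d x := by nlinarith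
    have h4 : (d x : ℝ) * d x ≤ (m + d x) * (n x + d x) := by nlinarith
    calc ((n x : ℝ) - m) * d x * d x ≤ i * d x * d x := by nlinarith
      _ = i * ((d x : ℝ) * d x) := by ring
      _ ≤ i * ((m + d x) * (n x + d x)) := by gcongr
  have h3 := h2.add ht
  simpa using h3

theorem lower_aux (hdim : DimStmt) (hr : RatioStmt) (hu : UpperStmt) : LowerStmt := by
  intro b h A hS ι F d n t hd ht ht0 ht1 δ hδ
  obtain ⟨hφ, hsumt⟩ := hS.gen t ht0 ht1
  set φ := phi t with hφdef
  set r : ℝ := (t + 1) / 2 with hrdef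
  have hr0 : 0 ≤ r := by rw [hrdef]; linarith
  have htr : t < r := by rw [hrdef]; linarith
  have hr1 : r < 1 := by rw [hrdef]; linarith
  obtain ⟨_, hsumr⟩ := hS.gen r hr0 hr1
  -- `A 0 = 1`
  have hA0 : A 0 ≤ 1 := by
    have h1 := hS.ge 0 0 le_rfl
    have h2 := hS.hle 0 0 le_rfl
    simp [pdim] at h2
    omega
  have hA1 : 1 ≤ A 0 := by
    have h1 := hS.spade 1 0
    simp [pdim] at h1
    by_contra h0
    have : A 0 = 0 := by omega
    rw [this] at h1
    simp at h1
  have hA : A 0 = 1 := le_antisymm hA0 hA1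
  -- choice of `η`
  set K : ℝ := φ + 1 / φ + 1 with hK
  have hKpos : 0 < K := by positivity
  obtain ⟨η, hη0, hη1, hη2⟩ : ∃ η : ℝ, 0 < η ∧ η ≤ 1 ∧ η * K ≤ δ := by
    refine ⟨min 1 (δ / K), by positivity, min_le_left _ _, ?_⟩
    calc min 1 (δ / K) * K ≤ δ / K * K := by gcongr; exact min_le_right _ _
      _ = δ := by field_simp
  -- choice of `I`
  obtain ⟨I, hI1, hI⟩ : ∃ I : ℕ, 1 ≤ I ∧
      (phi r)⁻¹ - ∑ i ∈ range I, (A i : ℝ) * r ^ i < η := by
    have h1 := hsumr.tendsto_sum_nat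
    have h2 : ∀ᶠ I in atTop, (phi r)⁻¹ - η < ∑ i ∈ range I, (A i : ℝ) * r ^ i :=
      h1.eventually (lt_mem_nhds (by linarith))
    obtain ⟨I, h3, h4⟩ := ((eventually_ge_atTop 1).and h2).exists
    exact ⟨I, h3, by linarith⟩
  -- eventual bounds
  have ev1 : ∀ᶠ x in F, ∀ i ∈ Ico 1 I,
      (b (d x) (n x - i) : ℝ) ≤ (φ + η) * pdim (d x) (n x - i) := by
    rw [Filter.eventually_all_finset]
    intro i _
    exact hu b h A hS ι F d (fun x => n x - i) t hd (lower_shift_tendsto hd ht i) ht0 ht1 η hη0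
  have ev2 : ∀ᶠ x in F, ∑ i ∈ Ico 1 I, (A i : ℝ) * ratio 0 i (d x) (n x) < 1 / φ - 1 + η := by
    have h1 : Tendsto (fun x => ∑ i ∈ Ico 1 I, (A i : ℝ) * ratio 0 i (d x) (n x)) F
        (𝓝 (∑ i ∈ Ico 1 I, (A i : ℝ) * t ^ i)) := by
      refine tendsto_finsetSum _ (fun i _ => ?_)
      have h2 := hr.2 ι F d n t hd ht 0 i
      rw [pow_zero, mul_one] at h2
      exact h2.const_mul _
    have h3 : ∑ i ∈ Ico 1 I, (A i : ℝ) * t ^ i ≤ 1 / φ - 1 := by
      have h4 : ∑ i ∈ range I, (A i : ℝ) * t ^ i ≤ φ⁻¹ :=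
        sum_le_hasSum _ (fun i _ => by positivity) hsumt
      rw [range_eq_Ico, sum_eq_sum_Ico_succ_bot (by omega), hA] at h4
      simp only [Nat.cast_one, pow_zero, mul_one, zero_add] at h4
      rw [one_div]
      linarith
    exact h1.eventually (gt_mem_nhds (by linarith))
  have ev3 : ∀ᶠ x in F, (n x : ℝ) / ((n x : ℝ) + d x - 1) ≤ r := by
    set r' : ℝ := (t + r) / 2 with hr'
    have h1 : ∀ᶠ x in F, (n x : ℝ) / (n x + d x) < r' :=
      ht.eventually (gt_mem_nhds (by rw [hr']; linarith))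
    have hrr : r' < r := by rw [hr']; linarith
    have h2 : Tendsto (fun x => (d x : ℝ)) F atTop := tendsto_natCast_atTop_atTop.comp hd
    filter_upwards [h1, h2.eventually_ge_atTop (r / (r - r')), hd.eventually_ge_atTop 2]
      with x hx1 hx2 hx3
    have hx3' : (2 : ℝ) ≤ d x := by exact_mod_cast hx3
    have hn0 : (0 : ℝ) ≤ n x := by positivity
    rw [div_lt_iff₀ (by linarith)] at hx1
    rw [div_le_iff₀ (by linarith)] at hx2
    rw [div_le_iff₀ (by linarith)]
    nlinarith
  filter_upwards [ev1, ev2, ev3, hd.eventually_ge_atTop 1] with x h1 h2 h3 h4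
  have hp : 0 < pdim (d x) (n x) := hdim.1 _ _ h4
  have hpR : (0 : ℝ) < pdim (d x) (n x) := by exact_mod_cast hp
  set p : ℝ := (pdim (d x) (n x) : ℝ) with hpdef
  have hsp : p ≤ ∑ i ∈ range (n x + 1), (A i : ℝ) * b (d x) (n x - i) := by
    have := hS.spade (d x) (n x)
    rw [hpdef]
    exact_mod_cast this
  -- split of the sum
  have hsplit : ∑ i ∈ range (n x + 1), (A i : ℝ) * b (d x) (n x - i) ≤
      (A 0 : ℝ) * b (d x) (n x) + ∑ i ∈ Ico 1 I, (A i : ℝ) * ((φ + η) * (ratio 0 i (d x) (n x) * p))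
        + ∑ i ∈ (range (n x + 1)).filter (fun i => I ≤ i), (A i : ℝ) * (r ^ i * p) := by
    have g1 : ∑ i ∈ range (n x + 1), (A i : ℝ) * b (d x) (n x - i) =
        (∑ i ∈ (range (n x + 1)).filter (fun i => ¬ I ≤ i), (A i : ℝ) * b (d x) (n x - i)) +
        ∑ i ∈ (range (n x + 1)).filter (fun i => I ≤ i), (A i : ℝ) * b (d x) (n x - i) := by
      rw [← sum_filter_add_sum_filter_not (range (n x + 1)) (fun i => I ≤ i)]
      exact add_comm _ _
    rw [g1]
    refine add_le_add ?_ ?_
    · have g2 : (range (n x + 1)).filter (fun i => ¬ I ≤ i) =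
          insert 0 ((Ico 1 I).filter (fun i => i ≤ n x)) := by
        ext i
        simp only [mem_filter, mem_range, mem_insert, mem_Ico]
        omega
      rw [g2, sum_insert (by simp)]
      refine add_le_add (by simp) ?_
      calc ∑ i ∈ (Ico 1 I).filter (fun i => i ≤ n x), (A i : ℝ) * b (d x) (n x - i)
          ≤ ∑ i ∈ (Ico 1 I).filter (fun i => i ≤ n x),
              (A i : ℝ) * ((φ + η) * (ratio 0 i (d x) (n x) * p)) := by
            refine sum_le_sum (fun i hi => ?_)
            rw [mem_filter] at hi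
            have g3 := h1 i hi.1
            have g4 : ratio 0 i (d x) (n x) * p = pdim (d x) (n x - i) := by
              rw [ratio, if_pos hi.2, Nat.sub_zero, hpdef]
              field_simp
            rw [g4]
            gcongr
        _ ≤ _ := by
            refine sum_le_sum_of_subset_of_nonneg (filter_subset _ _) (fun i _ _ => ?_)
            have g5 := (hr.1 0 i (d x) (n x) (by omega)).1
            positivity
    · refine sum_le_sum (fun i hi => ?_)
      rw [mem_filter, mem_range] at hi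
      have hin : i ≤ n x := by omega
      have g3 : (b (d x) (n x - i) : ℝ) ≤ pdim (d x) (n x - i) := by
        exact_mod_cast hS.le _ _
      have g4 : (pdim (d x) (n x - i) : ℝ) = ratio 0 i (d x) (n x) * p := by
        rw [ratio, if_pos hin, Nat.sub_zero, hpdef]
        field_simp
      have g5 := (hr.1 0 i (d x) (n x) (by omega)).2
      have hd1 : (1 : ℝ) ≤ d x := by exact_mod_cast h4
      have g6 : ((n x : ℝ) / ((n x : ℝ) + d x - 1)) ^ i ≤ r ^ i := by
        apply pow_le_pow_left₀ _ h3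
        apply div_nonneg (by positivity)
        have : (0 : ℝ) ≤ n x := by positivity
        linarith
      have g7 : (b (d x) (n x - i) : ℝ) ≤ r ^ i * p := by
        rw [g4] at g3
        refine g3.trans ?_
        gcongr
        exact g5.trans g6
      gcongr
  have htail : ∑ i ∈ (range (n x + 1)).filter (fun i => I ≤ i), (A i : ℝ) * (r ^ i * p) ≤ η * p := by
    have g1 : ∑ i ∈ (range (n x + 1)).filter (fun i => I ≤ i), (A i : ℝ) * (r ^ i * p) =
        (∑ i ∈ (range (n x + 1)).filter (fun i => I ≤ i), (A i : ℝ) * r ^ i) * p := by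
      rw [sum_mul]
      exact sum_congr rfl (fun i _ => by ring)
    rw [g1]
    have g2 : ∑ i ∈ range I, (A i : ℝ) * r ^ i +
        ∑ i ∈ (range (n x + 1)).filter (fun i => I ≤ i), (A i : ℝ) * r ^ i ≤ (phi r)⁻¹ := by
      rw [← sum_union]
      · exact sum_le_hasSum _ (fun i _ => by positivity) hsumr
      · rw [disjoint_left]
        intro i hi hi'
        rw [mem_range] at hi
        rw [mem_filter] at hi'
        omega
    have g3 : ∑ i ∈ (range (n x + 1)).filter (fun i => I ≤ i), (A i : ℝ) * r ^ i ≤ η := by linarith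
    exact mul_le_mul_of_nonneg_right g3 hpR.le
  have hmid : ∑ i ∈ Ico 1 I, (A i : ℝ) * ((φ + η) * (ratio 0 i (d x) (n x) * p)) ≤
      (φ + η) * (1 / φ - 1 + η) * p := by
    have g1 : ∑ i ∈ Ico 1 I, (A i : ℝ) * ((φ + η) * (ratio 0 i (d x) (n x) * p)) =
        (φ + η) * (∑ i ∈ Ico 1 I, (A i : ℝ) * ratio 0 i (d x) (n x)) * p := by
      rw [mul_sum, sum_mul]
      exact sum_congr rfl (fun i _ => by ring)
    rw [g1]
    gcongr
  rw [hA] at hsplit
  have hfin : p ≤ (b (d x) (n x) : ℝ) + (φ + η) * (1 / φ - 1 + η) * p + η * p := by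
    have := hsp.trans hsplit
    simp only [Nat.cast_one, one_mul] at this
    linarith
  have hcalc : (φ + η) * (1 / φ - 1 + η) + η ≤ 1 - φ + δ := by
    have e1 : (φ + η) * (1 / φ - 1 + η) + η = 1 - φ + η * (φ + 1 / φ + η) := by
      field_simp
      ring
    rw [e1]
    have : η * (φ + 1 / φ + η) ≤ η * K := by
      rw [hK]
      gcongr
    linarith
  have : ((φ + η) * (1 / φ - 1 + η) + η) * p ≤ (1 - φ + δ) * p :=
    mul_le_mul_of_nonneg_right hcalc hpR.le
  nlinarith

theorem lowerStmt (hd : DimStmt) (hr : RatioStmt) (hu : UpperStmt) : LowerStmt :=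
  lower_aux hd hr hu

end Pool.Agent.Lib_helper74.Hit
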