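import Pool.Agent.Lib_helper74.Hit.Stmts

/-! Module ONE: the case where the degree is much larger than the number of variables. -/

namespace Pool.Agent.Lib_helper74.Hit

open Filter Topology

theorem pdim_mono_one (l : ℕ) {a b : ℕ} (hab : a ≤ b) : pdim (l + 1) a ≤ pdim (l + 1) b := by
  unfold pdim
  have h1 : ∀ m : ℕ, (m + (l + 1) - 1).choose m = (m + l).choose l := by
    intro m
    have : m + (l + 1) - 1 = m + l := by omega
    rw [this]
    have := Nat.choose_symm_add (a := m) (b := l)
    simpa using this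
  rw [h1, h1]
  exact Nat.choose_le_choose l (by omega)

theorem pdim_one_eq (i : ℕ) : pdim 1 i = 1 := by
  unfold pdim
  simp

theorem pdim_ratio_one (l n : ℕ) :
    pdim (l + 1) n * (n + l + 1) = pdim (l + 2) n * (l + 1) := by
  unfold pdim
  have h1 : n + (l + 1) - 1 = n + l := by omega
  have h2 : n + (l + 2) - 1 = n + l + 1 := by omega
  rw [h1, h2]
  have := Nat.choose_mul_succ_eq (n + l) n
  have h3 : n + l + 1 - n = l + 1 := by omega
  rw [h3] at this
  exact this

theorem oneStmt (hd : DimStmt) : OneStmt := by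
  intro b h A S ε hε
  obtain ⟨L, hL⟩ : ∃ L : ℕ, 4 * (1 / 2 : ℝ) ^ L < ε / 2 := by
    obtain ⟨L, hL⟩ := exists_pow_lt_of_lt_one (show 0 < ε / 8 by positivity)
      (show (1 / 2 : ℝ) < 1 by norm_num)
    exact ⟨L, by linarith⟩
  obtain ⟨C, hC1, hC⟩ : ∃ C : ℕ, 1 ≤ C ∧ (L : ℝ) / C ≤ ε / 2 := by
    refine ⟨⌈2 * (L : ℝ) / ε⌉₊ + 1, by omega, ?_⟩
    have h1 : 2 * (L : ℝ) / ε ≤ (⌈2 * (L : ℝ) / ε⌉₊ : ℝ) := Nat.le_ceil _
    have h2 : (0 : ℝ) < ((⌈2 * (L : ℝ) / ε⌉₊ + 1 : ℕ) : ℝ) := by positivity
    rw [div_le_iff₀ h2]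
    have h3 : 2 * (L : ℝ) ≤ ε * ⌈2 * (L : ℝ) / ε⌉₊ := by
      rw [div_le_iff₀ hε] at h1
      linarith
    push_cast
    nlinarith
  refine ⟨C, fun d n hd2 hn => ?_⟩
  obtain ⟨l, rfl⟩ : ∃ l, d = l + 2 := ⟨d - 2, by omega⟩
  set T : ℕ := pdim (l + 2) n with hT
  -- the terms
  let f : ℕ → ℕ := fun i => if i ≤ n then pdim (l + 1) (n - i) else 0
  have hfle : ∀ i, f i ≤ pdim (l + 1) n := by
    intro i
    by_cases hi : i ≤ n
    · simp only [f, hi, if_true]
      exact pdim_mono_one l (Nat.sub_le _ _)
    · simp only [f, hi, if_false]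
      exact Nat.zero_le _
  have hfanti : ∀ i j, i ≤ j → f j ≤ f i := by
    intro i j hij
    by_cases hj : j ≤ n
    · have hi : i ≤ n := hij.trans hj
      simp only [f, hi, hj, if_true]
      exact pdim_mono_one l (by omega)
    · simp only [f, hj, if_false]
      exact Nat.zero_le _
  have hTsum : T = ∑ i ∈ Finset.range (n + 1), f i := by
    rw [hT, hd.2.2 (l + 1) n]
    rw [← Finset.sum_range_reflect]
    apply Finset.sum_congr rfl
    intro i hi
    have : i ≤ n := by
      have := Finset.mem_range.mp hi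
      omega
    simp only [f, this, if_true]
    congr 1
  have hTsum' : ∀ s : Finset ℕ, ∑ i ∈ s, f i ≤ T := by
    intro s
    rw [hTsum]
    calc ∑ i ∈ s, f i = ∑ i ∈ s.filter (fun i => i ≤ n), f i := by
          symm
          apply Finset.sum_subset (Finset.filter_subset _ _)
          intro x hx hx'
          have : ¬ x ≤ n := by
            intro hxn
            exact hx' (Finset.mem_filter.mpr ⟨hx, hxn⟩)
          simp only [f, this, if_false]
      _ ≤ ∑ i ∈ Finset.range (n + 1), f i := by
          apply Finset.sum_le_sum_of_subset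
          intro x hx
          have := (Finset.mem_filter.mp hx).2
          exact Finset.mem_range.mpr (by omega)
  -- bound one
  have hB1 : ∀ i, (f i : ℝ) ≤ (T : ℝ) * (1 / C) := by
    intro i
    have h1 := pdim_ratio_one l n
    have h2 : C * (l + 1) ≤ n + l + 1 := by
      calc C * (l + 1) ≤ C * (l + 2) := Nat.mul_le_mul_left _ (by omega)
        _ ≤ n := hn
        _ ≤ n + l + 1 := by omega
    have h3 : f i * C * (l + 1) ≤ T * (l + 1) := by
      calc f i * C * (l + 1) = f i * (C * (l + 1)) := by ring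
        _ ≤ pdim (l + 1) n * (n + l + 1) := Nat.mul_le_mul (hfle i) h2
        _ = T * (l + 1) := h1
    have h4 : f i * C ≤ T := Nat.le_of_mul_le_mul_right h3 (by omega)
    have h5 : (f i : ℝ) * C ≤ T := by exact_mod_cast h4
    have hCpos : (0 : ℝ) < C := by exact_mod_cast hC1
    rw [mul_one_div, le_div_iff₀ hCpos]
    exact h5
  -- bound two
  have hB2 : ∀ e, (f (2 ^ e - 1) : ℝ) ≤ (T : ℝ) * (2 * (1 / 2) ^ e) := by
    intro e
    rcases Nat.eq_zero_or_pos e with rfl | he
    · have : f 0 ≤ T := by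
        have := hTsum' {0}
        simpa using this
      have h' : (f 0 : ℝ) ≤ T := by exact_mod_cast this
      have hT0 : (0 : ℝ) ≤ T := by positivity
      simp only [pow_zero, Nat.sub_self]
      linarith
    · obtain ⟨e', rfl⟩ : ∃ e', e = e' + 1 := ⟨e - 1, by omega⟩
      have h1 : 2 ^ e' * f (2 ^ (e' + 1) - 1) ≤ T := by
        calc 2 ^ e' * f (2 ^ (e' + 1) - 1)
            = ∑ i ∈ Finset.Ico (2 ^ e') (2 ^ (e' + 1)), f (2 ^ (e' + 1) - 1) := by
              rw [Finset.sum_const, Nat.card_Ico, smul_eq_mul]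
              congr 1
              rw [pow_succ]; omega
          _ ≤ ∑ i ∈ Finset.Ico (2 ^ e') (2 ^ (e' + 1)), f i := by
              apply Finset.sum_le_sum
              intro i hi
              apply hfanti
              have := (Finset.mem_Ico.mp hi).2
              omega
          _ ≤ T := hTsum' _
      have h2 : (2 : ℝ) ^ e' * f (2 ^ (e' + 1) - 1) ≤ T := by exact_mod_cast h1
      have h3 : (0 : ℝ) < 2 ^ e' := by positivity
      have h4 : (2 : ℝ) * (1 / 2) ^ (e' + 1) = 1 / 2 ^ e' := by
        rw [pow_succ, one_div_pow]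
        ring
      rw [h4, mul_one_div, le_div_iff₀ h3]
      linarith
  -- the sum
  have hsum : b (l + 2) n ≤ ∑ e ∈ Finset.range (n + 1), f (2 ^ e - 1) := by
    have h1 := S.sub 1 (l + 1) n
    have h2 : 1 + (l + 1) = l + 2 := by omega
    rw [h2] at h1
    refine h1.trans ?_
    calc ∑ i ∈ Finset.range (n + 1), b 1 i * pdim (l + 1) (n - i)
        ≤ ∑ i ∈ Finset.range (n + 1), (if b 1 i ≠ 0 then f i else 0) := by
          apply Finset.sum_le_sum
          intro i hi
          have hin : i ≤ n := by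
            have := Finset.mem_range.mp hi
            omega
          by_cases hb : b 1 i ≠ 0
          · simp only [hb, ne_eq, not_false_eq_true, if_true, f, hin]
            have : b 1 i ≤ 1 := (S.le 1 i).trans_eq (pdim_one_eq i)
            calc b 1 i * pdim (l + 1) (n - i) ≤ 1 * pdim (l + 1) (n - i) :=
                  Nat.mul_le_mul_right _ this
              _ = pdim (l + 1) (n - i) := one_mul _
          · have hb' : b 1 i = 0 := by
              by_contra hne
              exact hb hne
            simp [hb']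
      _ = ∑ i ∈ (Finset.range (n + 1)).filter (fun i => b 1 i ≠ 0), f i := by
          rw [Finset.sum_filter]
      _ ≤ ∑ i ∈ (Finset.range (n + 1)).image (fun e => 2 ^ e - 1), f i := by
          apply Finset.sum_le_sum_of_subset
          intro i hi
          obtain ⟨hi1, hi2⟩ := Finset.mem_filter.mp hi
          obtain ⟨e, he⟩ := S.one i hi2
          rw [Finset.mem_image]
          refine ⟨e, ?_, by omega⟩
          have h3 : e < 2 ^ e := Nat.lt_two_pow_self
          have h4 := Finset.mem_range.mp hi1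
          exact Finset.mem_range.mpr (by omega)
      _ = ∑ e ∈ Finset.range (n + 1), f (2 ^ e - 1) := by
          apply Finset.sum_image
          intro x _ y _ hxy
          have hx : 1 ≤ 2 ^ x := Nat.one_le_two_pow
          have hy : 1 ≤ 2 ^ y := Nat.one_le_two_pow
          have hxy' : 2 ^ x - 1 = 2 ^ y - 1 := hxy
          have : 2 ^ x = 2 ^ y := by omega
          exact Nat.pow_right_injective (le_refl 2) this
  have hsumR : (b (l + 2) n : ℝ) ≤ ∑ e ∈ Finset.range (n + 1), (f (2 ^ e - 1) : ℝ) := by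
    exact_mod_cast hsum
  refine hsumR.trans ?_
  have hT0 : (0 : ℝ) ≤ T := by positivity
  calc ∑ e ∈ Finset.range (n + 1), (f (2 ^ e - 1) : ℝ)
      ≤ ∑ e ∈ Finset.range (L + (n + 1)), (f (2 ^ e - 1) : ℝ) := by
        apply Finset.sum_le_sum_of_subset_of_nonneg
        · intro x hx
          have := Finset.mem_range.mp hx
          exact Finset.mem_range.mpr (by omega)
        · intro i _ _
          positivity
    _ = ∑ e ∈ Finset.range L, (f (2 ^ e - 1) : ℝ) +
          ∑ e ∈ Finset.range (n + 1), (f (2 ^ (L + e) - 1) : ℝ) := by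
        rw [Finset.sum_range_add]
    _ ≤ ∑ e ∈ Finset.range L, (T : ℝ) * (1 / C) +
          ∑ e ∈ Finset.range (n + 1), (T : ℝ) * (2 * (1 / 2) ^ (L + e)) := by
        apply add_le_add
        · exact Finset.sum_le_sum fun i _ => hB1 _
        · exact Finset.sum_le_sum fun i _ => hB2 _
    _ = (T : ℝ) * (L / C) + (T : ℝ) * ((2 * (1 / 2) ^ L) *
          ∑ e ∈ Finset.range (n + 1), (1 / 2 : ℝ) ^ e) := by
        rw [Finset.sum_const, Finset.card_range, nsmul_eq_mul, Finset.mul_sum, Finset.mul_sum]
        congr 1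
        · ring
        · apply Finset.sum_congr rfl
          intro e _
          rw [pow_add]
          ring
    _ ≤ (T : ℝ) * (ε / 2) + (T : ℝ) * (ε / 2) := by
        apply add_le_add
        · exact mul_le_mul_of_nonneg_left hC hT0
        · apply mul_le_mul_of_nonneg_left _ hT0
          have h1 := sum_geometric_two_le (n + 1)
          have h2 : (0 : ℝ) ≤ 2 * (1 / 2) ^ L := by positivity
          calc (2 * (1 / 2 : ℝ) ^ L) * ∑ e ∈ Finset.range (n + 1), (1 / 2 : ℝ) ^ e
              ≤ (2 * (1 / 2 : ℝ) ^ L) * 2 := mul_le_mul_of_nonneg_left h1 h2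
            _ = 4 * (1 / 2 : ℝ) ^ L := by ring
            _ ≤ ε / 2 := hL.le
    _ = ε * (T : ℝ) := by ring

end Pool.Agent.Lib_helper74.Hit
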