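import Pool.Agent.Lib_helper74.Hit.Stmts

/-! Modules PHI and DIM for the hit problem. -/

namespace Pool.Agent.Lib_helper74.Hit

open Filter Topology

/-- The exponents. -/
theorem pd_exp_pos (i : ℕ) : 1 ≤ 2 ^ (i + 1) - 1 := by
  have : 2 ≤ 2 ^ (i + 1) := by
    calc 2 = 2 ^ 1 := rfl
      _ ≤ 2 ^ (i + 1) := Nat.pow_le_pow_right (by norm_num) (by omega)
  omega

theorem pd_exp_ge (i : ℕ) : i ≤ 2 ^ (i + 1) - 1 := by
  have h : i + 1 < 2 ^ (i + 1) := Nat.lt_two_pow_self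
  omega

theorem pd_phi_one : phi 1 = 0 := by
  unfold phi
  have h : HasProd (fun i : ℕ => (1 - (1 : ℝ) ^ (2 ^ (i + 1) - 1))) 0 := by
    unfold HasProd
    refine tendsto_const_nhds.congr' ?_
    filter_upwards [eventually_ge_atTop ({0} : Finset ℕ)] with s hs
    have h0 : (0 : ℕ) ∈ s := hs (Finset.mem_singleton_self 0)
    exact (Finset.prod_eq_zero h0 (by simp)).symm
  exact h.tprod_eq

theorem pd_phi_zero : phi 0 = 1 := by
  unfold phi
  have h : (fun i : ℕ => (1 - (0 : ℝ) ^ (2 ^ (i + 1) - 1))) = fun _ => 1 := by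
    funext i
    rw [zero_pow (by have := pd_exp_pos i; omega), sub_zero]
  rw [h, tprod_one]

theorem pd_mult {x : ℝ} (h0 : 0 ≤ x) (h1 : x < 1) :
    Multipliable (fun i : ℕ => (1 - x ^ (2 ^ (i + 1) - 1))) := by
  have h : Multipliable (fun i : ℕ => (1 + -(x ^ (2 ^ (i + 1) - 1)))) := by
    apply multipliable_one_add_of_summable
    refine Summable.of_nonneg_of_le (fun i => norm_nonneg _) (fun i => ?_)
      (summable_geometric_of_lt_one h0 h1)
    rw [norm_neg, norm_pow, Real.norm_of_nonneg h0]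
    exact pow_le_pow_of_le_one h0 h1.le (pd_exp_ge i)
  simpa [sub_eq_add_neg] using h

theorem pd_phi_bounds {x : ℝ} (h0 : 0 ≤ x) (h1 : x < 1) : 0 ≤ phi x ∧ phi x ≤ 1 - x := by
  have ht : Tendsto (fun n : ℕ => ∏ i ∈ Finset.range n, (1 - x ^ (2 ^ (i + 1) - 1))) atTop
      (𝓝 (phi x)) := (pd_mult h0 h1).hasProd.tendsto_prod_nat
  have hf0 : ∀ i : ℕ, 0 ≤ 1 - x ^ (2 ^ (i + 1) - 1) := fun i =>
    sub_nonneg.2 (pow_le_one₀ h0 h1.le)
  have hf1 : ∀ i : ℕ, 1 - x ^ (2 ^ (i + 1) - 1) ≤ 1 := fun i =>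
    sub_le_self _ (pow_nonneg h0 _)
  constructor
  · exact ge_of_tendsto' ht fun n => Finset.prod_nonneg fun i _ => hf0 i
  · refine le_of_tendsto ht ?_
    filter_upwards [eventually_ge_atTop 1] with n hn
    obtain ⟨m, rfl⟩ : ∃ m, n = m + 1 := ⟨n - 1, by omega⟩
    rw [Finset.prod_range_succ']
    have e : (1 : ℝ) - x ^ (2 ^ (0 + 1) - 1) = 1 - x := by norm_num
    rw [e]
    have h2 : ∏ i ∈ Finset.range m, (1 - x ^ (2 ^ (i + 1 + 1) - 1)) ≤ 1 :=
      Finset.prod_le_one (fun i _ => hf0 (i + 1)) (fun i _ => hf1 (i + 1))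
    calc (∏ i ∈ Finset.range m, (1 - x ^ (2 ^ (i + 1 + 1) - 1))) * (1 - x) ≤ 1 * (1 - x) :=
          mul_le_mul_of_nonneg_right h2 (by linarith)
      _ = 1 - x := one_mul _

theorem pd_cont_lt (hg : GenStmt) {x : ℝ} (h0 : 0 ≤ x) (h1 : x < 1) :
    ContinuousWithinAt phi (Set.Icc 0 1) x := by
  obtain ⟨r, hxr, hr1⟩ := exists_between h1
  have hr0 : 0 ≤ r := h0.trans hxr.le
  have hs : ContinuousOn (fun y : ℝ => ∑' k : ℕ, (pcount k : ℝ) * y ^ k) (Set.Icc 0 r) := by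
    refine continuousOn_tsum (u := fun k => (pcount k : ℝ) * r ^ k)
      (fun k => (continuous_const.mul (continuous_pow k)).continuousOn)
      (hg r hr0 hr1).2.summable ?_
    intro k y hy
    rw [norm_mul, norm_pow, Real.norm_of_nonneg hy.1, Real.norm_of_nonneg (Nat.cast_nonneg _)]
    exact mul_le_mul_of_nonneg_left (pow_le_pow_left₀ hy.1 hy.2 k) (Nat.cast_nonneg _)
  have hval : ∀ y ∈ Set.Icc (0 : ℝ) r, (∑' k : ℕ, (pcount k : ℝ) * y ^ k) = (phi y)⁻¹ :=
    fun y hy => (hg y hy.1 (lt_of_le_of_lt hy.2 hr1)).2.tsum_eq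
  have hc : ContinuousOn (fun y : ℝ => (∑' k : ℕ, (pcount k : ℝ) * y ^ k)⁻¹) (Set.Icc 0 r) := by
    refine hs.inv₀ ?_
    intro y hy
    rw [hval y hy]
    exact inv_ne_zero (hg y hy.1 (lt_of_le_of_lt hy.2 hr1)).1.ne'
  have hc' : ContinuousOn phi (Set.Icc 0 r) := by
    refine hc.congr ?_
    intro y hy
    show phi y = (∑' k : ℕ, (pcount k : ℝ) * y ^ k)⁻¹
    rw [hval y hy, inv_inv]
  have hw : ContinuousWithinAt phi (Set.Icc 0 r) x := hc' x ⟨h0, hxr.le⟩
  refine hw.mono_of_mem_nhdsWithin ?_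
  have hsub : Set.Icc (0 : ℝ) 1 ∩ Set.Iio r ⊆ Set.Icc 0 r := fun y hy => ⟨hy.1.1, hy.2.le⟩
  exact mem_of_superset (inter_mem_nhdsWithin _ (Iio_mem_nhds hxr)) hsub

theorem pd_cont_one : ContinuousWithinAt phi (Set.Icc 0 1) 1 := by
  unfold ContinuousWithinAt
  rw [pd_phi_one]
  have hup : ∀ y ∈ Set.Icc (0 : ℝ) 1, phi y ≤ 1 - y := by
    intro y hy
    rcases lt_or_eq_of_le hy.2 with h | h
    · exact (pd_phi_bounds hy.1 h).2
    · rw [h, pd_phi_one]; norm_num
  have hlo : ∀ y ∈ Set.Icc (0 : ℝ) 1, 0 ≤ phi y := by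
    intro y hy
    rcases lt_or_eq_of_le hy.2 with h | h
    · exact (pd_phi_bounds hy.1 h).1
    · rw [h, pd_phi_one]
  have ht : Tendsto (fun y : ℝ => 1 - y) (𝓝[Set.Icc 0 1] 1) (𝓝 0) := by
    have h : Tendsto (fun y : ℝ => 1 - y) (𝓝 1) (𝓝 (1 - 1)) := tendsto_const_nhds.sub tendsto_id
    rw [sub_self] at h
    exact h.mono_left nhdsWithin_le_nhds
  refine tendsto_of_tendsto_of_tendsto_of_le_of_le' tendsto_const_nhds ht ?_ ?_
  · filter_upwards [self_mem_nhdsWithin] with y hy using hlo y hy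
  · filter_upwards [self_mem_nhdsWithin] with y hy using hup y hy

theorem phiStmt (hg : GenStmt) : PhiStmt := by
  refine ⟨?_, pd_phi_one, pd_phi_zero, ?_⟩
  · intro x hx
    rcases lt_or_eq_of_le hx.2 with h | h
    · exact pd_cont_lt hg hx.1 h
    · rw [h]; exact pd_cont_one
  · intro x hx
    rcases lt_or_eq_of_le hx.2 with h | h
    · have := pd_phi_bounds hx.1 h
      exact ⟨this.1, by linarith [hx.1]⟩
    · rw [h, pd_phi_one]; norm_num

theorem pd_zero_succ (n : ℕ) : pdim 0 (n + 1) = 0 := by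
  unfold pdim
  exact Nat.choose_eq_zero_of_lt (by omega)

theorem pd_zero_zero : pdim 0 0 = 1 := by
  unfold pdim
  simp

theorem pd_succ (k n : ℕ) : pdim (k + 1) n = (n + k).choose k := by
  unfold pdim
  have e : n + (k + 1) - 1 = n + k := by omega
  rw [e, Nat.choose_symm_add]

theorem dimStmt : DimStmt := by
  refine ⟨?_, ?_, ?_⟩
  · intro d n hd
    unfold pdim
    exact Nat.choose_pos (by omega)
  · intro d x h0 h1
    rcases d with _ | k
    · rw [pow_zero, inv_one]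
      have h := hasSum_single (f := fun n : ℕ => (pdim 0 n : ℝ) * x ^ n) 0 (by
        intro n hn
        obtain ⟨m, rfl⟩ : ∃ m, n = m + 1 := ⟨n - 1, by omega⟩
        show ((pdim 0 (m + 1) : ℕ) : ℝ) * x ^ (m + 1) = 0
        rw [pd_zero_succ, Nat.cast_zero, zero_mul])
      have e : ((pdim 0 0 : ℕ) : ℝ) * x ^ 0 = 1 := by
        rw [pd_zero_zero, Nat.cast_one, pow_zero, one_mul]
      rw [← e]
      exact h
    · have hx : ‖x‖ < 1 := by rw [Real.norm_of_nonneg h0]; exact h1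
      have h := hasSum_choose_mul_geometric_of_norm_lt_one k hx
      rw [one_div] at h
      refine h.congr_fun ?_
      intro n
      rw [pd_succ]
  · intro d n
    rcases d with _ | k
    · rw [Finset.sum_range_succ', pd_zero_zero, Finset.sum_eq_zero, zero_add, pd_succ,
        Nat.choose_zero_right]
      intro i _
      exact pd_zero_succ i
    · rw [pd_succ, Finset.sum_congr rfl fun i _ => pd_succ k i, Nat.sum_range_add_choose]
      congr 1

end Pool.Agent.Lib_helper74.Hit
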