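import Pool.Agent.Lib_helper74.Hit.Stmts

/-! Module RATIO (helper34): asymptotics and a bound for the ratio of dimensions. -/

namespace Pool.Agent.Lib_helper74.Hit

open Filter Topology

lemma Ratio.pdim_pos {d : ℕ} (n : ℕ) (hd : 1 ≤ d) : 0 < pdim d n :=
  Nat.choose_pos (by omega)

lemma Ratio.pdim_succ_n {d : ℕ} (n : ℕ) (hd : 1 ≤ d) :
    pdim d n * (n + d) = pdim d (n + 1) * (n + 1) := by
  obtain ⟨c, rfl⟩ : ∃ c, d = c + 1 := ⟨d - 1, by omega⟩
  unfold pdim
  have h := Nat.add_one_mul_choose_eq (n + c) n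
  have e1 : n + (c + 1) - 1 = n + c := by omega
  have e2 : n + 1 + (c + 1) - 1 = n + c + 1 := by omega
  rw [e1, e2, ← h]
  ring

lemma Ratio.pdim_succ_d {c : ℕ} (n : ℕ) (hc : 1 ≤ c) :
    pdim c n * (n + c) = pdim (c + 1) n * c := by
  obtain ⟨b, rfl⟩ : ∃ b, c = b + 1 := ⟨c - 1, by omega⟩
  unfold pdim
  have h := Nat.choose_mul_succ_eq (n + b) n
  have e1 : n + (b + 1) - 1 = n + b := by omega
  have e2 : n + (b + 1 + 1) - 1 = n + b + 1 := by omega
  have e3 : n + b + 1 - n = b + 1 := by omega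
  rw [e1, e2]
  rw [e3] at h
  rw [← h]
  ring

lemma Ratio.pdim_mono {c d : ℕ} (n : ℕ) (h : c ≤ d) : pdim c n ≤ pdim d n :=
  Nat.choose_le_choose _ (by omega)

lemma Ratio.step_n (s i d n : ℕ) (hd : 1 ≤ d) :
    ratio s (i + 1) d n = ((n : ℝ) / ((n : ℝ) + d - 1)) * ratio s i d (n - 1) := by
  rcases n with _ | n
  · simp [ratio]
  · unfold ratio
    have e0 : (i + 1 ≤ n + 1) ↔ (i ≤ n + 1 - 1) := by omega
    by_cases hi : i ≤ n
    · rw [if_pos (by omega), if_pos (by omega)]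
      have e1 : n + 1 - (i + 1) = n - i := by omega
      have e2 : n + 1 - 1 - i = n - i := by omega
      have e3 : n + 1 - 1 = n := by omega
      rw [e1, e2, e3]
      have h := Ratio.pdim_succ_n n hd
      have h' : (pdim d n : ℝ) * ((n : ℝ) + d) = pdim d (n + 1) * ((n : ℝ) + 1) := by exact_mod_cast h
      have p1 : (0 : ℝ) < pdim d n := by exact_mod_cast Ratio.pdim_pos n hd
      have p2 : (0 : ℝ) < pdim d (n + 1) := by exact_mod_cast Ratio.pdim_pos (n + 1) hd
      have p3 : (0 : ℝ) < (n : ℝ) + d := by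
        have : (1 : ℝ) ≤ d := by exact_mod_cast hd
        positivity
      have e4 : ((n + 1 : ℕ) : ℝ) + d - 1 = (n : ℝ) + d := by push_cast; ring
      rw [e4, div_mul_div_comm, div_eq_div_iff p2.ne' (by positivity)]
      push_cast
      linear_combination (pdim (d - s) (n - i) : ℝ) * h'
    · rw [if_neg (by omega), if_neg (by omega), mul_zero]

lemma Ratio.step_d (s n d : ℕ) (hd : 2 ≤ d) :
    ratio (s + 1) 0 d n = (((d : ℝ) - 1) / ((n : ℝ) + d - 1)) * ratio s 0 (d - 1) n := by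
  obtain ⟨c, rfl⟩ : ∃ c, d = c + 1 := ⟨d - 1, by omega⟩
  unfold ratio
  rw [if_pos (Nat.zero_le _), if_pos (Nat.zero_le _)]
  have e1 : c + 1 - (s + 1) = c - s := by omega
  have e2 : c + 1 - 1 - s = c - s := by omega
  have e3 : c + 1 - 1 = c := by omega
  rw [e1, e2, e3]
  have h := Ratio.pdim_succ_d n (c := c) (by omega)
  have h' : (pdim c n : ℝ) * ((n : ℝ) + c) = pdim (c + 1) n * (c : ℝ) := by exact_mod_cast h
  have p1 : (0 : ℝ) < pdim c n := by exact_mod_cast Ratio.pdim_pos n (by omega)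
  have p2 : (0 : ℝ) < pdim (c + 1) n := by exact_mod_cast Ratio.pdim_pos n (by omega)
  have p3 : (0 : ℝ) < (n : ℝ) + c := by
    have : (1 : ℝ) ≤ c := by exact_mod_cast (by omega : 1 ≤ c)
    positivity
  have e4 : (n : ℝ) + ((c + 1 : ℕ) : ℝ) - 1 = (n : ℝ) + c := by push_cast; ring
  have e5 : ((c + 1 : ℕ) : ℝ) - 1 = (c : ℝ) := by push_cast; ring
  rw [e4, e5, div_mul_div_comm, div_eq_div_iff p2.ne' (by positivity)]
  linear_combination (pdim (c - s) (n - 0) : ℝ) * h'

lemma Ratio.zero_zero (d n : ℕ) (hd : 1 ≤ d) : ratio 0 0 d n = 1 := by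
  unfold ratio
  rw [if_pos (Nat.zero_le _)]
  have p1 : (0 : ℝ) < pdim d n := by exact_mod_cast Ratio.pdim_pos n hd
  simp only [Nat.sub_zero]
  exact div_self p1.ne'

lemma Ratio.frac_mono {d n : ℕ} (hd : 1 ≤ d) :
    ((n - 1 : ℕ) : ℝ) / (((n - 1 : ℕ) : ℝ) + d - 1) ≤ (n : ℝ) / ((n : ℝ) + d - 1) := by
  rcases n with _ | n
  · simp
  · have e1 : n + 1 - 1 = n := by omega
    rw [e1]
    have hd' : (1 : ℝ) ≤ d := by exact_mod_cast hd
    have hn : (0 : ℝ) ≤ n := Nat.cast_nonneg n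
    have e4 : ((n + 1 : ℕ) : ℝ) + d - 1 = (n : ℝ) + d := by push_cast; ring
    rw [e4]
    rcases eq_or_lt_of_le hn with h0 | h0
    · rw [← h0]
      simp only [zero_div]
      positivity
    · rw [div_le_div_iff₀ (by linarith) (by linarith)]
      push_cast
      nlinarith

lemma Ratio.bound (s i : ℕ) : ∀ d n : ℕ, s < d → 0 ≤ ratio s i d n ∧
    ratio s i d n ≤ ((n : ℝ) / ((n : ℝ) + d - 1)) ^ i := by
  induction i with
  | zero =>
    intro d n hs
    have p2 : (0 : ℝ) < pdim d n := by exact_mod_cast Ratio.pdim_pos n (by omega)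
    unfold ratio
    rw [if_pos (Nat.zero_le _)]
    refine ⟨by positivity, ?_⟩
    rw [pow_zero, div_le_one p2]
    exact_mod_cast Ratio.pdim_mono n (Nat.sub_le d s)
  | succ i ih =>
    intro d n hs
    obtain ⟨h1, h2⟩ := ih d (n - 1) hs
    have hd : 1 ≤ d := by omega
    rw [Ratio.step_n s i d n hd]
    have hd' : (1 : ℝ) ≤ d := by exact_mod_cast hd
    have hn : (0 : ℝ) ≤ n := Nat.cast_nonneg n
    have h3 : 0 ≤ (n : ℝ) / ((n : ℝ) + d - 1) := div_nonneg hn (by linarith)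
    have h4 : 0 ≤ ((n - 1 : ℕ) : ℝ) / (((n - 1 : ℕ) : ℝ) + d - 1) :=
      div_nonneg (Nat.cast_nonneg _) (by have : (0 : ℝ) ≤ ((n - 1 : ℕ) : ℝ) := Nat.cast_nonneg _; linarith)
    refine ⟨mul_nonneg h3 h1, ?_⟩
    rw [pow_succ, mul_comm]
    exact mul_le_mul_of_nonneg_right (h2.trans (pow_le_pow_left₀ h4 (Ratio.frac_mono hd) i)) h3

/-- `n/(n+d-1)` has the same limit as `n/(n+d)` -/
lemma Ratio.tendsto_frac {ι : Type} {F : Filter ι} {d n : ι → ℕ} {t : ℝ} (hd : Tendsto d F atTop)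
    (h : Tendsto (fun x => (n x : ℝ) / (n x + d x)) F (𝓝 t)) :
    Tendsto (fun x => (n x : ℝ) / ((n x : ℝ) + d x - 1)) F (𝓝 t) := by
  have hd' : Tendsto (fun x => (d x : ℝ)) F atTop := tendsto_natCast_atTop_atTop.comp hd
  have h1 : Tendsto (fun x => 1 / ((n x : ℝ) + d x - 1)) F (𝓝 0) := by
    have h2 : Tendsto (fun x => (n x : ℝ) + d x - 1) F atTop := by
      refine tendsto_atTop_mono' F ?_ (tendsto_atTop_add_const_right F (-1) hd')
      filter_upwards with x
      have : (0 : ℝ) ≤ n x := Nat.cast_nonneg _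
      linarith
    exact (tendsto_inv_atTop_zero.comp h2).congr fun x => by simp
  have h3 : Tendsto (fun x => (n x : ℝ) / (n x + d x) * (1 + 1 / ((n x : ℝ) + d x - 1))) F
      (𝓝 (t * (1 + 0))) := h.mul (tendsto_const_nhds.add h1)
  rw [add_zero, mul_one] at h3
  refine h3.congr' ?_
  filter_upwards [hd.eventually (eventually_ge_atTop 2)] with x hx
  have h4 : (2 : ℝ) ≤ d x := by exact_mod_cast hx
  have h5 : (0 : ℝ) ≤ n x := Nat.cast_nonneg _
  have h6 : (n x : ℝ) + d x ≠ 0 := by linarith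
  have h7 : (n x : ℝ) + d x - 1 ≠ 0 := by linarith
  field_simp
  ring

/-- the hypotheses are inherited by `(d, n - 1)` -/
lemma Ratio.tendsto_pred_n {ι : Type} {F : Filter ι} {d n : ι → ℕ} {t : ℝ} (hd : Tendsto d F atTop)
    (h : Tendsto (fun x => (n x : ℝ) / (n x + d x)) F (𝓝 t)) :
    Tendsto (fun x => ((n x - 1 : ℕ) : ℝ) / (((n x - 1 : ℕ) : ℝ) + d x)) F (𝓝 t) := by
  have h1 := Ratio.tendsto_frac hd h
  have hd' : Tendsto (fun x => (d x : ℝ)) F atTop := tendsto_natCast_atTop_atTop.comp hd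
  have h2 : Tendsto (fun x => 1 / (d x : ℝ)) F (𝓝 0) := by
    exact (tendsto_inv_atTop_zero.comp hd').congr fun x => by simp
  have h3 : Tendsto (fun x => (n x : ℝ) / ((n x : ℝ) + d x - 1) - 2 / (d x : ℝ)) F (𝓝 (t - 2 * 0)) := by
    have := h1.sub (h2.const_mul 2)
    refine this.congr fun x => ?_
    ring
  rw [mul_zero, sub_zero] at h3
  refine tendsto_of_tendsto_of_tendsto_of_le_of_le' h3 h1 ?_ ?_
  · filter_upwards [hd.eventually (eventually_ge_atTop 2)] with x hx
    have h4 : (2 : ℝ) ≤ d x := by exact_mod_cast hx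
    rcases Nat.eq_zero_or_pos (n x) with h0 | h0
    · rw [h0]
      simp
      positivity
    · obtain ⟨m, hm⟩ : ∃ m, n x = m + 1 := ⟨n x - 1, by omega⟩
      have e1 : n x - 1 = m := by omega
      rw [e1, hm]
      have h5 : (0 : ℝ) ≤ m := Nat.cast_nonneg _
      push_cast
      have e2 : ((m : ℝ) + 1) / ((m : ℝ) + 1 + d x - 1) = (m : ℝ) / ((m : ℝ) + d x) + 1 / ((m : ℝ) + d x) := by
        rw [← add_div]
        congr 1
        ring
      rw [e2]
      have h6 : 1 / ((m : ℝ) + d x) ≤ 1 / (d x : ℝ) := one_div_le_one_div_of_le (by linarith) (by linarith)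
      have h7 : (0 : ℝ) ≤ 1 / (d x : ℝ) := by positivity
      have h8 : 2 / (d x : ℝ) = 1 / (d x : ℝ) + 1 / (d x : ℝ) := by ring
      linarith
  · filter_upwards [hd.eventually (eventually_ge_atTop 2)] with x hx
    have h4 : (2 : ℝ) ≤ d x := by exact_mod_cast hx
    rcases Nat.eq_zero_or_pos (n x) with h0 | h0
    · rw [h0]
      simp
    · obtain ⟨m, hm⟩ : ∃ m, n x = m + 1 := ⟨n x - 1, by omega⟩
      have e1 : n x - 1 = m := by omega
      rw [e1, hm]
      have h5 : (0 : ℝ) ≤ m := Nat.cast_nonneg _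
      push_cast
      have e2 : (m : ℝ) + 1 + d x - 1 = (m : ℝ) + d x := by ring
      rw [e2]
      exact div_le_div_of_nonneg_right (by linarith) (by linarith)

/-- the hypotheses are inherited by `(d - 1, n)` -/
lemma Ratio.tendsto_pred_d {ι : Type} {F : Filter ι} {d n : ι → ℕ} {t : ℝ} (hd : Tendsto d F atTop)
    (h : Tendsto (fun x => (n x : ℝ) / (n x + d x)) F (𝓝 t)) :
    Tendsto (fun x => (n x : ℝ) / ((n x : ℝ) + ((d x - 1 : ℕ) : ℝ))) F (𝓝 t) := by
  refine (Ratio.tendsto_frac hd h).congr' ?_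
  filter_upwards [hd.eventually (eventually_ge_atTop 1)] with x hx
  rw [Nat.cast_sub hx]
  push_cast
  congr 1
  ring

theorem ratioStmt : RatioStmt := by
  refine ⟨fun s i d n hs => Ratio.bound s i d n hs, ?_⟩
  have hbase : ∀ s : ℕ, ∀ (ι : Type) (F : Filter ι) (d n : ι → ℕ) (t : ℝ), Tendsto d F atTop →
      Tendsto (fun x => (n x : ℝ) / (n x + d x)) F (𝓝 t) →
      Tendsto (fun x => ratio s 0 (d x) (n x)) F (𝓝 ((1 - t) ^ s)) := by
    intro s
    induction s with
    | zero =>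
      intro ι F d n t hd h
      rw [pow_zero]
      refine tendsto_const_nhds.congr' ?_
      filter_upwards [hd.eventually (eventually_ge_atTop 1)] with x hx
      rw [Ratio.zero_zero _ _ hx]
    | succ s ih =>
      intro ι F d n t hd h
      have hd1 : Tendsto (fun x => d x - 1) F atTop := (tendsto_sub_atTop_nat 1).comp hd
      have h1 := ih ι F (fun x => d x - 1) n t hd1 (Ratio.tendsto_pred_d hd h)
      have h2 := Ratio.tendsto_frac hd h
      have h3 : Tendsto (fun x => (1 - (n x : ℝ) / ((n x : ℝ) + d x - 1)) * ratio s 0 (d x - 1) (n x)) F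
          (𝓝 ((1 - t) * (1 - t) ^ s)) := (tendsto_const_nhds.sub h2).mul h1
      rw [pow_succ, mul_comm]
      refine h3.congr' ?_
      filter_upwards [hd.eventually (eventually_ge_atTop 2)] with x hx
      rw [Ratio.step_d s (n x) (d x) hx]
      congr 1
      have h4 : (2 : ℝ) ≤ d x := by exact_mod_cast hx
      have h5 : (0 : ℝ) ≤ n x := Nat.cast_nonneg _
      have h7 : (n x : ℝ) + d x - 1 ≠ 0 := by linarith
      field_simp
      ring
  have hmain : ∀ i s : ℕ, ∀ (ι : Type) (F : Filter ι) (d n : ι → ℕ) (t : ℝ), Tendsto d F atTop →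
      Tendsto (fun x => (n x : ℝ) / (n x + d x)) F (𝓝 t) →
      Tendsto (fun x => ratio s i (d x) (n x)) F (𝓝 (t ^ i * (1 - t) ^ s)) := by
    intro i s
    induction i with
    | zero =>
      intro ι F d n t hd h
      rw [pow_zero, one_mul]
      exact hbase s ι F d n t hd h
    | succ i ih =>
      intro ι F d n t hd h
      have h1 := ih ι F d (fun x => n x - 1) t hd (Ratio.tendsto_pred_n hd h)
      have h2 := (Ratio.tendsto_frac hd h).mul h1
      have e : t ^ (i + 1) * (1 - t) ^ s = t * (t ^ i * (1 - t) ^ s) := by ring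
      rw [e]
      refine h2.congr' ?_
      filter_upwards [hd.eventually (eventually_ge_atTop 1)] with x hx
      rw [Ratio.step_n s i (d x) (n x) hx]
  intro ι F d n t hd h s i
  exact hmain i s ι F d n t hd h

end Pool.Agent.Lib_helper74.Hit
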