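import Pool.Agent.Lib_helper74.Hit.Orb

/-! The inequality `p_d(n) ≤ ∑ a_i b_d(n-i)`. -/

namespace Pool.Agent.Lib_helper74.Hit

open MvPolynomial

variable {σ τ : Type}

theorem spade_gen [Finite σ] (A : ℕ → ℕ)
    (hA : ∀ (m : ℕ) (y : MvPolynomial σ (ZMod 2)), y.IsHomogeneous m → ∀ k,
      Module.finrank (ZMod 2) (orb y k) ≤ A k) (n : ℕ) :
    Module.finrank (ZMod 2) (homogeneousSubmodule σ (ZMod 2) n) ≤
      ∑ i ∈ Finset.range (n + 1), A i * qd σ (n - i) := by
  classical
  choose L hL1 hL2 hL3 using (exists_lift (σ := σ))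
  have hfd : ∀ m, FiniteDimensional (ZMod 2) (L m) := fun m => fd_of_le (hL1 m)
  let y : ∀ m, Fin (Module.finrank (ZMod 2) (L m)) → MvPolynomial σ (ZMod 2) :=
    fun m j => (Module.finBasis (ZMod 2) (L m) j : MvPolynomial σ (ZMod 2))
  have hy : ∀ m j, (y m j).IsHomogeneous m := fun m j => hL1 m (Module.finBasis (ZMod 2) (L m) j).2
  let V : ℕ → Submodule (ZMod 2) (MvPolynomial σ (ZMod 2)) := fun n =>
    (Finset.range (n + 1)).sup (fun i => (Finset.univ : Finset (Fin _)).sup
      (fun j => orb (y (n - i) j) i))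
  have hle : ∀ n m i (_ : m + i = n) j, orb (y m j) i ≤ V n := by
    intro n m i h j
    have hm : m = n - i := by omega
    subst hm
    have h1 : orb (y (n - i) j) i ≤ (Finset.univ : Finset (Fin _)).sup
      (fun j => orb (y (n - i) j) i) := Finset.le_sup (f := fun j => orb (y (n - i) j) i)
        (Finset.mem_univ j)
    refine h1.trans ?_
    exact Finset.le_sup (f := fun i => (Finset.univ : Finset (Fin _)).sup
      (fun j => orb (y (n - i) j) i)) (Finset.mem_range.2 (by omega))
  have hspan : ∀ n, homogeneousSubmodule σ (ZMod 2) n ≤ V n := by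
    intro n
    induction n using Nat.strong_induction_on with
    | _ n ih =>
      rw [← hL2 n]
      apply sup_le
      · intro x hx
        have h1 := (Module.finBasis (ZMod 2) (L n)).sum_repr ⟨x, hx⟩
        have h2 := congrArg Subtype.val h1
        simp only [AddSubmonoidClass.coe_finsetSum, Submodule.coe_smul] at h2
        rw [← h2]
        apply Submodule.sum_mem
        intro j _
        apply Submodule.smul_mem
        exact hle n n 0 (by omega) j (mem_orb_zero _)
      · rw [hitsDeg, Submodule.span_le]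
        rintro _ ⟨k, f, hk, hkn, hf, rfl⟩
        have h1 : f ∈ V (n - k) := ih (n - k) (by omega) hf
        have h2 : V (n - k) ≤ (V n).comap (SqL σ k) := by
          apply Finset.sup_le
          intro i hi
          rw [Finset.mem_range] at hi
          apply Finset.sup_le
          intro j _
          intro f hf
          rw [Submodule.mem_comap]
          exact hle n (n - k - i) (i + k) (by omega) j (Sq_mem_orb hf k)
        exact h2 h1
  have hofd : ∀ m j k, FiniteDimensional (ZMod 2) (orb (y m j) k) :=
    fun m j k => fd_of_le (orb_homog (hy m j) k)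
  have hin : ∀ i, FiniteDimensional (ZMod 2) ((Finset.univ : Finset (Fin _)).sup
      (fun j => orb (y (n - i) j) i) : Submodule (ZMod 2) _) ∧
      Module.finrank (ZMod 2) ((Finset.univ : Finset (Fin _)).sup
      (fun j => orb (y (n - i) j) i) : Submodule (ZMod 2) _) ≤ A i * qd σ (n - i) := by
    intro i
    obtain ⟨h1, h2⟩ := finrank_finset_sup_le (Finset.univ : Finset (Fin _))
      (fun j => orb (y (n - i) j) i) (fun j _ => hofd _ j i)
    refine ⟨h1, h2.trans ?_⟩
    calc ∑ j, Module.finrank (ZMod 2) (orb (y (n - i) j) i)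
        ≤ ∑ _j : Fin (Module.finrank (ZMod 2) (L (n - i))), A i :=
          Finset.sum_le_sum fun j _ => hA (n - i) _ (hy _ j) i
      _ = A i * qd σ (n - i) := by
          rw [Finset.sum_const, Finset.card_univ, Fintype.card_fin, hL3, smul_eq_mul, mul_comm]
  obtain ⟨h1, h2⟩ := finrank_finset_sup_le (Finset.range (n + 1)) (fun i =>
    ((Finset.univ : Finset (Fin _)).sup (fun j => orb (y (n - i) j) i))) (fun i _ => (hin i).1)
  calc Module.finrank (ZMod 2) (homogeneousSubmodule σ (ZMod 2) n)
      ≤ Module.finrank (ZMod 2) (V n) := Submodule.finrank_mono (hspan n)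
    _ ≤ _ := h2
    _ ≤ _ := Finset.sum_le_sum fun i _ => (hin i).2

end Pool.Agent.Lib_helper74.Hit
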