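import Pool.Agent.Lib_helper74.Hit.Orb

/-! Inequalities for a disjoint union of two sets of variables. -/

namespace Pool.Agent.Lib_helper74.Hit

open MvPolynomial

variable {σ τ : Type}

/-- First inclusion. -/
noncomputable def i1 (σ τ : Type) :
    MvPolynomial σ (ZMod 2) →ₐ[ZMod 2] MvPolynomial (σ ⊕ τ) (ZMod 2) := rename Sum.inl

/-- Second inclusion. -/
noncomputable def i2 (σ τ : Type) :
    MvPolynomial τ (ZMod 2) →ₐ[ZMod 2] MvPolynomial (σ ⊕ τ) (ZMod 2) := rename Sum.inr

theorem i1_Sq (k : ℕ) (f : MvPolynomial σ (ZMod 2)) : i1 σ τ (Sq k f) = Sq k (i1 σ τ f) :=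
  (Sq_rename _ k f).symm

theorem i2_Sq (k : ℕ) (f : MvPolynomial τ (ZMod 2)) : i2 σ τ (Sq k f) = Sq k (i2 σ τ f) :=
  (Sq_rename _ k f).symm

/-- The product submodule. -/
noncomputable def pr (V : Submodule (ZMod 2) (MvPolynomial σ (ZMod 2)))
    (W : Submodule (ZMod 2) (MvPolynomial τ (ZMod 2))) :
    Submodule (ZMod 2) (MvPolynomial (σ ⊕ τ) (ZMod 2)) :=
  V.map (i1 σ τ).toLinearMap * W.map (i2 σ τ).toLinearMap

theorem mem_pr {V : Submodule (ZMod 2) (MvPolynomial σ (ZMod 2))}
    {W : Submodule (ZMod 2) (MvPolynomial τ (ZMod 2))} {f : MvPolynomial σ (ZMod 2)}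
    {g : MvPolynomial τ (ZMod 2)} (hf : f ∈ V) (hg : g ∈ W) :
    i1 σ τ f * i2 σ τ g ∈ pr V W :=
  Submodule.mul_mem_mul ⟨f, hf, rfl⟩ ⟨g, hg, rfl⟩

theorem pr_fd (V : Submodule (ZMod 2) (MvPolynomial σ (ZMod 2)))
    (W : Submodule (ZMod 2) (MvPolynomial τ (ZMod 2))) [FiniteDimensional (ZMod 2) V]
    [FiniteDimensional (ZMod 2) W] : FiniteDimensional (ZMod 2) (pr V W) :=
  fd_mul _ _

theorem finrank_pr_le (V : Submodule (ZMod 2) (MvPolynomial σ (ZMod 2)))
    (W : Submodule (ZMod 2) (MvPolynomial τ (ZMod 2))) [FiniteDimensional (ZMod 2) V]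
    [FiniteDimensional (ZMod 2) W] : Module.finrank (ZMod 2) (pr V W) ≤
      Module.finrank (ZMod 2) V * Module.finrank (ZMod 2) W := by
  refine (finrank_mul_le _ _).trans ?_
  gcongr
  · exact Submodule.finrank_map_le _ _
  · exact Submodule.finrank_map_le _ _

theorem homog_sum_le [Finite σ] [Finite τ] (n : ℕ)
    (Z : Submodule (ZMod 2) (MvPolynomial (σ ⊕ τ) (ZMod 2)))
    (h : ∀ i j, i + j = n → ∀ f g, f ∈ homogeneousSubmodule σ (ZMod 2) i →
      g ∈ homogeneousSubmodule τ (ZMod 2) j → i1 σ τ f * i2 σ τ g ∈ Z) :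
    homogeneousSubmodule (σ ⊕ τ) (ZMod 2) n ≤ Z := by
  classical
  have := Fintype.ofFinite σ
  have := Fintype.ofFinite τ
  intro f hf
  rw [f.as_sum]
  apply Submodule.sum_mem
  intro m hm
  have hd : m.degree = n := by
    have := IsHomogeneous.degree_eq_sum_deg_support hf hm
    simpa [Finsupp.degree] using this.symm
  let m1 : σ →₀ ℕ := Finsupp.equivFunOnFinite.symm (fun i => m (Sum.inl i))
  let m2 : τ →₀ ℕ := Finsupp.equivFunOnFinite.symm (fun i => m (Sum.inr i))
  have hm12 : m = m1.mapDomain Sum.inl + m2.mapDomain Sum.inr := by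
    ext x
    rcases x with x | x
    · rw [Finsupp.add_apply, Finsupp.mapDomain_apply Sum.inl_injective,
        Finsupp.mapDomain_of_notMem_range _ _ (by simp)]
      simp [m1]
    · rw [Finsupp.add_apply, Finsupp.mapDomain_apply Sum.inr_injective,
        Finsupp.mapDomain_of_notMem_range _ _ (by simp)]
      simp [m2]
  have hdeg : m1.degree + m2.degree = n := by
    rw [← hd, Finsupp.degree_eq_sum, Finsupp.degree_eq_sum, Finsupp.degree_eq_sum,
      Fintype.sum_sum_type]
    simp [m1, m2]
  have h1 : monomial m (coeff m f) =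
      i1 σ τ (monomial m1 (coeff m f)) * i2 σ τ (monomial m2 1) := by
    rw [i1, i2, rename_monomial, rename_monomial, monomial_mul, mul_one, ← hm12]
  rw [h1]
  apply h m1.degree m2.degree hdeg
  · exact isHomogeneous_monomial _ rfl
  · exact isHomogeneous_monomial _ rfl

theorem Sq_left (k : ℕ) (F G : MvPolynomial σ (ZMod 2)) : Sq k F * G =
    Sq k (F * G) - ∑ p ∈ (Finset.HasAntidiagonal.antidiagonal k).erase (k, 0),
      Sq p.1 F * Sq p.2 G := by
  rw [Sq_mul, ← Finset.add_sum_erase _ _ (show (k, 0) ∈ Finset.HasAntidiagonal.antidiagonal k by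
    simp), Sq_zero]
  ring

theorem Sq_right (k : ℕ) (F G : MvPolynomial σ (ZMod 2)) : F * Sq k G =
    Sq k (F * G) - ∑ p ∈ (Finset.HasAntidiagonal.antidiagonal k).erase (0, k),
      Sq p.1 F * Sq p.2 G := by
  rw [Sq_mul, ← Finset.add_sum_erase _ _ (show (0, k) ∈ Finset.HasAntidiagonal.antidiagonal k by
    simp), Sq_zero]
  ring

theorem sub_gen [Fintype σ] [Fintype τ] (n : ℕ) :
    qd (σ ⊕ τ) n ≤ ∑ i ∈ Finset.range (n + 1), qd σ i * pdim (Fintype.card τ) (n - i) := by
  classical
  choose L hL1 hL2 hL3 using (exists_lift (σ := σ))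
  have hfd : ∀ m, FiniteDimensional (ZMod 2) (L m) := fun m => fd_of_le (hL1 m)
  let W : ℕ → Submodule (ZMod 2) (MvPolynomial (σ ⊕ τ) (ZMod 2)) := fun n =>
    (Finset.range (n + 1)).sup (fun i => pr (L i) (homogeneousSubmodule τ (ZMod 2) (n - i)))
  have hle : ∀ n i j (_ : i + j = n), pr (L i) (homogeneousSubmodule τ (ZMod 2) j) ≤ W n := by
    intro n i j h
    have hm : j = n - i := by omega
    subst hm
    exact Finset.le_sup (f := fun i => pr (L i) (homogeneousSubmodule τ (ZMod 2) (n - i)))
      (Finset.mem_range.2 (by omega))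
  have key : ∀ i n, ∀ j, i + j = n → ∀ f g, f ∈ homogeneousSubmodule σ (ZMod 2) i →
      g ∈ homogeneousSubmodule τ (ZMod 2) j → i1 σ τ f * i2 σ τ g ∈ hits (σ ⊕ τ) ⊔ W n := by
    intro i n
    induction i using Nat.strong_induction_on with
    | _ i ih =>
      intro j hij f g hf hg
      rw [← hL2 i] at hf
      obtain ⟨l, hl, h, hh, rfl⟩ := Submodule.mem_sup.1 hf
      rw [map_add, add_mul]
      apply Submodule.add_mem
      · apply Submodule.mem_sup_right
        exact hle n i j hij (mem_pr hl hg)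
      · have h1 : hitsDeg σ i ≤ (hits (σ ⊕ τ) ⊔ W n).comap
            ((LinearMap.mulRight (ZMod 2) (i2 σ τ g)).comp (i1 σ τ).toLinearMap) := by
          rw [hitsDeg, Submodule.span_le]
          rintro _ ⟨k, f', hk, hki, hf', rfl⟩
          change i1 σ τ (Sq k f') * i2 σ τ g ∈ hits (σ ⊕ τ) ⊔ W n
          rw [i1_Sq, Sq_left]
          apply Submodule.sub_mem
          · apply Submodule.mem_sup_left
            apply Submodule.subset_span
            exact ⟨k, _, hk, rfl⟩
          · apply Submodule.sum_mem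
            rintro ⟨p, q⟩ hp
            rw [Finset.mem_erase, Finset.HasAntidiagonal.mem_antidiagonal] at hp
            obtain ⟨hp1, hp2⟩ := hp
            have hq : q ≠ 0 := by
              rintro rfl
              apply hp1
              rw [← hp2]
              simp
            simp only at hp2 ⊢
            rw [← i1_Sq, ← i2_Sq]
            apply ih (i - k + p) (by omega) (j + q) (by omega)
            · exact Sq_homog hf' p
            · exact Sq_homog hg q
        exact h1 hh
  have hspan : homogeneousSubmodule (σ ⊕ τ) (ZMod 2) n ≤ hits (σ ⊕ τ) ⊔ W n :=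
    homog_sum_le n _ (fun i j hij f g hf hg => key i n j hij f g hf hg)
  obtain ⟨h1, h2⟩ := finrank_finset_sup_le (Finset.range (n + 1))
    (fun i => pr (L i) (homogeneousSubmodule τ (ZMod 2) (n - i))) (fun i _ => pr_fd _ _)
  refine (qd_le_of_le n (W n) hspan).trans (h2.trans ?_)
  apply Finset.sum_le_sum
  intro i _
  refine (finrank_pr_le _ _).trans ?_
  rw [hL3, finrank_homog]

theorem diamond_gen [Fintype τ] (a n : ℕ) :
    qd (Fin a ⊕ τ) n + ∑ i ∈ Finset.range (n + 1),
        (if a ≤ i then Module.finrank (ZMod 2) (orb (U a) (i - a)) else 0) * qd τ (n - i) ≤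
      (if a ≤ n then pdim (Fintype.card τ) (n - a) else 0) +
        ∑ i ∈ Finset.range (n + 1), pdim a i * qd τ (n - i) := by
  classical
  choose G hG1 hG2 hG3 using (exists_lift (σ := τ))
  have hGfd : ∀ m, FiniteDimensional (ZMod 2) (G m) := fun m => fd_of_le (hG1 m)
  have hE : ∀ i, ∃ E : Submodule (ZMod 2) (MvPolynomial (Fin a) (ZMod 2)),
      E ≤ homogeneousSubmodule (Fin a) (ZMod 2) i ∧
      (a ≤ i → E ⊔ orb (U a) (i - a) = homogeneousSubmodule (Fin a) (ZMod 2) i) ∧
      (¬ a ≤ i → E = homogeneousSubmodule (Fin a) (ZMod 2) i) ∧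
      Module.finrank (ZMod 2) E +
        (if a ≤ i then Module.finrank (ZMod 2) (orb (U a) (i - a)) else 0) = pdim a i := by
    intro i
    by_cases hi : a ≤ i
    · have ho : orb (U a) (i - a) ≤ homogeneousSubmodule (Fin a) (ZMod 2) i := by
        have := orb_homog (U_homog a) (i - a)
        rwa [Nat.add_sub_cancel' hi] at this
      obtain ⟨E, h1, h2, h3⟩ := exists_compl _ _ ho
      refine ⟨E, h1, fun _ => h2, fun h => absurd hi h, ?_⟩
      rw [if_pos hi, h3, finrank_homog, Fintype.card_fin]
    · refine ⟨homogeneousSubmodule (Fin a) (ZMod 2) i, le_rfl, fun h => absurd h hi,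
        fun _ => rfl, ?_⟩
      rw [if_neg hi, add_zero, finrank_homog, Fintype.card_fin]
  choose E hE1 hE2 hE3 hE4 using hE
  have hEfd : ∀ m, FiniteDimensional (ZMod 2) (E m) := fun m => fd_of_le (hE1 m)
  let UP : ℕ → Submodule (ZMod 2) (MvPolynomial (Fin a ⊕ τ) (ZMod 2)) := fun m =>
    pr (Submodule.span (ZMod 2) {U a}) (homogeneousSubmodule τ (ZMod 2) m)
  have step1 : ∀ k, ∀ f, IsOrb (U a) k f → ∀ j g, g ∈ homogeneousSubmodule τ (ZMod 2) j →
      i1 (Fin a) τ f * i2 (Fin a) τ g ∈ hits (Fin a ⊕ τ) ⊔ UP (k + j) := by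
    intro k
    induction k using Nat.strong_induction_on with
    | _ k ih =>
      intro f hf j g hg
      cases hf with
      | base =>
        apply Submodule.mem_sup_right
        rw [zero_add]
        exact mem_pr (Submodule.mem_span_singleton_self _) hg
      | @step k' f' j' hj' hf' =>
        rw [i1_Sq, Sq_left]
        apply Submodule.sub_mem
        · apply Submodule.mem_sup_left
          apply Submodule.subset_span
          exact ⟨j', _, hj', rfl⟩
        · apply Submodule.sum_mem
          rintro ⟨p, q⟩ hp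
          rw [Finset.mem_erase, Finset.HasAntidiagonal.mem_antidiagonal] at hp
          obtain ⟨hp1, hp2⟩ := hp
          have hq : q ≠ 0 := by
            rintro rfl
            apply hp1
            rw [← hp2]
            simp
          simp only at hp2 ⊢
          rw [← i1_Sq, ← i2_Sq]
          have := ih (k' + p) (by omega) (Sq p f') (IsOrb.sq hf' p) (j + q) (Sq q g)
            (Sq_homog hg q)
          have he : k' + p + (j + q) = k' + j' + j := by omega
          rwa [he] at this
  have step1' : ∀ k, ∀ f ∈ orb (U a) k, ∀ j g, g ∈ homogeneousSubmodule τ (ZMod 2) j →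
      i1 (Fin a) τ f * i2 (Fin a) τ g ∈ hits (Fin a ⊕ τ) ⊔ UP (k + j) := by
    intro k f hf j g hg
    have h1 : orb (U a) k ≤ (hits (Fin a ⊕ τ) ⊔ UP (k + j)).comap
        ((LinearMap.mulRight (ZMod 2) (i2 (Fin a) τ g)).comp (i1 (Fin a) τ).toLinearMap) := by
      rw [orb, Submodule.span_le]
      intro f hf
      exact step1 k f hf j g hg
    exact h1 hf
  let W : ℕ → Submodule (ZMod 2) (MvPolynomial (Fin a ⊕ τ) (ZMod 2)) := fun n =>
    (if a ≤ n then UP (n - a) else ⊥) ⊔
      (Finset.range (n + 1)).sup (fun i => pr (E i) (G (n - i)))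
  have hleE : ∀ n i j (_ : i + j = n), pr (E i) (G j) ≤ W n := by
    intro n i j h
    have hm : j = n - i := by omega
    subst hm
    refine le_trans ?_ le_sup_right
    exact Finset.le_sup (f := fun i => pr (E i) (G (n - i))) (Finset.mem_range.2 (by omega))
  have hleU : ∀ n m, a + m = n → UP m ≤ W n := by
    intro n m h
    have hm : m = n - a := by omega
    subst hm
    refine le_trans ?_ le_sup_left
    rw [if_pos (by omega)]
  have key : ∀ m n, ∀ i, i + m = n → ∀ f g, f ∈ homogeneousSubmodule (Fin a) (ZMod 2) i →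
      g ∈ homogeneousSubmodule τ (ZMod 2) m →
      i1 (Fin a) τ f * i2 (Fin a) τ g ∈ hits (Fin a ⊕ τ) ⊔ W n := by
    intro m n
    induction m using Nat.strong_induction_on with
    | _ m ih =>
      intro i hij f g hf hg
      rw [← hG2 m] at hg
      obtain ⟨l, hl, h, hh, rfl⟩ := Submodule.mem_sup.1 hg
      rw [map_add, mul_add]
      apply Submodule.add_mem
      · by_cases hi : a ≤ i
        · rw [← hE2 i hi] at hf
          obtain ⟨e, he, o, ho, rfl⟩ := Submodule.mem_sup.1 hf
          rw [map_add, add_mul]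
          apply Submodule.add_mem
          · apply Submodule.mem_sup_right
            exact hleE n i m hij (mem_pr he hl)
          · have h1 := step1' (i - a) o ho m l (hG1 m hl)
            exact sup_le_sup_left (hleU n (i - a + m) (by omega)) _ h1
        · apply Submodule.mem_sup_right
          rw [← hE3 i hi] at hf
          exact hleE n i m hij (mem_pr hf hl)
      · have h1 : hitsDeg τ m ≤ (hits (Fin a ⊕ τ) ⊔ W n).comap
            ((LinearMap.mulLeft (ZMod 2) (i1 (Fin a) τ f)).comp (i2 (Fin a) τ).toLinearMap) := by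
          rw [hitsDeg, Submodule.span_le]
          rintro _ ⟨k, g', hk, hki, hg', rfl⟩
          change i1 (Fin a) τ f * i2 (Fin a) τ (Sq k g') ∈ hits (Fin a ⊕ τ) ⊔ W n
          rw [i2_Sq, Sq_right]
          apply Submodule.sub_mem
          · apply Submodule.mem_sup_left
            apply Submodule.subset_span
            exact ⟨k, _, hk, rfl⟩
          · apply Submodule.sum_mem
            rintro ⟨p, q⟩ hp
            rw [Finset.mem_erase, Finset.HasAntidiagonal.mem_antidiagonal] at hp
            obtain ⟨hp1, hp2⟩ := hp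
            have hq : p ≠ 0 := by
              rintro rfl
              apply hp1
              rw [← hp2]
              simp
            simp only at hp2 ⊢
            rw [← i1_Sq, ← i2_Sq]
            apply ih (m - k + q) (by omega) (i + p) (by omega)
            · exact Sq_homog hf p
            · exact Sq_homog hg' q
        exact h1 hh
  have hspan : homogeneousSubmodule (Fin a ⊕ τ) (ZMod 2) n ≤ hits (Fin a ⊕ τ) ⊔ W n :=
    homog_sum_le n _ (fun i j hij f g hf hg => key j n i hij f g hf hg)
  obtain ⟨h1, h2⟩ := finrank_finset_sup_le (Finset.range (n + 1))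
    (fun i => pr (E i) (G (n - i))) (fun i _ => pr_fd _ _)
  have hUPfd : ∀ m, FiniteDimensional (ZMod 2) (UP m) := fun m => pr_fd _ _
  have hUP : ∀ m, Module.finrank (ZMod 2) (UP m) ≤ pdim (Fintype.card τ) m := by
    intro m
    refine (finrank_pr_le _ _).trans ?_
    rw [finrank_homog]
    have : Module.finrank (ZMod 2) (Submodule.span (ZMod 2) {U a}) ≤ 1 := by
      have := finrank_span_le_card (R := ZMod 2) ({U a} : Set (MvPolynomial (Fin a) (ZMod 2)))
      simpa using this
    calc _ ≤ 1 * pdim (Fintype.card τ) m := by gcongr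
      _ = _ := one_mul _
  have hUP2fd : FiniteDimensional (ZMod 2)
      ((if a ≤ n then UP (n - a) else ⊥ : Submodule (ZMod 2)
        (MvPolynomial (Fin a ⊕ τ) (ZMod 2)))) := by
    by_cases h : a ≤ n
    · rw [if_pos h]; exact hUPfd _
    · rw [if_neg h]; infer_instance
  have hUP2 : Module.finrank (ZMod 2) ((if a ≤ n then UP (n - a) else ⊥ : Submodule (ZMod 2)
      (MvPolynomial (Fin a ⊕ τ) (ZMod 2)))) ≤
      (if a ≤ n then pdim (Fintype.card τ) (n - a) else 0) := by
    by_cases h : a ≤ n
    · rw [if_pos h, if_pos h]; exact hUP _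
    · rw [if_neg h, if_neg h, finrank_bot]
  have hW : Module.finrank (ZMod 2) (W n) ≤
      (if a ≤ n then pdim (Fintype.card τ) (n - a) else 0) +
      ∑ i ∈ Finset.range (n + 1), Module.finrank (ZMod 2) (E i) * qd τ (n - i) := by
    refine (Submodule.finrank_add_le_finrank_add_finrank _ _).trans ?_
    apply Nat.add_le_add hUP2
    refine h2.trans ?_
    apply Finset.sum_le_sum
    intro i _
    refine (finrank_pr_le _ _).trans ?_
    rw [hG3]
  have hWfd : FiniteDimensional (ZMod 2) (W n) := by
    change FiniteDimensional (ZMod 2) (_ ⊔ _ : Submodule (ZMod 2) _)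
    infer_instance
  have hq := (qd_le_of_le n (W n) hspan).trans hW
  calc _ ≤ ((if a ≤ n then pdim (Fintype.card τ) (n - a) else 0) +
      ∑ i ∈ Finset.range (n + 1), Module.finrank (ZMod 2) (E i) * qd τ (n - i)) +
      ∑ i ∈ Finset.range (n + 1),
        (if a ≤ i then Module.finrank (ZMod 2) (orb (U a) (i - a)) else 0) * qd τ (n - i) := by
        gcongr
    _ = _ := by
      rw [add_assoc, ← Finset.sum_add_distrib]
      congr 1
      apply Finset.sum_congr rfl
      intro i _
      rw [← add_mul, hE4]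

end Pool.Agent.Lib_helper74.Hit
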