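import Pool.Agent.Lib_helper74.Hit.Stmts

/-! Module UPPER (helper77). -/

namespace Pool.Agent.Lib_helper74.Hit

open Filter Topology

theorem upperStmt (hd : DimStmt) (hr : RatioStmt) (hi : InfStmt) : UpperStmt := by
  intro b h A hS ι F d n t hdF hnF ht0 ht1 δ hδ
  obtain ⟨s, hs⟩ := hi b h A hS t ht0 ht1 (δ / 2) (half_pos hδ)
  -- a number between `t` and `1`
  set r : ℝ := (1 + t) / 2 with hrdef
  have htr : t < r := by rw [hrdef]; linarith
  have hr1 : r < 1 := by rw [hrdef]; linarith
  have hr0 : 0 < r := lt_of_le_of_lt ht0 htr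
  set r' : ℝ := (t + r) / 2 with hr'def
  have htr' : t < r' := by rw [hr'def]; linarith
  have hr'r : r' < r := by rw [hr'def]; linarith
  have hdR : Tendsto (fun x => (d x : ℝ)) F atTop := tendsto_natCast_atTop_atTop.comp hdF
  have hev : ∀ᶠ x in F, (n x : ℝ) / ((n x : ℝ) + d x - 1) ≤ r := by
    have h1 := hnF.eventually_lt_const htr'
    have h2 := hdR.eventually_ge_atTop (r / (r - r') + 2)
    filter_upwards [h1, h2] with x hx1 hx2
    have hpos : 0 < r / (r - r') := div_pos hr0 (by linarith)
    have hn0 : (0 : ℝ) ≤ n x := Nat.cast_nonneg _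
    have hnd : 0 < (n x : ℝ) + d x := by linarith
    have hnd1 : 0 < (n x : ℝ) + d x - 1 := by linarith
    rw [div_le_iff₀ hnd1]
    rw [div_lt_iff₀ hnd] at hx1
    have h3 : r ≤ (r - r') * ((n x : ℝ) + d x) := by
      have h4 : r = (r - r') * (r / (r - r')) := by
        field_simp [show r - r' ≠ 0 by linarith]
      have h5 : (r - r') * (r / (r - r')) ≤ (r - r') * ((n x : ℝ) + d x) :=
        mul_le_mul_of_nonneg_left (by linarith) (by linarith)
      linarith
    nlinarith
  have hsd : ∀ᶠ x in F, s < d x := hdF.eventually_gt_atTop s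
  -- summability of the bound
  have hsum : Summable fun i : ℕ => (b s i : ℝ) * r ^ i := by
    refine Summable.of_nonneg_of_le (fun i => by positivity) (fun i => ?_) (hd.2.1 s r hr0.le hr1).summable
    have : (b s i : ℝ) ≤ pdim s i := by exact_mod_cast hS.le s i
    exact mul_le_mul_of_nonneg_right this (by positivity)
  have htend : Tendsto (fun x => ∑' i, (b s i : ℝ) * ratio s i (d x) (n x)) F
      (𝓝 (∑' i, (b s i : ℝ) * (t ^ i * (1 - t) ^ s))) := by
    refine tendsto_tsum_of_dominated_convergence hsum (fun i => ?_) ?_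
    · exact (hr.2 ι F d n t hdF hnF s i).const_mul _
    · filter_upwards [hev, hsd] with x hx hx2 i
      have h1 := hr.1 s i (d x) (n x) hx2
      rw [Real.norm_eq_abs, abs_mul, abs_of_nonneg (Nat.cast_nonneg _), abs_of_nonneg h1.1]
      refine mul_le_mul_of_nonneg_left (h1.2.trans ?_) (Nat.cast_nonneg _)
      refine pow_le_pow_left₀ ?_ hx i
      have h2 : (1 : ℝ) ≤ d x := by exact_mod_cast (Nat.one_le_iff_ne_zero.2 (by omega))
      exact div_nonneg (Nat.cast_nonneg _) (by
        have : (0 : ℝ) ≤ n x := Nat.cast_nonneg _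
        linarith)
  have hlim : ∑' i, (b s i : ℝ) * (t ^ i * (1 - t) ^ s) < phi t + δ := by
    have h1 : ∑' i, (b s i : ℝ) * (t ^ i * (1 - t) ^ s) = (1 - t) ^ s * ∑' i, (b s i : ℝ) * t ^ i := by
      rw [← tsum_mul_left]
      exact tsum_congr fun i => by ring
    rw [h1]
    linarith
  filter_upwards [htend.eventually_lt_const hlim, hsd] with x hx hx2
  have hp : (0 : ℝ) < pdim (d x) (n x) := by exact_mod_cast hd.1 (d x) (n x) (by omega)
  have h1 := hS.sub s (d x - s) (n x)
  rw [show s + (d x - s) = d x by omega] at h1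
  have h2 : (b (d x) (n x) : ℝ) ≤ ∑ i ∈ Finset.range (n x + 1), (b s i : ℝ) * pdim (d x - s) (n x - i) := by
    exact_mod_cast h1
  have h3 : ∑ i ∈ Finset.range (n x + 1), (b s i : ℝ) * pdim (d x - s) (n x - i)
      = (∑' i, (b s i : ℝ) * ratio s i (d x) (n x)) * pdim (d x) (n x) := by
    rw [tsum_eq_sum (s := Finset.range (n x + 1)), Finset.sum_mul]
    · refine Finset.sum_congr rfl fun i hi => ?_
      rw [Finset.mem_range] at hi
      unfold ratio
      rw [if_pos (by omega)]
      field_simp
    · intro i hi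
      rw [Finset.mem_range] at hi
      unfold ratio
      rw [if_neg (by omega), mul_zero]
  rw [h3] at h2
  exact h2.trans (mul_le_mul_of_nonneg_right hx.le hp.le)

end Pool.Agent.Lib_helper74.Hit
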