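import Pool.Agent.Lib_helper74.Hit.WdLow
import Pool.Agent.Lib_helper74.Hit.Spade
import Pool.Agent.Lib_helper74.Hit.Tens
import Pool.Agent.Lib_helper74.Hit.OneVar
import Pool.Agent.Lib_helper74.Hit.Gen
import Pool.Agent.Lib_helper74.Hit.Count
import Pool.Agent.Lib_helper74.Hit.PhiDim
import Pool.Agent.Lib_helper74.Hit.Ratio
import Pool.Agent.Lib_helper74.Hit.Inf
import Pool.Agent.Lib_helper74.Hit.One
import Pool.Agent.Lib_helper74.Hit.Upper
import Pool.Agent.Lib_helper74.Hit.Lower
import Pool.Agent.Lib_helper74.Hit.Final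

/-! The dimensions of the hit problem form a system in the sense of `Sys`. -/

namespace Pool.Agent.Lib_helper74.Hit

open MvPolynomial

theorem finrank_orb_le {σ : Type} (m : ℕ) (y : MvPolynomial σ (ZMod 2)) (hy : y.IsHomogeneous m)
    (k : ℕ) : Module.finrank (ZMod 2) (orb y k) ≤ pcount k := by
  have := (count m k).1
  exact (finrank_orb_le_U hy k).trans ((finrank_orb_U_le m k).trans (count m k).2.1)

theorem sys : Sys (fun d n => qd (Fin d) n)
    (fun a k => Module.finrank (ZMod 2) (orb (U a) k)) pcount where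
  le d n := by
    have := qd_le_pdim (σ := Fin d) n
    rwa [Fintype.card_fin] at this
  hle a i hi := by
    have h1 := orb_homog (U_homog a) (i - a)
    rw [Nat.add_sub_cancel' hi] at h1
    have h2 := Submodule.finrank_mono h1
    rwa [finrank_homog, Fintype.card_fin] at h2
  spade d n := by
    have h := spade_gen (σ := Fin d) pcount (fun m y hy k => finrank_orb_le m y hy k) n
    rwa [finrank_homog, Fintype.card_fin] at h
  diamond a l n := by
    have h := diamond_gen (τ := Fin l) a n
    rw [qd_congr finSumFinEquiv n, Fintype.card_fin] at h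
    exact h
  sub s l n := by
    have h := sub_gen (σ := Fin s) (τ := Fin l) n
    rw [qd_congr finSumFinEquiv n, Fintype.card_fin] at h
    exact h
  one i h := qd_one i h
  ge a k hk := by
    have := (count a k).1
    rw [← (count a k).2.2 hk]
    exact finrank_orb_U_ge a k
  gen x h0 h1 := gen x h0 h1

theorem main (ε : ℝ) (hε : 0 < ε) : ∃ D : ℕ, ∀ d : ℕ, D ≤ d → ∀ n : ℕ,
    |(qd (Fin d) n : ℝ) - phi ((n : ℝ) / (n + d)) * pdim d n| ≤ ε * pdim d n := by
  have hp := phiStmt gen
  have hu := upperStmt dimStmt ratioStmt (infStmt dimStmt)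
  have hl := lowerStmt dimStmt ratioStmt hu
  exact finalStmt hp dimStmt hu hl (oneStmt dimStmt) _ _ _ sys ε hε

end Pool.Agent.Lib_helper74.Hit
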