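import Pool.Agent.Lib_helper74.Hit.Dim

/-! Orbits under compositions of Steenrod squares. -/

namespace Pool.Agent.Lib_helper74.Hit

open MvPolynomial

variable {σ τ : Type}

/-- `f` is obtained from `y` by applying squares of positive degree with total degree `k`. -/
inductive IsOrb (y : MvPolynomial σ (ZMod 2)) : ℕ → MvPolynomial σ (ZMod 2) → Prop
  | base : IsOrb y 0 y
  | step {k : ℕ} {f : MvPolynomial σ (ZMod 2)} (j : ℕ) (hj : 1 ≤ j) (h : IsOrb y k f) :
      IsOrb y (k + j) (Sq j f)

/-- The span of the degree `k` part of the orbit of `y`. -/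
noncomputable def orb (y : MvPolynomial σ (ZMod 2)) (k : ℕ) :
    Submodule (ZMod 2) (MvPolynomial σ (ZMod 2)) :=
  Submodule.span (ZMod 2) {f | IsOrb y k f}

theorem IsOrb.sq {y f : MvPolynomial σ (ZMod 2)} {k : ℕ} (h : IsOrb y k f) (j : ℕ) :
    IsOrb y (k + j) (Sq j f) := by
  rcases j with _ | j
  · rw [Sq_zero]; exact h
  · exact IsOrb.step (j + 1) (by omega) h

theorem mem_orb_zero (y : MvPolynomial σ (ZMod 2)) : y ∈ orb y 0 :=
  Submodule.subset_span IsOrb.base

theorem map_Sq_orb (y : MvPolynomial σ (ZMod 2)) (k j : ℕ) :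
    (orb y k).map (SqL σ j) ≤ orb y (k + j) := by
  rw [orb, Submodule.map_span, Submodule.span_le]
  rintro _ ⟨f, hf, rfl⟩
  exact Submodule.subset_span (IsOrb.sq hf j)

theorem Sq_mem_orb {y f : MvPolynomial σ (ZMod 2)} {k : ℕ} (hf : f ∈ orb y k) (j : ℕ) :
    Sq j f ∈ orb y (k + j) :=
  map_Sq_orb y k j ⟨f, hf, rfl⟩

theorem IsOrb.homog {y : MvPolynomial σ (ZMod 2)} {n : ℕ} (hy : y.IsHomogeneous n)
    {k : ℕ} {f : MvPolynomial σ (ZMod 2)} (h : IsOrb y k f) : f.IsHomogeneous (n + k) := by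
  induction h with
  | base => simpa using hy
  | step j _ _ ih => rw [← add_assoc]; exact Sq_homog ih j

theorem orb_homog {y : MvPolynomial σ (ZMod 2)} {n : ℕ} (hy : y.IsHomogeneous n) (k : ℕ) :
    orb y k ≤ homogeneousSubmodule σ (ZMod 2) (n + k) := by
  rw [orb, Submodule.span_le]
  intro f hf
  exact IsOrb.homog hy hf

/-- An induction principle for orbits: linear maps commuting with all squares. -/
theorem map_orb (Φ : MvPolynomial σ (ZMod 2) →ₗ[ZMod 2] MvPolynomial τ (ZMod 2))
    (hΦ : ∀ k f, Φ (Sq k f) = Sq k (Φ f)) (y : MvPolynomial σ (ZMod 2)) (k : ℕ) :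
    orb (Φ y) k ≤ (orb y k).map Φ := by
  rw [orb, Submodule.span_le]
  intro f hf
  change IsOrb (Φ y) k f at hf
  change f ∈ (orb y k).map Φ
  induction hf with
  | base => exact ⟨y, mem_orb_zero y, rfl⟩
  | step j _ _ ih =>
    obtain ⟨g, hg, rfl⟩ := ih
    exact ⟨Sq j g, Sq_mem_orb hg j, hΦ j g⟩

/-- Submodules stable under squares which contain `y` contain its orbit. -/
theorem orb_le_of (y : MvPolynomial σ (ZMod 2)) (W : ℕ → Submodule (ZMod 2) (MvPolynomial σ (ZMod 2)))
    (h0 : y ∈ W 0) (hs : ∀ k j f, f ∈ W k → Sq j f ∈ W (k + j)) (k : ℕ) : orb y k ≤ W k := by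
  rw [orb, Submodule.span_le]
  intro f hf
  change IsOrb y k f at hf
  change f ∈ W k
  induction hf with
  | base => exact h0
  | step j _ _ ih => exact hs _ _ _ ih

/-- The product of all variables. -/
noncomputable def U (n : ℕ) : MvPolynomial (Fin n) (ZMod 2) := ∏ i, X i

theorem U_homog (n : ℕ) : (U n).IsHomogeneous n := by
  have := IsHomogeneous.prod (R := ZMod 2) (Finset.univ : Finset (Fin n)) (fun i => X i)
    (fun _ => 1) (fun i _ => isHomogeneous_X (ZMod 2) i)
  simpa [U] using this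

theorem prod_toMultiset_X (m : σ →₀ ℕ) :
    ((Finsupp.toMultiset m).map (X : σ → MvPolynomial σ (ZMod 2))).prod = monomial m 1 := by
  classical
  induction m using Finsupp.induction_linear with
  | zero => simp
  | add f g hf hg =>
    rw [Finsupp.toMultiset_add, Multiset.map_add, Multiset.prod_add, hf, hg, monomial_mul, mul_one]
  | single a n =>
    rw [Finsupp.toMultiset_single, Multiset.map_nsmul, Multiset.prod_nsmul,
      Multiset.map_singleton, Multiset.prod_singleton, X_pow_eq_monomial]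

theorem exists_fun_of_degree (m : σ →₀ ℕ) (n : ℕ) (hm : m.degree = n) :
    ∃ θ : Fin n → σ, ∏ i, (X (θ i) : MvPolynomial σ (ZMod 2)) = monomial m 1 := by
  classical
  have h1 : (Finsupp.toMultiset m).card = n := by
    rw [Finsupp.card_toMultiset, ← hm, Finsupp.degree]
    rfl
  have hl : (Finsupp.toMultiset m).toList.length = n := by
    rw [Multiset.length_toList, h1]
  subst hl
  refine ⟨fun i => (Finsupp.toMultiset m).toList.get i, ?_⟩
  have h2 : ∏ i : Fin (Finsupp.toMultiset m).toList.length,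
      (X ((Finsupp.toMultiset m).toList.get i) : MvPolynomial σ (ZMod 2)) =
      ((Finsupp.toMultiset m).toList.map X).prod := by
    rw [← List.prod_ofFn]
    congr 1
    apply List.ext_get
    · simp
    · intro i h1 h2
      simp
  rw [h2, ← Multiset.prod_coe, ← Multiset.map_coe, Multiset.coe_toList, prod_toMultiset_X]

theorem finrank_orb_le_U {n : ℕ} {y : MvPolynomial σ (ZMod 2)} (hy : y.IsHomogeneous n)
    (k : ℕ) : Module.finrank (ZMod 2) (orb y k) ≤ Module.finrank (ZMod 2) (orb (U n) k) := by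
  classical
  have hc : ∀ m ∈ y.support, m.degree = n := by
    intro m hm
    have := hy.degree_eq_sum_deg_support hm
    simpa [Finsupp.degree] using this.symm
  have hex : ∀ m : y.support, ∃ θ : Fin n → σ,
      ∏ i, (X (θ i) : MvPolynomial σ (ZMod 2)) = monomial (m : σ →₀ ℕ) 1 :=
    fun m => exists_fun_of_degree (m : σ →₀ ℕ) n (hc (m : σ →₀ ℕ) m.2)
  choose θ hθ using hex
  let Φ : MvPolynomial (Fin n) (ZMod 2) →ₗ[ZMod 2] MvPolynomial σ (ZMod 2) :=
    ∑ m : y.support, coeff (m : σ →₀ ℕ) y • (rename (θ m)).toLinearMap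
  have hΦa : ∀ f, Φ f = ∑ m : y.support, coeff (m : σ →₀ ℕ) y • rename (θ m) f := by
    intro f
    simp [Φ, LinearMap.sum_apply]
  have hΦ : ∀ k f, Φ (Sq k f) = Sq k (Φ f) := by
    intro k f
    rw [hΦa, hΦa, Sq_sum]
    apply Finset.sum_congr rfl
    intro m _
    rw [Sq_smul, Sq_rename]
  have hU : Φ (U n) = y := by
    rw [hΦa]
    conv_rhs => rw [y.as_sum, ← Finset.sum_coe_sort]
    apply Finset.sum_congr rfl
    intro m hm
    rw [U, map_prod]
    simp only [rename_X]
    rw [hθ m, smul_monomial, smul_eq_mul, mul_one]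
  have h1 := map_orb Φ hΦ (U n) k
  rw [hU] at h1
  have : FiniteDimensional (ZMod 2) (orb (U n) k) := fd_of_le (orb_homog (U_homog n) k)
  exact (Submodule.finrank_mono h1).trans (Submodule.finrank_map_le _ _)

end Pool.Agent.Lib_helper74.Hit
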