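import Pool.Agent.Lib_helper74.Hit.Op

/-! Polynomials divisible by all variables. -/

namespace Pool.Agent.Lib_helper74.Hit

open MvPolynomial

/-- Setting the variable `i` to zero. -/
noncomputable def EE {j : ℕ} (i : Fin j) : PP j →ₐ[ZMod 2] PP j :=
  aeval (fun l => if l = i then 0 else X l)

theorem EE_X {j : ℕ} (i l : Fin j) : EE i (X l) = if l = i then 0 else X l := by
  rw [EE, aeval_X]

theorem EE_Sq {j : ℕ} (i : Fin j) (k : ℕ) (f : PP j) : Sq k (EE i f) = EE i (Sq k f) := by
  have h : (totalSq (Fin j)).comp (EE i) = (Polynomial.mapAlgHom (EE i)).comp (totalSq (Fin j)) := by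
    apply MvPolynomial.algHom_ext
    intro l
    rw [AlgHom.comp_apply, AlgHom.comp_apply, EE_X, totalSq_X]
    split_ifs with h
    · simp [EE_X, h]
    · simp [EE_X, h, totalSq_X]
  have := congrArg (fun F => (F f).coeff k) h
  simpa [Sq] using this

theorem EE_idem {j : ℕ} (i : Fin j) (f : PP j) : EE i (EE i f) = EE i f := by
  have h : (EE i).comp (EE i) = EE i := by
    apply MvPolynomial.algHom_ext
    intro l
    rw [AlgHom.comp_apply, EE_X]
    split_ifs with h
    · simp
    · rw [EE_X, if_neg h]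
  exact congrArg (fun F => F f) h

theorem EE_comm {j : ℕ} (i i' : Fin j) (f : PP j) : EE i (EE i' f) = EE i' (EE i f) := by
  have h : (EE i).comp (EE i') = (EE i').comp (EE i) := by
    apply MvPolynomial.algHom_ext
    intro l
    rw [AlgHom.comp_apply, AlgHom.comp_apply, EE_X, EE_X]
    by_cases h1 : l = i
    · by_cases h2 : l = i'
      · rw [if_pos h1, if_pos h2, map_zero, map_zero]
      · rw [if_pos h1, if_neg h2, EE_X, if_pos h1, map_zero]
    · by_cases h2 : l = i'
      · rw [if_neg h1, if_pos h2, map_zero, EE_X, if_pos h2]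
      · rw [if_neg h1, if_neg h2, EE_X, EE_X, if_neg h1, if_neg h2]
  exact congrArg (fun F => F f) h

theorem EE_homog {j : ℕ} (i : Fin j) {n : ℕ} {f : PP j} (hf : f.IsHomogeneous n) :
    (EE i f).IsHomogeneous n := by
  have := hf.aeval (fun l => if l = i then (0 : PP j) else X l) (n := 1) (by
    intro l
    split_ifs
    · exact isHomogeneous_zero _ _ _
    · exact isHomogeneous_X _ _)
  rw [one_mul] at this
  exact this

theorem X_dvd_sub_EE {j : ℕ} (i : Fin j) (f : PP j) : X i ∣ f - EE i f := by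
  induction f using MvPolynomial.induction_on with
  | C a => simp [EE]
  | add p q hp hq =>
    rw [map_add, add_sub_add_comm]
    exact dvd_add hp hq
  | mul_X p l hp =>
    rw [map_mul, EE_X]
    split_ifs with h
    · rw [mul_zero, sub_zero, h]
      exact dvd_mul_left _ _
    · rw [← sub_mul]
      exact dvd_mul_of_dvd_left hp _

theorem EE_eq_zero_iff {j : ℕ} (i : Fin j) (f : PP j) : EE i f = 0 ↔ X i ∣ f := by
  constructor
  · intro h
    have := X_dvd_sub_EE i f
    rwa [h, sub_zero] at this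
  · rintro ⟨g, rfl⟩
    rw [map_mul, EE_X, if_pos rfl, zero_mul]

/-- Homogeneous polynomials of degree `j + k` divisible by all `j` variables. -/
noncomputable def NN (j k : ℕ) : Submodule (ZMod 2) (PP j) where
  carrier := {f | f.IsHomogeneous (j + k) ∧ ∀ i, EE i f = 0}
  add_mem' := by
    rintro f g ⟨h1, h2⟩ ⟨h3, h4⟩
    exact ⟨h1.add h3, fun i => by rw [map_add, h2, h4, add_zero]⟩
  zero_mem' := ⟨isHomogeneous_zero _ _ _, fun i => map_zero _⟩
  smul_mem' := by
    rintro c f ⟨h1, h2⟩
    exact ⟨(homogeneousSubmodule (Fin j) (ZMod 2) (j + k)).smul_mem c h1,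
      fun i => by rw [map_smul, h2, smul_zero]⟩

theorem mem_NN {j k : ℕ} {f : PP j} : f ∈ NN j k ↔
    f.IsHomogeneous (j + k) ∧ ∀ i, EE i f = 0 := Iff.rfl

theorem NN_le (j k : ℕ) : NN j k ≤ homogeneousSubmodule (Fin j) (ZMod 2) (j + k) :=
  fun _ hf => hf.1

instance NN_fd (j k : ℕ) : FiniteDimensional (ZMod 2) (NN j k) := fd_of_le (NN_le j k)

theorem Sq_NN {j k : ℕ} {f : PP j} (hf : f ∈ NN j k) (m : ℕ) : Sq m f ∈ NN j (k + m) := by
  refine ⟨?_, fun i => ?_⟩
  · rw [← add_assoc]
    exact Sq_homog hf.1 m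
  · rw [← EE_Sq, hf.2, Sq_zero_right]

theorem AA_NN {j k m : ℕ} {f : PP j} (hf : f ∈ NN j k) {θ : Op} (hθ : θ ∈ AA m) :
    θ j f ∈ NN j (k + m) := by
  have h := apply_mem_orb hθ f
  have h1 : orb f m ≤ NN j (k + m) := by
    apply orb_le_of f (fun m => NN j (k + m))
    · exact hf
    · intro a b g hg
      rw [← add_assoc]
      exact Sq_NN hg b
  exact h1 h

theorem AAs_NN {j d k : ℕ} {f : PP j} (hf : f ∈ NN j d) {θ : Op} (hθ : θ ∈ AAs k d) :
    θ j f ∈ NN j k := by
  rw [AAs] at hθ
  split_ifs at hθ with h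
  · have := AA_NN hf hθ
    rwa [Nat.add_sub_cancel' h] at this
  · rw [Submodule.mem_bot] at hθ
    rw [hθ]
    exact Submodule.zero_mem _

theorem U_mem_NN (j : ℕ) : U j ∈ NN j 0 := by
  refine ⟨U_homog j, fun i => ?_⟩
  rw [U, map_prod]
  apply Finset.prod_eq_zero (Finset.mem_univ i)
  rw [EE_X, if_pos rfl]

theorem coeff_EE {j : ℕ} (i : Fin j) (m : Fin j →₀ ℕ) (f : PP j) (hm : m i = 0) :
    coeff m (EE i f) = coeff m f := by
  obtain ⟨g, hg⟩ := X_dvd_sub_EE i f
  have h1 : coeff m (f - EE i f) = 0 := by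
    classical
    rw [hg, coeff_X_mul', if_neg]
    rw [Finsupp.mem_support_iff, not_not]
    exact hm
  rw [coeff_sub, sub_eq_zero] at h1
  exact h1.symm

theorem NN_eq_map (j k : ℕ) : NN j k =
    (homogeneousSubmodule (Fin j) (ZMod 2) k).map (LinearMap.mulLeft (ZMod 2) (U j)) := by
  classical
  apply le_antisymm
  · intro f hf
    rw [f.as_sum]
    apply Submodule.sum_mem
    intro m hm
    have hmi : ∀ i, m i ≠ 0 := by
      intro i h0
      have h1 := coeff_EE i m f h0
      rw [hf.2 i, coeff_zero] at h1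
      exact (mem_support_iff.1 hm) h1.symm
    let m' : Fin j →₀ ℕ := Finsupp.equivFunOnFinite.symm (fun i => m i - 1)
    have h1 : monomial m (coeff m f) = U j * monomial m' (coeff m f) := by
      have hU : U j = monomial (Finsupp.equivFunOnFinite.symm (fun _ => 1)) 1 := by
        rw [U_eq_wm, wm]
        congr 1
      have hmm : m = (Finsupp.equivFunOnFinite.symm (fun _ => 1) : Fin j →₀ ℕ) + m' := by
        ext i
        have := hmi i
        simp only [m', Finsupp.add_apply, Finsupp.coe_equivFunOnFinite_symm]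
        omega
      rw [hU, monomial_mul, one_mul, ← hmm]
    refine ⟨monomial m' (coeff m f), ?_, h1.symm⟩
    apply isHomogeneous_monomial
    have hd : m.degree = j + k := by
      have := hf.1.degree_eq_sum_deg_support hm
      simpa [Finsupp.degree] using this.symm
    rw [Finsupp.degree_eq_sum] at hd ⊢
    have h2 : ∑ i, m i = ∑ i, (m' i + 1) := by
      apply Finset.sum_congr rfl
      intro i _
      have := hmi i
      simp only [m', Finsupp.coe_equivFunOnFinite_symm]
      omega
    rw [h2, Finset.sum_add_distrib, Finset.sum_const, Finset.card_univ, Fintype.card_fin,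
      smul_eq_mul, mul_one] at hd
    omega
  · rintro _ ⟨f, hf, rfl⟩
    refine ⟨(U_homog j).mul hf, fun i => ?_⟩
    rw [LinearMap.mulLeft_apply, map_mul, (U_mem_NN j).2 i, zero_mul]

theorem U_ne_zero (j : ℕ) : U j ≠ 0 := by
  rw [U]
  exact Finset.prod_ne_zero_iff.2 fun i _ => X_ne_zero i

theorem finrank_NN (j k : ℕ) : Module.finrank (ZMod 2) (NN j k) = pdim j k := by
  have hinj : Function.Injective (LinearMap.mulLeft (ZMod 2) (U j)) := by
    intro f g h
    exact mul_left_cancel₀ (U_ne_zero j) h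
  rw [NN_eq_map, ← LinearEquiv.finrank_eq (Submodule.equivMapOfInjective _ hinj _),
    finrank_homog, Fintype.card_fin]

theorem cf_EE_succ {j : ℕ} (i : Fin j) (n : ℕ) (F : PP (j + 1)) :
    cf n (EE i.succ F) = EE i (cf n F) := by
  have h : (finSuccEquiv (ZMod 2) j).toAlgHom.comp (EE i.succ) =
      (Polynomial.mapAlgHom (EE i)).comp (finSuccEquiv (ZMod 2) j).toAlgHom := by
    apply MvPolynomial.algHom_ext
    intro l
    rw [AlgHom.comp_apply, AlgHom.comp_apply, EE_X]
    refine Fin.cases ?_ (fun l => ?_) l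
    · rw [if_neg (Fin.succ_ne_zero i).symm]
      simp [finSuccEquiv_X_zero]
    · by_cases h : l = i
      · subst h
        simp [finSuccEquiv_X_succ, EE_X]
      · rw [if_neg (fun h' => h (Fin.succ_injective _ h'))]
        simp [finSuccEquiv_X_succ, EE_X, h]
  have := congrArg (fun G => (G F).coeff n) h
  simpa [cf_apply] using this

theorem cf_zero_EE {j : ℕ} (F : PP (j + 1)) : cf 0 (EE 0 F) = cf 0 F := by
  have h : ((Polynomial.constantCoeff (R := PP j)).comp
      ((finSuccEquiv (ZMod 2) j).toAlgHom.toRingHom)).comp (EE 0).toRingHom =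
      ((Polynomial.constantCoeff (R := PP j)).comp
      ((finSuccEquiv (ZMod 2) j).toAlgHom.toRingHom)) := by
    apply MvPolynomial.ringHom_ext
    · intro r
      simp [EE]
    · intro l
      refine Fin.cases ?_ (fun l => ?_) l
      · simp [EE_X, finSuccEquiv_X_zero]
      · simp [EE_X, finSuccEquiv_X_succ]
  have := congrArg (fun G => G F) h
  simpa [cf_apply] using this

theorem cf_zero_NN {j k : ℕ} {F : PP (j + 1)} (hF : F ∈ NN (j + 1) k) : cf 0 F = 0 := by
  rw [← cf_zero_EE, hF.2, map_zero]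

theorem cf_homog {j n : ℕ} {F : PP (j + 1)} (hF : F.IsHomogeneous n) (b : ℕ) :
    (b ≤ n → (cf b F).IsHomogeneous (n - b)) ∧ (n < b → cf b F = 0) := by
  classical
  have key : ∀ m, coeff m (cf b F) ≠ 0 → b + m.degree = n := by
    intro m hm
    rw [cf_apply, finSuccEquiv_coeff_coeff] at hm
    have h1 := hF.degree_eq_sum_deg_support (mem_support_iff.2 hm)
    have h2 : (m.cons b).degree = n := by simpa [Finsupp.degree] using h1.symm
    rw [Finsupp.degree_eq_sum, Fin.sum_univ_succ, Finsupp.cons_zero] at h2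
    simp only [Finsupp.cons_succ] at h2
    rw [Finsupp.degree_eq_sum]
    exact h2
  constructor
  · intro hb
    rw [(cf b F).as_sum]
    apply IsHomogeneous.sum
    intro m hm
    apply isHomogeneous_monomial
    have := key m (mem_support_iff.1 hm)
    omega
  · intro hb
    ext m
    rw [coeff_zero]
    by_contra hm
    have := key m hm
    omega

theorem cf_NN {j k : ℕ} {F : PP (j + 1)} (hF : F ∈ NN (j + 1) k) {b : ℕ} (hb : b ≤ k + 1) :
    cf b F ∈ NN j (k + 1 - b) := by
  refine ⟨?_, fun i => ?_⟩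
  · have := (cf_homog hF.1 b).1 (by omega)
    have h1 : j + 1 + k - b = j + (k + 1 - b) := by omega
    rwa [h1] at this
  · rw [← cf_EE_succ, hF.2, map_zero]

theorem cf_NN_gt {j k : ℕ} {F : PP (j + 1)} (hF : F ∈ NN (j + 1) k) {b : ℕ} (hb : k + 1 < b) :
    cf b F = 0 := by
  by_cases h : b ≤ j + 1 + k
  · have h1 := (cf_homog hF.1 b).1 h
    have h2 : ∀ i, EE i (cf b F) = 0 := fun i => by rw [← cf_EE_succ, hF.2, map_zero]
    have h3 : U j ∣ cf b F ∨ True := Or.inr trivial
    by_contra hne
    obtain ⟨m, hm⟩ := ne_zero_iff.1 hne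
    have hmi : ∀ i, m i ≠ 0 := by
      intro i h0
      have h4 := coeff_EE i m (cf b F) h0
      rw [h2 i, coeff_zero] at h4
      exact hm h4.symm
    have hd := h1.degree_eq_sum_deg_support (mem_support_iff.2 hm)
    have hd' : m.degree = j + 1 + k - b := by simpa [Finsupp.degree] using hd.symm
    rw [Finsupp.degree_eq_sum] at hd'
    have h5 : ∑ _i : Fin j, 1 ≤ ∑ i, m i := Finset.sum_le_sum fun i _ =>
      Nat.one_le_iff_ne_zero.2 (hmi i)
    rw [Finset.sum_const, Finset.card_univ, Fintype.card_fin, smul_eq_mul, mul_one] at h5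
    omega
  · exact (cf_homog hF.1 b).2 (by omega)

theorem up_mul_NN {j k : ℕ} {f : PP j} (hf : f ∈ NN j k) (b : ℕ) :
    up j f * X 0 ^ (b + 1) ∈ NN (j + 1) (k + b) := by
  refine ⟨?_, fun i => ?_⟩
  · have h1 : (up j f).IsHomogeneous (j + k) := IsHomogeneous.rename_isHomogeneous hf.1
    have h2 := h1.mul ((isHomogeneous_X (ZMod 2) (0 : Fin (j + 1))).pow (b + 1))
    have h3 : j + k + 1 * (b + 1) = j + 1 + (k + b) := by ring
    rwa [h3] at h2
  · refine Fin.cases ?_ (fun i => ?_) i
    · rw [map_mul, map_pow, EE_X, if_pos rfl, zero_pow (by omega), mul_zero]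
    · have h : EE i.succ (up j f) = up j (EE i f) := by
        have h1 : (EE i.succ).comp (up j) = (up j).comp (EE i) := by
          apply MvPolynomial.algHom_ext
          intro l
          rw [AlgHom.comp_apply, AlgHom.comp_apply, up, rename_X, EE_X, EE_X]
          by_cases h : l = i
          · rw [if_pos (by rw [h]), if_pos h, map_zero]
          · rw [if_neg (fun h' => h (Fin.succ_injective _ h')), if_neg h, rename_X]
        exact congrArg (fun G => G f) h1
      rw [map_mul, h, hf.2 i, map_zero, zero_mul]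

/-- Projection onto the polynomials divisible by all variables. -/
theorem exists_proj (j : ℕ) : ∃ π : PP j →ₗ[ZMod 2] PP j,
    (∀ k f, Sq k (π f) = π (Sq k f)) ∧ (∀ n f, f.IsHomogeneous n → (π f).IsHomogeneous n) ∧
    (∀ f, (∀ i, EE i f = 0) → π f = f) ∧ (∀ f i, EE i (π f) = 0) := by
  classical
  have key : ∀ s : Finset (Fin j), ∃ π : PP j →ₗ[ZMod 2] PP j,
    (∀ k f, Sq k (π f) = π (Sq k f)) ∧ (∀ n f, f.IsHomogeneous n → (π f).IsHomogeneous n) ∧
    (∀ f, (∀ i, EE i f = 0) → π f = f) ∧ (∀ f, ∀ i ∈ s, EE i (π f) = 0) := by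
    intro s
    induction s using Finset.induction_on with
    | empty =>
      exact ⟨LinearMap.id, fun _ _ => rfl, fun _ _ h => h, fun _ _ => rfl,
        fun _ i hi => absurd hi (Finset.notMem_empty i)⟩
    | insert a s ha ih =>
      obtain ⟨π, h1, h2, h3, h4⟩ := ih
      refine ⟨π - (EE a).toLinearMap.comp π, ?_, ?_, ?_, ?_⟩
      · intro k f
        rw [LinearMap.sub_apply, LinearMap.sub_apply, LinearMap.comp_apply, LinearMap.comp_apply,
          ← h1]
        change SqL _ k (π f - EE a (π f)) = _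
        rw [map_sub, SqL_apply, SqL_apply, EE_Sq]
        rfl
      · intro n f hf
        rw [LinearMap.sub_apply, LinearMap.comp_apply]
        exact (h2 n f hf).sub (EE_homog a (h2 n f hf))
      · intro f hf
        rw [LinearMap.sub_apply, LinearMap.comp_apply, h3 f hf]
        change f - EE a f = f
        rw [hf a, sub_zero]
      · intro f i hi
        rw [LinearMap.sub_apply, LinearMap.comp_apply]
        change EE i (π f - EE a (π f)) = 0
        rw [map_sub]
        rcases Finset.mem_insert.1 hi with rfl | hi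
        · rw [EE_idem, sub_self]
        · rw [EE_comm, h4 f i hi, map_zero, sub_zero]
  obtain ⟨π, h1, h2, h3, h4⟩ := key Finset.univ
  exact ⟨π, h1, h2, h3, fun f i => h4 f i (Finset.mem_univ i)⟩

/-- Hits of polynomials divisible by all variables. -/
theorem hits_NN {j k : ℕ} {f : PP j} (hf : f ∈ NN j k) (hh : f ∈ hits (Fin j)) :
    f ∈ Submodule.span (ZMod 2) {g | ∃ (m : ℕ) (y : PP j), 1 ≤ m ∧ m ≤ k ∧ y ∈ NN j (k - m) ∧
      g = Sq m y} := by
  obtain ⟨π, h1, h2, h3, h4⟩ := exists_proj j
  have h5 := mem_hitsDeg hh hf.1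
  have h6 : hitsDeg (Fin j) (j + k) ≤ (Submodule.span (ZMod 2) {g | ∃ (m : ℕ) (y : PP j),
      1 ≤ m ∧ m ≤ k ∧ y ∈ NN j (k - m) ∧ g = Sq m y}).comap π := by
    rw [hitsDeg, Submodule.span_le]
    rintro _ ⟨m, y, hm, hmk, hy, rfl⟩
    change π (Sq m y) ∈ Submodule.span (ZMod 2) {g | ∃ (m : ℕ) (y : PP j),
      1 ≤ m ∧ m ≤ k ∧ y ∈ NN j (k - m) ∧ g = Sq m y}
    rw [← h1]
    by_cases hk : m ≤ k
    · apply Submodule.subset_span
      refine ⟨m, π y, hm, hk, ⟨?_, h4 y⟩, rfl⟩
      have := h2 _ y hy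
      have he : j + k - m = j + (k - m) := by omega
      rwa [he] at this
    · have hz : π y = 0 := by
        by_contra hne
        obtain ⟨b, hb⟩ := ne_zero_iff.1 hne
        have hmi : ∀ i, b i ≠ 0 := by
          intro i h0
          have h4' := coeff_EE i b (π y) h0
          rw [h4 y i, coeff_zero] at h4'
          exact hb h4'.symm
        have hd := (h2 _ y hy).degree_eq_sum_deg_support (mem_support_iff.2 hb)
        have hd' : b.degree = j + k - m := by simpa [Finsupp.degree] using hd.symm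
        rw [Finsupp.degree_eq_sum] at hd'
        have h5 : ∑ _i : Fin j, 1 ≤ ∑ i, b i := Finset.sum_le_sum fun i _ =>
          Nat.one_le_iff_ne_zero.2 (hmi i)
        rw [Finset.sum_const, Finset.card_univ, Fintype.card_fin, smul_eq_mul, mul_one] at h5
        omega
      rw [hz, Sq_zero_right]
      exact Submodule.zero_mem _
  have h7 := h6 h5
  rw [Submodule.mem_comap, h3 f hf.2] at h7
  exact h7

end Pool.Agent.Lib_helper74.Hit
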