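import Pool.Agent.Lib_helper74.Hit.Defs

/-! Polynomials divisible by all variables and the corresponding part of the hit problem. -/

namespace Pool.Agent.Lib_helper74.Hit

open MvPolynomial

/-- The homogeneous polynomials of degree `n` in `d` variables over `ZMod 2` which are divisible
by every variable. -/
noncomputable def plusHomog (d n : ℕ) : Submodule (ZMod 2) (MvPolynomial (Fin d) (ZMod 2)) where
  carrier := {f | f.IsHomogeneous n ∧ ∀ i, X i ∣ f}
  add_mem' := fun h1 h2 => ⟨h1.1.add h2.1, fun i => dvd_add (h1.2 i) (h2.2 i)⟩
  zero_mem' := ⟨isHomogeneous_zero _ _ _, fun _ => dvd_zero _⟩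
  smul_mem' := fun c _ h => ⟨(homogeneousSubmodule _ (ZMod 2) n).smul_mem c h.1,
    fun i => dvd_smul_of_dvd c (h.2 i)⟩

/-- The dimension of the degree `n` part of `Q (P_d^+)`, where `P_d^+` consists of the
polynomials in `d` variables divisible by every variable: the dimension of the image of
`plusHomog d n` in the quotient of the polynomial algebra by the hit polynomials. -/
noncomputable def qplus (d n : ℕ) : ℕ :=
  Module.finrank (ZMod 2) ((plusHomog d n).map (hits (Fin d)).mkQ)

end Pool.Agent.Lib_helper74.Hit
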