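import Pool.Agent.Lib_helper74.Hit.Fam2
import Pool.Agent.Lib_helper74.Hit.Formal
import Pool.Agent.Lib_helper74.Hit.PlusDefs

/-! The stable range theorem. -/

namespace Pool.Agent.Lib_helper74.Hit

open MvPolynomial

theorem plusHomog_eq (j k : ℕ) : plusHomog j (j + k) = NN j k := by
  ext f
  change (f.IsHomogeneous (j + k) ∧ ∀ i, X i ∣ f) ↔ (f.IsHomogeneous (j + k) ∧ ∀ i, EE i f = 0)
  simp only [EE_eq_zero_iff]

theorem finrank_map_mkQ {A : Type} [AddCommGroup A] [Module (ZMod 2) A]
    (H K : Submodule (ZMod 2) A) [FiniteDimensional (ZMod 2) H] :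
    Module.finrank (ZMod 2) (H.map K.mkQ) + Module.finrank (ZMod 2) (K ⊓ H : Submodule _ A) =
      Module.finrank (ZMod 2) H := by
  have h := LinearMap.finrank_range_add_finrank_ker (K.mkQ.domRestrict H)
  rw [← h]
  congr 1
  · rw [LinearMap.range_domRestrict]
  · have h1 : LinearMap.ker (K.mkQ.domRestrict H) = (K ⊓ H).comap H.subtype := by
      ext x
      simp only [LinearMap.mem_ker, LinearMap.domRestrict_apply, Submodule.mkQ_apply,
        Submodule.Quotient.mk_eq_zero, Submodule.mem_comap, Submodule.subtype_apply,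
        Submodule.mem_inf]
      exact ⟨fun hx => ⟨hx, x.2⟩, fun hx => hx.1⟩
    rw [h1]
    exact (Submodule.comapSubtypeEquivOfLe inf_le_right).finrank_eq.symm

theorem finrank_AAs (k d : ℕ) : Module.finrank (ZMod 2) (AAs k d) =
    if d ≤ k then pcount (k - d) else 0 := by
  by_cases h : d ≤ k
  · rw [AAs_of_le h, finrank_AA, if_pos h]
  · rw [AAs, if_neg h, if_neg h, finrank_bot]

instance AAs_fd (k d : ℕ) : FiniteDimensional (ZMod 2) (AAs k d) := by
  by_cases h : d ≤ k
  · rw [AAs_of_le h]; infer_instance
  · rw [AAs, if_neg h]; infer_instance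

/-- Dimension of the generated part from independence. -/
theorem finrank_ZZ {j : ℕ} {ι : Type} [Fintype ι] (l : ι → PP j) (d : ι → ℕ) (k : ℕ)
    (h : ∀ θ : ι → Op, (∀ a, θ a ∈ AAs k (d a)) → ∑ a, θ a j (l a) = 0 → ∀ a, θ a = 0) :
    Module.finrank (ZMod 2) (ZZ l d k) = ∑ a, if d a ≤ k then pcount (k - d a) else 0 := by
  classical
  let Ψ : ((a : ι) → AAs k (d a)) →ₗ[ZMod 2] PP j :=
    ∑ a, ((evOp (l a)).comp ((AAs k (d a)).subtype)).comp (LinearMap.proj a)
  have hΨ : ∀ θ, Ψ θ = ∑ a, (θ a : Op) j (l a) := by
    intro θ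
    simp only [Ψ, LinearMap.sum_apply]
    rfl
  have hinj : Function.Injective Ψ := by
    rw [injective_iff_map_eq_zero]
    intro θ hθ
    rw [hΨ] at hθ
    funext a
    apply Subtype.ext
    exact h (fun a => (θ a : Op)) (fun a => (θ a).2) hθ a
  have hfree : ∀ a, Module.Free (ZMod 2) (AAs k (d a)) :=
    fun a => Module.Free.of_divisionRing (ZMod 2) _
  have hrange : LinearMap.range Ψ = ZZ l d k := by
    ext y
    rw [mem_ZZ, LinearMap.mem_range]
    constructor
    · rintro ⟨θ, rfl⟩
      exact ⟨fun a => (θ a : Op), fun a => (θ a).2, hΨ θ⟩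
    · rintro ⟨θ, hθ, rfl⟩
      exact ⟨fun a => ⟨θ a, hθ a⟩, hΨ _⟩
  rw [← hrange, LinearMap.finrank_range_of_inj hinj, Module.finrank_pi_fintype]
  exact Finset.sum_congr rfl fun a _ => finrank_AAs k (d a)

/-- The recursion for the dimensions in the stable range. -/
theorem stable_rec (j : ℕ) : ∃ c : ℕ → ℕ, (∀ k, 2 * k ≤ j → qplus j (j + k) = c k) ∧
    ∀ k, 2 * k ≤ j + 1 → qplus j (j + k) + ∑ i ∈ Finset.range k, c i * pcount (k - i) =
      pdim j k := by
  classical
  obtain ⟨ι, hι, l, d, hl, hd, hgen, hind⟩ := HH_all j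
  let c : ℕ → ℕ := fun i => (Finset.univ.filter (fun a => d a = i)).card
  -- the restricted family
  have hfib : ∀ k, (∑ a : {a // d a < k}, if d a.1 ≤ k then pcount (k - d a.1) else 0) =
      ∑ i ∈ Finset.range k, c i * pcount (k - i) := by
    intro k
    have e1 : (∑ a : {a // d a < k}, if d a.1 ≤ k then pcount (k - d a.1) else 0) =
        ∑ a ∈ Finset.univ.filter (fun a => d a < k), pcount (k - d a) := by
      rw [Finset.sum_subtype (Finset.univ.filter (fun a => d a < k)) (p := fun a => d a < k)
        (by intro x; simp)]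
      apply Finset.sum_congr rfl
      intro a _
      rw [if_pos a.2.le]
    rw [e1, ← Finset.sum_fiberwise_of_maps_to (t := Finset.range k) (g := d)
      (by intro a ha; simpa using ha)]
    apply Finset.sum_congr rfl
    intro i hi
    rw [Finset.mem_range] at hi
    rw [Finset.filter_filter]
    have e2 : (Finset.univ.filter (fun a => d a < k ∧ d a = i)) =
        Finset.univ.filter (fun a => d a = i) := by
      ext a
      simp only [Finset.mem_filter, Finset.mem_univ, true_and]
      constructor
      · exact fun h => h.2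
      · intro h; exact ⟨by omega, h⟩
    rw [e2]
    have e3 : ∀ a ∈ Finset.univ.filter (fun a => d a = i), pcount (k - d a) = pcount (k - i) := by
      intro a ha
      rw [Finset.mem_filter] at ha
      rw [ha.2]
    rw [Finset.sum_congr rfl e3, Finset.sum_const, smul_eq_mul]
  have hmain : ∀ k, 2 * k ≤ j + 1 →
      qplus j (j + k) + ∑ i ∈ Finset.range k, c i * pcount (k - i) = pdim j k := by
    intro k hk
    let l' : {a // d a < k} → PP j := fun a => l a.1
    let d' : {a // d a < k} → ℕ := fun a => d a.1
    have hl' : ∀ a, l' a ∈ NN j (d' a) := fun a => hl a.1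
    have hI : ∀ θ : {a // d a < k} → Op, (∀ a, θ a ∈ AAs k (d' a)) →
        ∑ a, θ a j (l' a) = 0 → ∀ a, θ a = 0 := by
      intro θ h1 h2 a
      have hk1 : 1 ≤ k := by have := a.2; omega
      let Θ : ι → Op := fun a => if h : d a < k then θ ⟨a, h⟩ else 0
      have hΘ : ∀ a : {a // d a < k}, Θ a.1 = θ a := by
        intro a
        change (if h : d a.1 < k then _ else _) = _
        rw [dif_pos a.2]
      have h3 : ∀ a, Θ a = 0 := by
        apply hind (k - 1) k (by omega) Θ
        · intro a
          by_cases h : d a < k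
          · rw [hΘ ⟨a, h⟩]; exact h1 ⟨a, h⟩
          · have : Θ a = 0 := dif_neg h
            rw [this]; exact Submodule.zero_mem _
        · intro a ha
          exact dif_neg (by omega)
        · rw [← h2]
          have e1 : ∑ a, θ a j (l' a) =
              ∑ a ∈ Finset.univ.filter (fun a => d a < k), Θ a j (l a) := by
            rw [Finset.sum_subtype (Finset.univ.filter (fun a => d a < k))
              (p := fun a => d a < k) (by intro x; simp)]
            apply Finset.sum_congr rfl
            intro a _
            rw [hΘ a]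
          rw [e1, Finset.sum_filter_of_ne]
          intro a _ ha
          by_contra hne
          apply ha
          have : Θ a = 0 := dif_neg hne
          rw [this]; rfl
      rw [← hΘ a]
      exact h3 a.1
    have hZ : hits (Fin j) ⊓ NN j k = ZZ l' d' k := by
      apply le_antisymm
      · rintro y ⟨hy1, hy2⟩
        have h3 := hits_NN hy2 hy1
        refine (Submodule.span_le.2 ?_) h3
        rintro _ ⟨m, z, hm, hmk, hz, rfl⟩
        obtain ⟨θ, hθ, rfl⟩ := mem_ZZ.1 (hgen (k - m) (by omega) hz)
        rw [Sq_sum]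
        apply Submodule.sum_mem
        intro a _
        by_cases ha : d a ≤ k - m
        · have h4 := hθ a
          rw [AAs_of_le ha] at h4
          have h5 := sqOp_mem h4 m
          have h6 : k - m - d a + m = k - d a := by omega
          rw [h6] at h5
          apply Submodule.mem_iSup_of_mem (⟨a, by omega⟩ : {a // d a < k})
          refine ⟨sqOp m (θ a), ?_, rfl⟩
          change sqOp m (θ a) ∈ AAs k (d a)
          rw [AAs_of_le (by omega)]
          exact h5
        · rw [AAs_zero (by omega) (hθ a), Pi.zero_apply, LinearMap.zero_apply, Sq_zero_right]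
          exact Submodule.zero_mem _
      · apply le_inf
        · apply iSup_le
          intro a
          rintro _ ⟨θ, hθ, rfl⟩
          have h4 : θ ∈ AAs k (d a.1) := hθ
          have ha := a.2
          rw [AAs_of_le (by omega)] at h4
          exact apply_mem_hits h4 (by omega) _
        · exact ZZ_le_NN hl' k
    have h5 := finrank_map_mkQ (NN j k) (hits (Fin j))
    rw [hZ, finrank_ZZ l' d' k hI, finrank_NN] at h5
    rw [qplus, plusHomog_eq, ← hfib k]
    exact h5
  refine ⟨c, ?_, hmain⟩
  intro k hk
  have h1 := hmain k (by omega)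
  have h2 : NN j k = ZZ l d k := le_antisymm (hgen k (by omega)) (ZZ_le_NN hl k)
  have h3 : Module.finrank (ZMod 2) (ZZ l d k) =
      ∑ a, if d a ≤ k then pcount (k - d a) else 0 := by
    apply finrank_ZZ
    intro θ ht1 ht2
    apply hind k k (by omega) θ ht1 _ ht2
    intro a ha
    exact AAs_zero ha (ht1 a)
  rw [← h2, finrank_NN] at h3
  have h4 : (∑ a, if d a ≤ k then pcount (k - d a) else 0) =
      (∑ i ∈ Finset.range k, c i * pcount (k - i)) + c k := by
    rw [← hfib k]
    have e1 : (∑ a : {a // d a < k}, if d a.1 ≤ k then pcount (k - d a.1) else 0) =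
        ∑ a ∈ Finset.univ.filter (fun a => d a < k), pcount (k - d a) := by
      rw [Finset.sum_subtype (Finset.univ.filter (fun a => d a < k)) (p := fun a => d a < k)
        (by intro x; simp)]
      apply Finset.sum_congr rfl
      intro a _
      rw [if_pos a.2.le]
    rw [e1]
    change _ = _ + (Finset.univ.filter (fun a => d a = k)).card
    rw [Finset.card_filter, Finset.sum_filter, ← Finset.sum_add_distrib]
    apply Finset.sum_congr rfl
    intro a _
    have hp0 : pcount 0 = 1 := by
      rw [← finrank_AA]
      have h5 : AA 0 = Submodule.span (ZMod 2) {idOp} := by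
        apply le_antisymm
        · apply AA_le
          intro η hη
          generalize hz : (0 : ℕ) = z at hη
          cases hη with
          | one => exact Submodule.mem_span_singleton_self _
          | step b hb _ => omega
        · rw [Submodule.span_singleton_le_iff_mem]
          exact idOp_mem
      rw [h5, finrank_span_singleton]
      intro h6
      have h7 := congrFun h6 0
      have h8 := congrArg (fun φ => φ (1 : PP 0)) h7
      exact one_ne_zero h8
    by_cases h6 : d a < k
    · rw [if_pos h6, if_pos h6.le, if_neg (by omega), add_zero]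
    · by_cases h7 : d a = k
      · rw [if_neg h6, if_pos h7.le, if_pos h7, h7, Nat.sub_self, hp0]
      · rw [if_neg h6, if_neg (by omega), if_neg h7]
  omega

/-- The convolution identity. -/
theorem stable_conv (j k : ℕ) (hk : 2 * k ≤ j + 1) :
    PowerSeries.coeff k (PowerSeries.mk (fun k => (pcount k : ℤ)) *
      PowerSeries.mk (fun k => (qplus j (j + k) : ℤ))) = (pdim j k : ℤ) := by
  obtain ⟨c, hc1, hc2⟩ := stable_rec j
  rw [mul_comm, PowerSeries.coeff_mul, Finset.Nat.sum_antidiagonal_eq_sum_range_succ_mk,
    Finset.sum_range_succ]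
  simp only [PowerSeries.coeff_mk, Nat.sub_self]
  have hp0 : pcount 0 = 1 := by
    have h0 := (stable_rec 0).choose_spec
    have := X_pow_dvd_mk_Phi 0 1 (by omega)
    rw [zero_add, pow_one, PowerSeries.X_dvd_iff] at this
    simp only [Phi, Finset.range_one, Finset.prod_singleton, zero_add, pow_one, map_sub, map_mul,
      map_one, PowerSeries.constantCoeff_mk] at this
    have h2 : (pcount 0 : ℤ) = 1 := by
      have h3 : PowerSeries.constantCoeff (R := ℤ) (PowerSeries.X ^ (2 - 1)) = 0 := by simp
      rw [h3, sub_zero, mul_one, sub_eq_zero] at this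
      exact this
    exact_mod_cast h2
  rw [hp0, ← hc2 k hk]
  push_cast
  rw [mul_one, add_comm]
  congr 1
  apply Finset.sum_congr rfl
  intro i hi
  rw [Finset.mem_range] at hi
  rw [hc1 i (by omega)]

theorem stable (j k : ℕ) (hk : 2 * k ≤ j + 1) : (qplus j (j + k) : ℤ) =
    PowerSeries.coeff k (PowerSeries.mk (fun m => (pdim j m : ℤ)) * Phi (k + 1)) := by
  let A : PowerSeries ℤ := PowerSeries.mk (fun k => (pcount k : ℤ))
  let Q : PowerSeries ℤ := PowerSeries.mk (fun k => (qplus j (j + k) : ℤ))
  let P : PowerSeries ℤ := PowerSeries.mk (fun m => (pdim j m : ℤ))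
  have h1 : PowerSeries.X ^ (k + 1) ∣ A * Q - P := by
    rw [PowerSeries.X_pow_dvd_iff]
    intro m hm
    rw [map_sub, stable_conv j m (by omega), PowerSeries.coeff_mk, sub_self]
  have h2 : PowerSeries.X ^ (k + 1) ∣ A * Phi (k + 1) - 1 := X_pow_dvd_mk_Phi k (k + 1) (by omega)
  have h3 : PowerSeries.X ^ (k + 1) ∣ Q - P * Phi (k + 1) := by
    have h4 : Q - P * Phi (k + 1) = (A * Q - P) * Phi (k + 1) - Q * (A * Phi (k + 1) - 1) := by
      ring
    rw [h4]
    exact dvd_sub (dvd_mul_of_dvd_left h1 _) (dvd_mul_of_dvd_right h2 _)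
  rw [PowerSeries.X_pow_dvd_iff] at h3
  have h4 := h3 k (by omega)
  rw [map_sub, PowerSeries.coeff_mk, sub_eq_zero] at h4
  exact h4

end Pool.Agent.Lib_helper74.Hit
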