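import Pool.Agent.Lib_helper74.Hit.Defs2

/-! Statements of the analytic modules for the hit problem. -/

namespace Pool.Agent.Lib_helper74.Hit

open Filter Topology

/-- The numerical system satisfied by the dimensions. -/
structure Sys (b h : ℕ → ℕ → ℕ) (A : ℕ → ℕ) : Prop where
  le : ∀ d n, b d n ≤ pdim d n
  hle : ∀ a i, a ≤ i → h a (i - a) ≤ pdim a i
  spade : ∀ d n, pdim d n ≤ ∑ i ∈ Finset.range (n + 1), A i * b d (n - i)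
  diamond : ∀ a l n, b (a + l) n +
        ∑ i ∈ Finset.range (n + 1), (if a ≤ i then h a (i - a) else 0) * b l (n - i) ≤
        (if a ≤ n then pdim l (n - a) else 0) +
          ∑ i ∈ Finset.range (n + 1), pdim a i * b l (n - i)
  sub : ∀ s l n, b (s + l) n ≤ ∑ i ∈ Finset.range (n + 1), b s i * pdim l (n - i)
  one : ∀ i, b 1 i ≠ 0 → ∃ e, i + 1 = 2 ^ e
  ge : ∀ a k, k ≤ a → A k ≤ h a k
  gen : ∀ x : ℝ, 0 ≤ x → x < 1 → 0 < phi x ∧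
      HasSum (fun k => (A k : ℝ) * x ^ k) (phi x)⁻¹

/-- Module PHI: from GEN, properties of `phi` on `[0,1]`. -/
def PhiStmt : Prop :=
  ContinuousOn phi (Set.Icc 0 1) ∧ phi 1 = 0 ∧ phi 0 = 1 ∧ ∀ x ∈ Set.Icc (0 : ℝ) 1, 0 ≤ phi x ∧ phi x ≤ 1

/-- Module DIM: facts on `pdim`. -/
def DimStmt : Prop :=
  (∀ d n, 1 ≤ d → 0 < pdim d n) ∧
  (∀ (d : ℕ) (x : ℝ), 0 ≤ x → x < 1 →
    HasSum (fun n => (pdim d n : ℝ) * x ^ n) ((1 - x) ^ d)⁻¹) ∧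
  (∀ d n : ℕ, pdim (d + 1) n = ∑ i ∈ Finset.range (n + 1), pdim d i)

/-- The ratio of dimensions `p_{d-s}(n-i) / p_d(n)`. -/
noncomputable def ratio (s i d n : ℕ) : ℝ :=
  if i ≤ n then (pdim (d - s) (n - i) : ℝ) / pdim d n else 0

/-- Module RATIO: asymptotics and a bound for the ratio. -/
def RatioStmt : Prop :=
  (∀ s i d n : ℕ, s < d → 0 ≤ ratio s i d n ∧
      ratio s i d n ≤ ((n : ℝ) / ((n : ℝ) + d - 1)) ^ i) ∧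
  (∀ (ι : Type) (F : Filter ι) (d n : ι → ℕ) (t : ℝ), Tendsto d F atTop →
    Tendsto (fun x => (n x : ℝ) / (n x + d x)) F (𝓝 t) →
    ∀ s i : ℕ, Tendsto (fun x => ratio s i (d x) (n x)) F (𝓝 (t ^ i * (1 - t) ^ s)))

/-- Module INF: the normalised Poincaré series get below `phi + δ`. -/
def InfStmt : Prop :=
  ∀ (b h : ℕ → ℕ → ℕ) (A : ℕ → ℕ), Sys b h A → ∀ t : ℝ, 0 ≤ t → t < 1 → ∀ δ : ℝ, 0 < δ →
    ∃ s : ℕ, (1 - t) ^ s * ∑' i, (b s i : ℝ) * t ^ i ≤ phi t + δ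

/-- Module ONE: the case `n / d → ∞`. -/
def OneStmt : Prop :=
  ∀ (b h : ℕ → ℕ → ℕ) (A : ℕ → ℕ), Sys b h A →
    ∀ ε : ℝ, 0 < ε → ∃ C : ℕ, ∀ d n : ℕ, 2 ≤ d → C * d ≤ n →
      (b d n : ℝ) ≤ ε * pdim d n

/-- Module UPPER: the upper bound along a filter. -/
def UpperStmt : Prop :=
  ∀ (b h : ℕ → ℕ → ℕ) (A : ℕ → ℕ), Sys b h A →
    ∀ (ι : Type) (F : Filter ι) (d n : ι → ℕ) (t : ℝ), Tendsto d F atTop →
    Tendsto (fun x => (n x : ℝ) / (n x + d x)) F (𝓝 t) → 0 ≤ t → t < 1 →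
    ∀ δ : ℝ, 0 < δ → ∀ᶠ x in F, (b (d x) (n x) : ℝ) ≤ (phi t + δ) * pdim (d x) (n x)

/-- Module LOWER: the lower bound along a filter. -/
def LowerStmt : Prop :=
  ∀ (b h : ℕ → ℕ → ℕ) (A : ℕ → ℕ), Sys b h A →
    ∀ (ι : Type) (F : Filter ι) (d n : ι → ℕ) (t : ℝ), Tendsto d F atTop →
    Tendsto (fun x => (n x : ℝ) / (n x + d x)) F (𝓝 t) → 0 ≤ t → t < 1 →
    ∀ δ : ℝ, 0 < δ → ∀ᶠ x in F, (phi t - δ) * pdim (d x) (n x) ≤ (b (d x) (n x) : ℝ)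

/-- Module ASSEMBLY: uniform statement. -/
def FinalStmt : Prop :=
  ∀ (b h : ℕ → ℕ → ℕ) (A : ℕ → ℕ), Sys b h A →
    ∀ ε : ℝ, 0 < ε → ∃ D : ℕ, ∀ d : ℕ, D ≤ d → ∀ n : ℕ,
      |(b d n : ℝ) - phi ((n : ℝ) / (n + d)) * pdim d n| ≤ ε * pdim d n

end Pool.Agent.Lib_helper74.Hit
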