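import Pool.Agent.Lib_helper74.Hit.Orb

/-! Word monomials: products of powers of the variables with exponents powers of two. -/

namespace Pool.Agent.Lib_helper74.Hit

open MvPolynomial

/-- Exponent vector of a word. -/
noncomputable def ex {n : ℕ} (e : Fin n → ℕ) : Fin n →₀ ℕ :=
  Finsupp.equivFunOnFinite.symm (fun i => 2 ^ (e i))

@[simp] theorem ex_apply {n : ℕ} (e : Fin n → ℕ) (i : Fin n) : ex e i = 2 ^ (e i) := rfl

theorem ex_inj {n : ℕ} {e e' : Fin n → ℕ} : ex e = ex e' ↔ e = e' := by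
  constructor
  · intro h
    funext i
    have := congrArg (fun f => f i) h
    simpa using this
  · rintro rfl; rfl

/-- Word monomial. -/
noncomputable def wm {n : ℕ} (e : Fin n → ℕ) : MvPolynomial (Fin n) (ZMod 2) := monomial (ex e) 1

theorem wm_eq {n : ℕ} (e : Fin n → ℕ) : wm e = ∏ i, X i ^ (2 ^ e i) := by
  rw [wm, monomial_eq, map_one, one_mul, Finsupp.prod_fintype _ _ (fun i => pow_zero _)]
  rfl

/-- Weight of a word. -/
def wt {n : ℕ} (e : Fin n → ℕ) : ℕ := ∑ i, (2 ^ e i - 1)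

/-- Raise the letters in `D`. -/
def raise {n : ℕ} (D : Finset (Fin n)) (e : Fin n → ℕ) : Fin n → ℕ :=
  fun i => if i ∈ D then e i + 1 else e i

theorem wt_raise {n : ℕ} (D : Finset (Fin n)) (e : Fin n → ℕ) :
    wt (raise D e) = wt e + ∑ i ∈ D, 2 ^ e i := by
  classical
  rw [wt, wt]
  have h1 : ∑ i ∈ D, 2 ^ e i = ∑ i, if i ∈ D then 2 ^ e i else 0 := by
    rw [Finset.sum_ite_mem, Finset.univ_inter]
  rw [h1, ← Finset.sum_add_distrib]
  apply Finset.sum_congr rfl
  intro i _
  unfold raise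
  have : 1 ≤ 2 ^ e i := Nat.one_le_two_pow
  split_ifs with h
  · rw [pow_succ]; omega
  · omega

theorem totalSq_pow {σ : Type} (i : σ) (e : ℕ) : totalSq σ (X i ^ (2 ^ e)) =
    Polynomial.C (X i ^ (2 ^ (e + 1))) * Polynomial.X ^ (2 ^ e) +
      Polynomial.C (X i ^ (2 ^ e)) := by
  rw [map_pow, totalSq_X, add_pow_char_pow, mul_pow, ← map_pow, ← map_pow, ← pow_mul, add_comm,
    pow_succ, mul_comm 2 (2 ^ e)]

theorem Sq_wm {n : ℕ} (j : ℕ) (e : Fin n → ℕ) : Sq j (wm e) =
    ∑ D ∈ (Finset.univ : Finset (Fin n)).powerset,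
      if ∑ i ∈ D, 2 ^ e i = j then wm (raise D e) else 0 := by
  classical
  have h : totalSq (Fin n) (wm e) = ∑ D ∈ (Finset.univ : Finset (Fin n)).powerset,
      Polynomial.C (wm (raise D e)) * Polynomial.X ^ (∑ i ∈ D, 2 ^ e i) := by
    rw [wm_eq, map_prod]
    simp only [totalSq_pow]
    rw [Finset.prod_add]
    apply Finset.sum_congr rfl
    intro D _
    rw [Finset.prod_mul_distrib, Finset.prod_pow_eq_pow_sum, ← map_prod, ← map_prod, mul_assoc,
      mul_comm (Polynomial.X ^ _), ← mul_assoc, ← map_mul]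
    congr 2
    rw [wm_eq]
    rw [← Finset.prod_sdiff (Finset.subset_univ D), mul_comm]
    congr 1
    · apply Finset.prod_congr rfl
      intro i hi
      rw [Finset.mem_sdiff] at hi
      simp [raise, hi.2]
    · apply Finset.prod_congr rfl
      intro i hi
      simp [raise, hi]
  rw [Sq, h, Polynomial.finsetSum_coeff]
  apply Finset.sum_congr rfl
  intro D _
  rw [Polynomial.coeff_C_mul, Polynomial.coeff_X_pow]
  split_ifs with h1 h2 h2
  · simp
  · exact absurd h1.symm h2
  · exact absurd h2.symm h1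
  · simp

/-- The span of the word monomials of weight `k`. -/
noncomputable def WS (n k : ℕ) : Submodule (ZMod 2) (MvPolynomial (Fin n) (ZMod 2)) :=
  Submodule.span (ZMod 2) {f | ∃ e : Fin n → ℕ, wt e = k ∧ f = wm e}

theorem U_eq_wm (n : ℕ) : U n = wm (fun _ => 0) := by
  rw [wm_eq, U]
  simp

theorem Sq_mem_WS {n k : ℕ} (j : ℕ) {f : MvPolynomial (Fin n) (ZMod 2)} (hf : f ∈ WS n k) :
    Sq j f ∈ WS n (k + j) := by
  classical
  have h : (WS n k).map (SqL (Fin n) j) ≤ WS n (k + j) := by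
    rw [WS, Submodule.map_span, Submodule.span_le]
    rintro _ ⟨_, ⟨e, he, rfl⟩, rfl⟩
    rw [SqL_apply, Sq_wm]
    apply Submodule.sum_mem
    intro D _
    split_ifs with hD
    · apply Submodule.subset_span
      exact ⟨raise D e, by rw [wt_raise, he, hD], rfl⟩
    · exact Submodule.zero_mem _
  exact h ⟨f, hf, rfl⟩

theorem orb_U_le_WS (n k : ℕ) : orb (U n) k ≤ WS n k := by
  apply orb_le_of (U n) (WS n)
  · rw [U_eq_wm]
    apply Submodule.subset_span
    exact ⟨fun _ => 0, by simp [wt], rfl⟩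
  · intro k j f hf
    exact Sq_mem_WS j hf

theorem orb_U_symm {n k : ℕ} {f : MvPolynomial (Fin n) (ZMod 2)} (hf : f ∈ orb (U n) k)
    (π : Equiv.Perm (Fin n)) : rename π f = f := by
  have h : orb (U n) k ≤ LinearMap.ker ((rename π).toLinearMap -
      (LinearMap.id : MvPolynomial (Fin n) (ZMod 2) →ₗ[ZMod 2] _)) := by
    apply orb_le_of (U n) (fun _ => LinearMap.ker ((rename π).toLinearMap -
      (LinearMap.id : MvPolynomial (Fin n) (ZMod 2) →ₗ[ZMod 2] _)))
    · rw [LinearMap.mem_ker]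
      simp only [LinearMap.sub_apply, AlgHom.toLinearMap_apply, LinearMap.id_apply]
      rw [U, map_prod]
      simp only [rename_X]
      rw [Equiv.prod_comp π (fun i => (X i : MvPolynomial (Fin n) (ZMod 2))), sub_self]
    · intro k j f hf
      rw [LinearMap.mem_ker] at hf ⊢
      simp only [LinearMap.sub_apply, AlgHom.toLinearMap_apply, LinearMap.id_apply] at hf ⊢
      rw [sub_eq_zero] at hf ⊢
      rw [← Sq_rename, hf]
  have := h hf
  rw [LinearMap.mem_ker] at this
  simp only [LinearMap.sub_apply, AlgHom.toLinearMap_apply, LinearMap.id_apply] at this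
  exact sub_eq_zero.1 this

theorem coeff_comp_perm {n k : ℕ} {f : MvPolynomial (Fin n) (ZMod 2)} (hf : f ∈ orb (U n) k)
    (e : Fin n → ℕ) (π : Equiv.Perm (Fin n)) : coeff (ex (e ∘ π)) f = coeff (ex e) f := by
  have h1 := coeff_rename_mapDomain π π.injective f (ex (e ∘ π))
  rw [orb_U_symm hf] at h1
  rw [← h1]
  congr 1
  ext i
  rw [← Finsupp.equivMapDomain_eq_mapDomain, Finsupp.equivMapDomain_apply]
  simp

theorem coeff_wm {n : ℕ} (m : Fin n →₀ ℕ) (e : Fin n → ℕ) :
    coeff m (wm e) = if ex e = m then 1 else 0 := by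
  classical
  rw [wm, coeff_monomial]

theorem WS_eq_zero {n k : ℕ} {f : MvPolynomial (Fin n) (ZMod 2)} (hf : f ∈ WS n k)
    (h : ∀ e : Fin n → ℕ, wt e = k → coeff (ex e) f = 0) : f = 0 := by
  classical
  have h1 : ∀ m : Fin n →₀ ℕ, (∀ e : Fin n → ℕ, wt e = k → m ≠ ex e) → coeff m f = 0 := by
    intro m hm
    have h2 : WS n k ≤ LinearMap.ker (lcoeff (ZMod 2) m) := by
      rw [WS, Submodule.span_le]
      rintro _ ⟨e, he, rfl⟩
      change lcoeff (ZMod 2) m (wm e) = 0
      rw [lcoeff_apply, coeff_wm, if_neg (fun h => hm e he h.symm)]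
    exact h2 hf
  ext m
  rw [coeff_zero]
  by_cases hm : ∃ e : Fin n → ℕ, wt e = k ∧ m = ex e
  · obtain ⟨e, he, rfl⟩ := hm
    exact h e he
  · apply h1
    intro e he hme
    exact hm ⟨e, he, hme⟩

theorem wt_comp {n : ℕ} (e : Fin n → ℕ) (π : Equiv.Perm (Fin n)) : wt (e ∘ π) = wt e := by
  rw [wt, wt]
  exact Equiv.sum_comp π (fun i => 2 ^ e i - 1)

theorem orb_U_eq_zero {n k : ℕ} {f : MvPolynomial (Fin n) (ZMod 2)} (hf : f ∈ orb (U n) k)
    (h : ∀ e : Fin n → ℕ, Monotone e → wt e = k → coeff (ex e) f = 0) : f = 0 := by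
  apply WS_eq_zero (orb_U_le_WS n k hf)
  intro e he
  rw [← coeff_comp_perm hf e (Tuple.sort e)]
  exact h _ (Tuple.monotone_sort e) (by rw [wt_comp, he])

theorem finrank_orb_U_le (n k : ℕ) [Finite (Words n k)] :
    Module.finrank (ZMod 2) (orb (U n) k) ≤ Nat.card (Words n k) := by
  classical
  have := Fintype.ofFinite (Words n k)
  let Φ : orb (U n) k →ₗ[ZMod 2] (Words n k → ZMod 2) :=
    LinearMap.pi fun e => (lcoeff (ZMod 2) (ex e.1)).comp (orb (U n) k).subtype
  have hinj : Function.Injective Φ := by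
    rw [← LinearMap.ker_eq_bot, LinearMap.ker_eq_bot']
    intro f hf
    apply Subtype.ext
    apply orb_U_eq_zero f.2
    intro e he hk
    exact congrFun hf ⟨e, he, hk⟩
  have h := LinearMap.finrank_le_finrank_of_injective hinj
  rwa [Module.finrank_fintype_fun_eq_card, ← Nat.card_eq_fintype_card] at h

end Pool.Agent.Lib_helper74.Hit
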