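import Pool.Agent.Lib_helper74.Hit.Wd

/-! Lower bound for the dimension of the orbit of the product of all variables. -/

namespace Pool.Agent.Lib_helper74.Hit

open MvPolynomial

/-- Lower all positive letters by one. -/
def low {n : ℕ} (e : Fin n → ℕ) : Fin n → ℕ := fun i => e i - 1

/-- The largest possible square leading to the word. -/
def JJ {n : ℕ} (e : Fin n → ℕ) : ℕ := ∑ i, if e i = 0 then 0 else 2 ^ (e i - 1)

theorem wt_low {n : ℕ} (e : Fin n → ℕ) : wt e = JJ e + wt (low e) := by
  rw [wt, wt, JJ, ← Finset.sum_add_distrib]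
  apply Finset.sum_congr rfl
  intro i _
  unfold low
  rcases h : e i with _ | a
  · simp
  · rw [if_neg (by omega), Nat.add_sub_cancel, pow_succ]
    have : 1 ≤ 2 ^ a := Nat.one_le_two_pow
    omega

theorem wt_supp {n : ℕ} (e : Fin n → ℕ) :
    wt e + (Finset.univ.filter fun i => e i ≠ 0).card = 2 * JJ e := by
  classical
  rw [wt, JJ, Finset.card_filter, ← Finset.sum_add_distrib, Finset.mul_sum]
  apply Finset.sum_congr rfl
  intro i _
  rcases h : e i with _ | a
  · simp
  · rw [if_pos (by omega), if_neg (by omega), Nat.add_sub_cancel, pow_succ]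
    have : 1 ≤ 2 ^ a := Nat.one_le_two_pow
    omega

theorem JJ_pos {n : ℕ} {e : Fin n → ℕ} (h : 1 ≤ wt e) : 1 ≤ JJ e := by
  have := wt_supp e
  omega

theorem raise_key {n : ℕ} {e e' : Fin n → ℕ} {D : Finset (Fin n)} {j : ℕ} (hj : JJ e ≤ j)
    (h1 : raise D e' = e) (h2 : ∑ i ∈ D, 2 ^ e' i = j) :
    D = (Finset.univ.filter fun i => e i ≠ 0) ∧ e' = low e ∧ JJ e = j := by
  classical
  have h3 : JJ e = ∑ i ∈ D, 2 ^ e' i + ∑ i ∈ Finset.univ \ D, (if e i = 0 then 0 else 2 ^ (e i - 1)) := by
    rw [JJ, ← Finset.sum_sdiff (Finset.subset_univ D), add_comm]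
    congr 1
    apply Finset.sum_congr rfl
    intro i hi
    have : e i = e' i + 1 := by rw [← h1]; simp [raise, hi]
    rw [this, if_neg (by omega), Nat.add_sub_cancel]
  have h4 : ∑ i ∈ Finset.univ \ D, (if e i = 0 then 0 else 2 ^ (e i - 1)) = 0 := by omega
  rw [Finset.sum_eq_zero_iff] at h4
  have h5 : ∀ i, i ∉ D → e i = 0 := by
    intro i hi
    by_contra h
    have := h4 i (by simp [hi])
    rw [if_neg h] at this
    have h6 : 0 < 2 ^ (e i - 1) := by positivity
    omega
  have h6 : ∀ i, i ∈ D → e i = e' i + 1 := by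
    intro i hi
    rw [← h1]; simp [raise, hi]
  have h7 : ∀ i, i ∉ D → e i = e' i := by
    intro i hi
    rw [← h1]; simp [raise, hi]
  refine ⟨?_, ?_, by omega⟩
  · ext i
    simp only [Finset.mem_filter, Finset.mem_univ, true_and]
    constructor
    · intro hi; rw [h6 i hi]; omega
    · intro hi; by_contra h; exact hi (h5 i h)
  · funext i
    unfold low
    by_cases hi : i ∈ D
    · rw [h6 i hi]; omega
    · rw [← h7 i hi, h5 i hi]

theorem coeff_Sq_wm {n : ℕ} {e : Fin n → ℕ} {j : ℕ} (hj : JJ e ≤ j) (e' : Fin n → ℕ) :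
    coeff (ex e) (Sq j (wm e')) = if JJ e = j ∧ e' = low e then 1 else 0 := by
  classical
  rw [Sq_wm, coeff_sum]
  have h1 : ∀ D : Finset (Fin n), coeff (ex e)
      (if ∑ i ∈ D, 2 ^ e' i = j then wm (raise D e') else (0 : MvPolynomial (Fin n) (ZMod 2))) =
      if (∑ i ∈ D, 2 ^ e' i = j ∧ raise D e' = e) then 1 else 0 := by
    intro D
    by_cases h : ∑ i ∈ D, 2 ^ e' i = j
    · rw [if_pos h, coeff_wm]
      by_cases h' : raise D e' = e
      · rw [if_pos (by rw [h']), if_pos ⟨h, h'⟩]
      · rw [if_neg (fun h'' => h' (ex_inj.1 h'')), if_neg (fun h'' => h' h''.2)]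
    · rw [if_neg h, coeff_zero, if_neg (fun h'' => h h''.1)]
  simp only [h1]
  split_ifs with h
  · obtain ⟨h2, h3⟩ := h
    rw [Finset.sum_eq_single (Finset.univ.filter fun i => e i ≠ 0)]
    · rw [if_pos]
      constructor
      · rw [← h2, JJ, Finset.sum_filter, h3]
        apply Finset.sum_congr rfl
        intro i _
        unfold low
        by_cases h : e i = 0
        · simp [h]
        · simp [h]
      · funext i
        unfold raise
        rw [h3]
        unfold low
        by_cases h : e i = 0
        · simp [h]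
        · simp only [Finset.mem_filter, Finset.mem_univ, true_and]
          rw [if_pos h]
          omega
    · intro D _ hD
      rw [if_neg]
      rintro ⟨h4, h5⟩
      exact hD (raise_key hj h5 h4).1
    · intro h; simp at h
  · apply Finset.sum_eq_zero
    intro D _
    rw [if_neg]
    rintro ⟨h4, h5⟩
    obtain ⟨_, h6, h7⟩ := raise_key hj h5 h4
    exact h ⟨h7, h6⟩

theorem coeff_Sq_of_mem {n k : ℕ} {e : Fin n → ℕ} {j : ℕ} (hj : JJ e ≤ j)
    {f : MvPolynomial (Fin n) (ZMod 2)} (hf : f ∈ WS n k) :
    coeff (ex e) (Sq j f) = if JJ e = j then coeff (ex (low e)) f else 0 := by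
  classical
  have h : WS n k ≤ LinearMap.ker ((lcoeff (ZMod 2) (ex e)).comp (SqL (Fin n) j) -
      (if JJ e = j then lcoeff (ZMod 2) (ex (low e)) else 0)) := by
    rw [WS, Submodule.span_le]
    rintro _ ⟨e', _, rfl⟩
    change _ = _
    rw [LinearMap.sub_apply, LinearMap.comp_apply, lcoeff_apply, SqL_apply, coeff_Sq_wm hj,
      sub_eq_zero]
    by_cases h1 : JJ e = j
    · rw [if_pos h1, lcoeff_apply, coeff_wm]
      by_cases h2 : e' = low e
      · rw [if_pos ⟨h1, h2⟩, if_pos (by rw [h2])]
      · rw [if_neg (fun h => h2 h.2), if_neg (fun h => h2 (ex_inj.1 h))]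
    · rw [if_neg h1, if_neg (fun h => h1 h.1)]
      rfl
  have h2 := h hf
  rw [LinearMap.mem_ker, LinearMap.sub_apply, LinearMap.comp_apply, lcoeff_apply, SqL_apply,
    sub_eq_zero] at h2
  rw [h2]
  split_ifs
  · rw [lcoeff_apply]
  · rfl

theorem low_mono {n : ℕ} {e : Fin n → ℕ} (he : Monotone e) : Monotone (low e) := by
  intro i j hij
  unfold low
  have := he hij
  omega

theorem supp_eq {n k j : ℕ} {e e' : Fin n → ℕ} (he : Monotone e) (he' : Monotone e')
    (hk : wt e = k) (hk' : wt e' = k) (hj : JJ e = j) (hj' : JJ e' = j) :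
    (Finset.univ.filter fun i => e i ≠ 0) = (Finset.univ.filter fun i => e' i ≠ 0) := by
  classical
  have hc : (Finset.univ.filter fun i => e i ≠ 0).card =
      (Finset.univ.filter fun i => e' i ≠ 0).card := by
    have h1 := wt_supp e
    have h2 := wt_supp e'
    omega
  have hu : ∀ {e : Fin n → ℕ}, Monotone e → IsUpperSet {i | e i ≠ 0} := by
    intro e he i j hij hi
    have := he hij
    simp only [Set.mem_ofPred_eq] at hi ⊢
    omega
  rcases (hu he).total (hu he') with h | h
  · apply Finset.eq_of_subset_of_card_le _ hc.ge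
    intro i hi
    simp only [Finset.mem_filter, Finset.mem_univ, true_and] at hi ⊢
    exact h hi
  · symm
    apply Finset.eq_of_subset_of_card_le _ hc.le
    intro i hi
    simp only [Finset.mem_filter, Finset.mem_univ, true_and] at hi ⊢
    exact h hi

theorem low_inj {n k j : ℕ} {e e' : Fin n → ℕ} (he : Monotone e) (he' : Monotone e')
    (hk : wt e = k) (hk' : wt e' = k) (hj : JJ e = j) (hj' : JJ e' = j) (h : low e = low e') :
    e = e' := by
  classical
  have h1 := supp_eq he he' hk hk' hj hj'
  funext i
  have h2 := congrFun h i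
  have h3 : e i ≠ 0 ↔ e' i ≠ 0 := by
    have := Finset.ext_iff.1 h1 i
    simpa using this
  unfold low at h2
  omega

theorem word_relation {n : ℕ} : ∀ k : ℕ, ∀ s : Finset (Fin n → ℕ),
    (∀ e ∈ s, Monotone e ∧ wt e = k) →
    (∀ f ∈ orb (U n) k, ∑ e ∈ s, coeff (ex e) f = 0) → s = ∅ := by
  classical
  intro k
  induction k using Nat.strong_induction_on with
  | _ k ih =>
    intro s hs hrel
    by_contra hne
    have hne' := Finset.nonempty_of_ne_empty hne
    rcases Nat.eq_zero_or_pos k with hk | hk
    · subst hk
      have h0 : ∀ e ∈ s, e = fun _ => 0 := by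
        intro e he
        have h1 := (hs e he).2
        rw [wt, Finset.sum_eq_zero_iff] at h1
        funext i
        have h2 := h1 i (by simp)
        by_contra h3
        have h4 : 2 ≤ 2 ^ e i := by
          calc 2 = 2 ^ 1 := by norm_num
            _ ≤ 2 ^ e i := Nat.pow_le_pow_right (by norm_num) (by omega)
        omega
      have h1 : s = {fun _ => 0} := by
        apply Finset.eq_singleton_iff_nonempty_unique_mem.2
        exact ⟨hne', h0⟩
      have h2 := hrel (U n) (mem_orb_zero _)
      rw [h1, Finset.sum_singleton, U_eq_wm, coeff_wm, if_pos rfl] at h2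
      exact one_ne_zero h2
    · obtain ⟨e0, he0, hmax⟩ := Finset.exists_max_image s JJ hne'
      set j := JJ e0 with hj
      have hjpos : 1 ≤ j := JJ_pos (by rw [(hs e0 he0).2]; exact hk)
      have hjk : j ≤ k := by
        have := wt_low e0
        rw [(hs e0 he0).2] at this
        omega
      set s' := s.filter (fun e => JJ e = j) with hs'
      have hinj : Set.InjOn low (s' : Set (Fin n → ℕ)) := by
        intro e he e' he' hee
        rw [Finset.mem_coe, hs', Finset.mem_filter] at he he'
        exact low_inj (hs e he.1).1 (hs e' he'.1).1 (hs e he.1).2 (hs e' he'.1).2 he.2 he'.2 hee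
      have ht : s'.image low = ∅ := by
        apply ih (k - j) (by omega)
        · intro e he
          rw [Finset.mem_image] at he
          obtain ⟨e', he', rfl⟩ := he
          rw [hs', Finset.mem_filter] at he'
          refine ⟨low_mono (hs e' he'.1).1, ?_⟩
          have := wt_low e'
          rw [(hs e' he'.1).2, he'.2] at this
          omega
        · intro f hf
          rw [Finset.sum_image hinj]
          have h1 := hrel (Sq j f) (by
            have := Sq_mem_orb hf j
            rwa [Nat.sub_add_cancel hjk] at this)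
          rw [← h1, hs', Finset.sum_filter]
          apply Finset.sum_congr rfl
          intro e he
          rw [coeff_Sq_of_mem (hmax e he) (orb_U_le_WS n _ hf)]
      rw [Finset.image_eq_empty] at ht
      have : e0 ∈ s' := by
        rw [hs', Finset.mem_filter]
        exact ⟨he0, rfl⟩
      rw [ht] at this
      simp at this

theorem finrank_orb_U_ge (n k : ℕ) [Finite (Words n k)] :
    Nat.card (Words n k) ≤ Module.finrank (ZMod 2) (orb (U n) k) := by
  classical
  have := Fintype.ofFinite (Words n k)
  have hfd : FiniteDimensional (ZMod 2) (orb (U n) k) := fd_of_le (orb_homog (U_homog n) k)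
  let v : Words n k → Module.Dual (ZMod 2) (orb (U n) k) :=
    fun e => (lcoeff (ZMod 2) (ex e.1)).comp (orb (U n) k).subtype
  have hli : LinearIndependent (ZMod 2) v := by
    rw [Fintype.linearIndependent_iff]
    intro g hg
    have hs : (Finset.univ.filter (fun e : Words n k => g e = 1)).image
        (fun e => (e.1 : Fin n → ℕ)) = ∅ := by
      apply word_relation k
      · intro e he
        rw [Finset.mem_image] at he
        obtain ⟨e', _, rfl⟩ := he
        exact e'.2
      · intro f hf
        rw [Finset.sum_image (by intro a _ b _ h; exact Subtype.ext h), Finset.sum_filter]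
        have h1 := congrArg (fun φ => φ ⟨f, hf⟩) hg
        simp only [LinearMap.coe_sum, Finset.sum_apply, LinearMap.smul_apply,
          LinearMap.zero_apply] at h1
        refine (Finset.sum_congr rfl ?_).trans h1
        intro e _
        have h2 : g e = 0 ∨ g e = 1 := by
          generalize g e = x
          revert x
          decide
        change (if g e = 1 then coeff (ex e.1) f else 0) = g e • coeff (ex e.1) f
        rcases h2 with h | h
        · rw [h]; simp
        · rw [h]; simp
    rw [Finset.image_eq_empty, Finset.filter_eq_empty_iff] at hs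
    intro e
    have h2 : g e = 0 ∨ g e = 1 := by
      generalize g e = x
      revert x
      decide
    exact h2.resolve_right (hs (by simp))
  have h := hli.fintype_card_le_finrank
  rwa [Subspace.dual_finrank_eq, ← Nat.card_eq_fintype_card] at h

end Pool.Agent.Lib_helper74.Hit
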